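import Pool.Agent.Lib.MP_72d5fb_co.Spec

/-! # MP_72d5fb_co: module Bas -/

namespace QS3D

theorem bas : BasStmt := by
  intro m d n w V k hF
  obtain ⟨hk, hd, hm, hn, hw, hx, hx', e1, e2, e3⟩ := hF
  have hmd : 1 ≤ m * d := by nlinarith
  have hV : 2 * m * d ≤ V := by linarith
  have hV0 : 0 < V := by linarith
  have a1 : V * (A m d n * Bq m d n) = n * (n * c m d - 2 * P m d) := by
    have h : V * (V * (A m d n * Bq m d n)) = V * (n * (n * c m d - 2 * P m d)) := by
      have hc : c m d = u m d ^ 2 - d ^ 2 + 1 := by unfold c u; ring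
      rw [hc]
      unfold A Bq
      linear_combination n ^ 2 * e3 + (n * Th m d V k + P m d * V - 2 * n - 2 * V * n) * e1
    exact mul_left_cancel₀ hV0.ne' h
  have a6 : (V + 2 - 2 * k) ^ 2 = V ^ 2 - 2 * u m d * V + 2 * Th m d V k := by
    unfold u Th
    ring
  have a2 : 0 ≤ n * (V - 2 * u m d) + 2 * P m d := by
    have h : 0 ≤ V * (n * (V - 2 * u m d) + 2 * P m d) := by
      have e : V * (n * (V - 2 * u m d) + 2 * P m d) = n * (V + 2 - 2 * k) ^ 2 := by
        rw [a6]
        linear_combination -2 * e1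
      rw [e]
      positivity
    exact nonneg_of_mul_nonneg_right h hV0
  have a3 : V * (P m d + n * (d + 1)) ≤ 2 * m ^ 2 * d ^ 2 * n := by
    have h : Th m d V k + V * (d + 1) ≤ 2 * m ^ 2 * d ^ 2 := by
      have h2 : 0 ≤ (k - (m * d + 1)) * (V + 2 - k - (m * d + 1)) := mul_nonneg (by linarith) (by linarith)
      unfold Th
      nlinarith
    have h3 := mul_le_mul_of_nonneg_left h (by linarith : 0 ≤ n)
    nlinarith
  have a4 : w * Th m d V k = P m d * (k - 1) := by
    have h : n * (w * Th m d V k) = n * (P m d * (k - 1)) := by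
      linear_combination w * e1 + P m d * e2
    exact mul_left_cancel₀ (by linarith) h
  have a5 : (Th m d V k - V - 1) ^ 2 = (V + 1) * (V * d ^ 2 + 1) - V * u m d ^ 2 := by
    linear_combination -e3
  refine ⟨hV, a1, a2, a3, a4, a5, a6, fun hm3 => ?_⟩
  have hp : 6 ≤ m * (m - 1) := by nlinarith
  have hP0 : 0 < P m d := by
    unfold P
    nlinarith
  have hB : 0 < Bq m d n := by
    unfold Bq
    have : 0 ≤ n * (d - 1) := mul_nonneg (by linarith) (by linarith)
    linarith
  have hcP : 0 < c m d - 2 * P m d := by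
    have h1 : 0 ≤ (d - 1) * d := mul_nonneg (by linarith) (by linarith)
    have h2 : 4 * m * (m - 1) * d ^ 2 - 2 * (2 * m - 1) * d - 2 * m * (m - 1) * d + 2 =
        4 * (m * (m - 1)) * ((d - 1) * d) + (2 * (m * (m - 1)) - 4 * m + 2) * d + 2 := by ring
    have h3 : 0 ≤ 2 * (m * (m - 1)) - 4 * m + 2 := by nlinarith
    have h4 : c m d - 2 * P m d =
        4 * (m * (m - 1)) * ((d - 1) * d) + (2 * (m * (m - 1)) - 4 * m + 2) * d + 2 := by
      rw [← h2]
      unfold c P
      ring
    rw [h4]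
    have h5 : 0 ≤ 4 * (m * (m - 1)) * ((d - 1) * d) := mul_nonneg (by linarith) h1
    have h6 : 0 ≤ (2 * (m * (m - 1)) - 4 * m + 2) * d := mul_nonneg h3 (by linarith)
    linarith
  have hncP : 0 < n * (n * c m d - 2 * P m d) := by
    have : c m d ≤ n * c m d := by nlinarith
    exact mul_pos (by linarith) (by linarith)
  rw [← a1] at hncP
  have h7 := (mul_pos_iff_of_pos_left hV0).1 hncP
  exact (mul_pos_iff_of_pos_right hB).1 h7

end QS3D
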