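import Pool.Agent.Lib.MP_72d5fb_co.Spec

/-! # MP_72d5fb_co: module Small -/

namespace QS3D

theorem small : SmallStmt := by
  intro m d n w V k hF hV h1
  obtain ⟨hk, hd, hm, hn, hw, hx, hx', e1, e2, e3⟩ := hF
  by_contra hlt
  have h12 : m = 1 ∨ m = 2 := by omega
  rcases h12 with rfl | rfl
  · -- `m = 1`
    have hP : P 1 d = 0 := by unfold P; ring
    rw [hP, zero_mul] at e1
    have hT : Th 1 d V k = 0 := (mul_eq_zero.1 e1).resolve_left (by linarith)
    rw [hT] at e3
    have e4 : V * ((V + 1) * (d ^ 2 - 1) - (d - 1) ^ 2) = 0 := by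
      unfold u at e3
      linear_combination e3
    have hV0 : 0 < V := by linarith
    have e5 := (mul_eq_zero.1 e4).resolve_left hV0.ne'
    have e6 : (d - 1) * ((V + 1) * (d + 1) - (d - 1)) = 0 := by linear_combination e5
    have e7 : 0 < (V + 1) * (d + 1) - (d - 1) := by nlinarith
    have e8 : d = 1 := by
      have := (mul_eq_zero.1 e6).resolve_right e7.ne'
      linarith
    subst e8
    unfold Th at hT
    have e9 : 2 * ((k - 1) * (V + 1 - k)) = 0 := by linear_combination -hT
    have : 0 < (k - 1) * (V + 1 - k) := mul_pos (by linarith) (by linarith)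
    linarith
  · -- `m = 2`
    have hP : P 2 d = 2 * d := by unfold P; ring
    have hc : c 2 d = 8 * d ^ 2 - 6 * d + 2 := by unfold c; ring
    have hA : A 2 d n = n * (d + 1) - 2 * d := by unfold A; rw [hP]
    have hB : Bq 2 d n = n * (d - 1) + 2 * d := by unfold Bq; rw [hP]
    have hTh : Th 2 d V k = V * (3 * d + 1) - 2 * k * (V + 2 - k) + 2 := by unfold Th; ring
    rw [hP, hTh] at e1
    rw [hP, hc, hA, hB] at h1
    have hV0 : 0 < V := by linarith
    by_cases h3 : 3 ≤ n
    · by_cases hd1 : d = 1
      · subst hd1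
        have e4 : (4 * (n - 1)) * V = (4 * (n - 1)) * n := by linear_combination h1
        have e5 : V = n := mul_left_cancel₀ (by linarith : (4 * (n - 1)) ≠ 0) e4
        subst e5
        have e6 : V * (V * (3 * 1 + 1) - 2 * k * (V + 2 - k) + 2) = V * 2 := by linear_combination e1
        have e7 := mul_left_cancel₀ hV0.ne' e6
        have e8 : 2 * ((k - 2) * (V - k)) = 0 := by linear_combination -e7
        have : 0 < (k - 2) * (V - k) := mul_pos (by linarith) (by linarith)
        linarith
      · have hd2 : 2 ≤ d := by omega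
        have hA0 : 0 < n * (d + 1) - 2 * d := by nlinarith
        have hB0 : 0 < n * (d - 1) + 2 * d := by nlinarith
        have hAB := mul_pos hA0 hB0
        have h4 : 4 * d * ((n * (d + 1) - 2 * d) * (n * (d - 1) + 2 * d)) ≤
            V * ((n * (d + 1) - 2 * d) * (n * (d - 1) + 2 * d)) :=
          mul_le_mul_of_nonneg_right (by linarith) hAB.le
        rw [h1] at h4
        have h5 : 4 * d * ((n * (d + 1) - 2 * d) * (n * (d - 1) + 2 * d)) -
            n ^ 2 * (8 * d ^ 2 - 6 * d + 2) =
            n ^ 2 * (4 * d ^ 3 - 8 * d ^ 2 + 2 * d - 2) + 16 * d ^ 2 * n - 16 * d ^ 3 := by ring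
        have h6 : 0 < 4 * d ^ 3 - 8 * d ^ 2 + 2 * d - 2 := by nlinarith [mul_nonneg (sq_nonneg d) (by linarith : 0 ≤ d - 2)]
        have h7 : 9 * (4 * d ^ 3 - 8 * d ^ 2 + 2 * d - 2) ≤ n ^ 2 * (4 * d ^ 3 - 8 * d ^ 2 + 2 * d - 2) :=
          mul_le_mul_of_nonneg_right (by nlinarith) h6.le
        have h8 : 16 * d ^ 2 * 3 ≤ 16 * d ^ 2 * n := mul_le_mul_of_nonneg_left h3 (by positivity)
        have h9 : 0 < 20 * d ^ 3 - 24 * d ^ 2 + 18 * d - 18 := by
          nlinarith [mul_nonneg (sq_nonneg d) (by linarith : 0 ≤ d - 2)]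
        have h10 : 0 < n * (2 * (2 * d)) := by positivity
        nlinarith
    · have h12 : n = 1 ∨ n = 2 := by omega
      rcases h12 with rfl | rfl
      · by_cases hd1 : d = 1
        · subst hd1
          have e8 : 2 * ((k - 1) * (V + 1 - k)) = 0 := by linear_combination -e1
          have : 0 < (k - 1) * (V + 1 - k) := mul_pos (by linarith) (by linarith)
          linarith
        · have hd2 : 2 ≤ d := by omega
          have h4 : 0 < 2 * ((4 * d - 1) * (d - 1)) := by
            have := mul_pos (by linarith : 0 < 4 * d - 1) (by linarith : 0 < d - 1)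
            linarith
          have h5 : 0 < V * ((d - 1) * (3 * d - 1)) :=
            mul_pos hV0 (mul_pos (by linarith) (by linarith))
          nlinarith
      · have e4 : (4 * (2 * d - 1)) * V = (4 * (2 * d - 1)) * (2 * (2 * d - 1)) := by
          linear_combination h1
        have e5 := mul_left_cancel₀ (by linarith : (4 * (2 * d - 1)) ≠ 0) e4
        linarith

end QS3D
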