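import Pool.Agent.Lib.MP_72d5fb_co.Spec

/-! # MP_72d5fb_co: module Alg -/

namespace QS3D

theorem alg : AlgStmt := by
  intro v k l lam r b x y m d n w hk hkv hl hlam hr hd hm hx hxx hy hkx hrl hll h1 h2 h3 E1 E2
  have hxk : x = k - m * d := by linarith
  have hyk : y = k - (m - 1) * d := by rw [hy, hxk]; ring
  have hq : 0 < v - k := by linarith
  have hV : 0 < v - 2 := by linarith
  have hv1 : 0 < v - 1 := by linarith
  have hd0 : 0 < d := by linarith
  have hk0 : 0 < k := by linarith
  have g1 : r * (v - k) = d * n * (v - 1) := by linear_combination (v - 1) * hrl + h2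
  have g2 : lam * (v - k) = d * n * (k - 1) := by
    have h : (v - 1) * (lam * (v - k)) = (v - 1) * (d * n * (k - 1)) := by
      linear_combination (v - k) * h2 + (k - 1) * g1
    exact mul_left_cancel₀ hv1.ne' h
  have g3 : b * k * (v - k) = d * n * v * (v - 1) := by
    linear_combination -(v - k) * h3 + v * g1
  have g4 : l * (v - k) * (v - 2) = d * n * (k - 1) * (k - 2) := by
    linear_combination (v - k) * h1 + (k - 2) * g2
  have g5 : (v - 2) * w = n * (k - 1) := by
    have h : d * ((v - 2) * w) = d * (n * (k - 1)) := by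
      linear_combination -(v - 2) * hll - h1 + g2
    exact mul_left_cancel₀ hd0.ne' h
  -- (6)
  have g6 : n * ((k * (v - k)) ^ 2 - (v - 1) * ((2 * m - 1) * d) * (k * (v - k))
      + d * P m d * v * (v - 1)) = P m d * (k * (v - k)) := by
    have h : d * (n * ((k * (v - k)) ^ 2 - (v - 1) * ((2 * m - 1) * d) * (k * (v - k))
      + d * P m d * v * (v - 1))) = d * (P m d * (k * (v - k))) := by
      rw [hxk, hyk] at E1
      unfold P
      linear_combination k * (v - k) * E1 - k ^ 2 * (k - 1) * g2
        - (1 - (2 * k - (2 * m - 1) * d)) * k ^ 2 * g1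
        - (k - m * d) * (k - (m - 1) * d) * g3
    exact mul_left_cancel₀ hd0.ne' h
  -- (7)
  have g7 : n * (((k - 1) * (v - k)) ^ 2 - (v - 2) * ((2 * m - 1) * d) * ((k - 1) * (v - k))
      + d * P m d * (v - 1) * (v - 2)) = P m d * (v - 2) * (v - k) := by
    have E2' : (k - 1) * (k - 2) * l + 3 * (k - 1) * lam + r - (x + y) * ((k - 1) * lam + r)
        + x * y * r = (k - x) * (k - y) := by
      have h : k * ((k - 1) * (k - 2) * l + 3 * (k - 1) * lam + r - (x + y) * ((k - 1) * lam + r)
        + x * y * r) = k * ((k - x) * (k - y)) := by linear_combination E2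
      exact mul_left_cancel₀ hk0.ne' h
    have h : d * (n * (((k - 1) * (v - k)) ^ 2 - (v - 2) * ((2 * m - 1) * d) * ((k - 1) * (v - k))
      + d * P m d * (v - 1) * (v - 2))) = d * (P m d * (v - 2) * (v - k)) := by
      rw [hxk, hyk] at E2'
      unfold P
      linear_combination (v - 2) * (v - k) * E2' - (k - 1) * (k - 2) * g4
        - (3 - (2 * k - (2 * m - 1) * d)) * (k - 1) * (v - 2) * g2
        - (1 - (2 * k - (2 * m - 1) * d) + (k - m * d) * (k - (m - 1) * d)) * (v - 2) * g1
    exact mul_left_cancel₀ hd0.ne' h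
  have e1 : n * Th m d (v - 2) k = P m d * (v - 2) := by
    have h : (v - k) ^ 2 * (n * Th m d (v - 2) k) = (v - k) ^ 2 * (P m d * (v - 2)) := by
      unfold Th
      linear_combination -(v - 2) * g6 + v * g7
    exact mul_left_cancel₀ (by positivity) h
  have hn : 1 ≤ n := by
    have h : 0 < d * n * (v - 1) := by rw [← g1]; positivity
    have h' := (mul_pos_iff_of_pos_right hv1).1 h
    exact (mul_pos_iff_of_pos_left hd0).1 h'
  have hw : 1 ≤ w := by
    have h : 0 < (v - 2) * w := by
      rw [g5]
      exact mul_pos (by linarith) (by linarith)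
    exact (mul_pos_iff_of_pos_left hV).1 h
  have e3 : (v - 2) * (((v - 2) + 1) * (d ^ 2 - 1) + 2 * Th m d (v - 2) k - u m d ^ 2) =
      Th m d (v - 2) k * (Th m d (v - 2) k - 2) := by
    have g9 : (v - 2) * ((k * (v - k)) ^ 2 - (v - 1) * ((2 * m - 1) * d) * (k * (v - k))
      + d * P m d * v * (v - 1)) = Th m d (v - 2) k * (k * (v - k)) := by
      have h : n * ((v - 2) * ((k * (v - k)) ^ 2 - (v - 1) * ((2 * m - 1) * d) * (k * (v - k))
        + d * P m d * v * (v - 1))) = n * (Th m d (v - 2) k * (k * (v - k))) := by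
        linear_combination (v - 2) * g6 - (k * (v - k)) * e1
      exact mul_left_cancel₀ (by linarith) h
    have hK : 2 * (k * (v - k)) = (v - 2) * ((2 * m - 1) * d + 1) + 2 - Th m d (v - 2) k := by
      unfold Th
      ring
    obtain ⟨K, hKe⟩ : ∃ K, K = k * (v - k) := ⟨_, rfl⟩
    rw [← hKe] at g9 hK
    obtain ⟨T, hT⟩ : ∃ T, T = Th m d (v - 2) k := ⟨_, rfl⟩
    rw [← hT] at g9 hK ⊢
    have h : v * ((v - 2) * (((v - 2) + 1) * (d ^ 2 - 1) + 2 * T - u m d ^ 2)) =
        v * (T * (T - 2)) := by
      have hT2 : T = (v - 2) * ((2 * m - 1) * d + 1) + 2 - 2 * K := by linarith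
      subst hT2
      unfold P at g9
      unfold u
      linear_combination -4 * g9
    exact mul_left_cancel₀ (by linarith) h
  exact ⟨hk, hd, hm, hn, hw, by linarith, by linarith, e1, by linear_combination g5, e3⟩

end QS3D
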