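import Pool.Agent.Lib.MP_72d5fb_co.Spec

/-!
# MP_72d5fb_co, module Blk
-/

set_option autoImplicit false

namespace QS3D

open Finset

theorem blk : BlkStmt := by
  intro α ι _ _ _ B k r hB hr
  have h1 : ∑ p : α, (univ.filter fun i => p ∈ B i).card = ∑ i : ι, (B i).card := by
    have h2 : ∀ i : ι, (B i).card = ∑ p : α, if p ∈ B i then 1 else 0 := by
      intro i
      rw [← Finset.card_filter]
      congr 1
      ext p
      simp
    simp only [Finset.card_filter]
    rw [Finset.sum_comm]
    exact Finset.sum_congr rfl fun i _ => (h2 i).symm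
  simp only [hr, hB, Finset.sum_const, smul_eq_mul, Finset.card_univ] at h1
  rw [mul_comm]
  exact h1

end QS3D
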