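import Pool.Agent.Lib.MP_72d5fb_co.Spec

/-! # MP_72d5fb_co: module Bnd -/

namespace QS3D

theorem bnd : BndStmt := by
  intro m d hm hdm
  have hm3 : 27 ≤ m ^ 3 := by nlinarith [mul_nonneg (by linarith : 0 ≤ m - 3) (by positivity : 0 ≤ m ^ 2)]
  have hd14 : 14 ≤ d := by omega
  obtain ⟨t, ht⟩ : ∃ t : ℕ, m = t + 3 := ⟨(m - 3).toNat, by omega⟩
  have hp : 6 ≤ m * (m - 1) := by nlinarith
  obtain ⟨p, hp'⟩ : ∃ p, p = m * (m - 1) := ⟨_, rfl⟩
  obtain ⟨α, hα⟩ : ∃ α, α = (2 * m - 2) * p + 2 * m - 1 := ⟨_, rfl⟩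
  constructor
  · have e : G m d (m * (m - 1) + 1) = 2 * ((α * d - (p + 1)) * (d + (p + 1))) *
        ((2 * p + 1) * d - (p + 1)) - (p + 1) ^ 2 * ((p + 1) * c m d - 2 * (p * d)) := by
      rw [hα, hp']
      unfold G A Bq u P
      ring
    have hα1 : α - 1 = (2 * m - 2) * (p + 1) := by rw [hα]; ring
    have hp6 : 6 ≤ p := by rw [hp']; exact hp
    have h1 : α * d ^ 2 ≤ (α * d - (p + 1)) * (d + (p + 1)) := by
      have e1 : (α * d - (p + 1)) * (d + (p + 1)) - α * d ^ 2 = (p + 1) * ((α - 1) * d - (p + 1)) := by ring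
      have h2 : p + 1 ≤ (α - 1) * d := by
        rw [hα1]
        have h3 : 1 ≤ (2 * m - 2) := by linarith
        have h4 : (p + 1) * 1 ≤ (p + 1) * ((2 * m - 2) * d) := by
          refine mul_le_mul_of_nonneg_left ?_ (by linarith)
          nlinarith
        nlinarith
      have := mul_nonneg (by linarith : 0 ≤ p + 1) (by linarith : 0 ≤ (α - 1) * d - (p + 1))
      linarith
    have hb : 0 < (2 * p + 1) * d - (p + 1) := by nlinarith
    have h2 : 2 * (α * d ^ 2) * ((2 * p + 1) * d - (p + 1)) ≤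
        2 * ((α * d - (p + 1)) * (d + (p + 1))) * ((2 * p + 1) * d - (p + 1)) :=
      mul_le_mul_of_nonneg_right (by linarith) hb.le
    have h3 : (p + 1) * c m d - 2 * (p * d) < 4 * p * d ^ 2 * (p + 1) := by
      have hc : c m d = 4 * p * d ^ 2 - 2 * (2 * m - 1) * d + 2 := by rw [hp']; unfold c; ring
      rw [hc]
      have h4 : 2 ≤ 2 * (2 * m - 1) * d := by nlinarith
      have h5 : (p + 1) * 2 ≤ (p + 1) * (2 * (2 * m - 1) * d) := mul_le_mul_of_nonneg_left h4 (by linarith)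
      have h6 : 0 < p * d := mul_pos (by linarith) (by linarith)
      nlinarith
    have h4 : (p + 1) ^ 2 * ((p + 1) * c m d - 2 * (p * d)) ≤ (p + 1) ^ 2 * (4 * p * d ^ 2 * (p + 1)) :=
      mul_le_mul_of_nonneg_left h3.le (by positivity)
    have hαpos : 0 < α := by
      have : 0 < (2 * m - 2) * (p + 1) := mul_pos (by linarith) (by linarith)
      linarith
    have h5 : α * ((2 * p + 1) * m ^ 3 - 2 * (p + 1)) ≤ α * ((2 * p + 1) * (2 * d) - 2 * (p + 1)) := by
      refine mul_le_mul_of_nonneg_left ?_ hαpos.le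
      have := mul_le_mul_of_nonneg_left hdm (by linarith : 0 ≤ 2 * p + 1)
      linarith
    have h6 : 4 * p * (p + 1) ^ 3 < α * ((2 * p + 1) * m ^ 3 - 2 * (p + 1)) := by
      rw [← sub_pos, hα, hp', ht]
      ring_nf
      positivity
    have h7 : 0 < d ^ 2 * (α * ((2 * p + 1) * (2 * d) - 2 * (p + 1)) - 4 * p * (p + 1) ^ 3) :=
      mul_pos (by positivity) (by linarith)
    rw [e]
    nlinarith
  · have e : 2 * u m d * (d ^ 2 - 1) - c m d = 2 * d ^ 2 * ((2 * m - 1) * d - 1 - 2 * m * (m - 1)) := by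
      unfold u c
      ring
    have h1 : 0 < (2 * m - 1) * d - 1 - 2 * m * (m - 1) := by
      have h2 : (2 * m - 1) * m ^ 3 ≤ (2 * m - 1) * (2 * d) := mul_le_mul_of_nonneg_left hdm (by linarith)
      have h3 : 0 < (2 * m - 1) * m ^ 3 - 2 - 4 * m * (m - 1) := by
        rw [ht]
        ring_nf
        positivity
      nlinarith
    have h2 : 0 < 2 * d ^ 2 * ((2 * m - 1) * d - 1 - 2 * m * (m - 1)) := by positivity
    linarith

end QS3D
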