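import Pool.Agent.Lib.MP_72d5fb_co.Defs

/-!
# MP_72d5fb_co: the kernel computation, definitions and soundness of the elementary pieces

The functions are written with recursors, raw operations `Nat.mul`, `Nat.sub`, ... and raw
literals, so that the kernel evaluates them fast.
-/

namespace QS3D

namespace Chk

/-- Loop: all `t` in `1..k` satisfy `p`. -/
def allUpTo (p : ℕ → Bool) (k : ℕ) : Bool :=
  Nat.rec (motive := fun _ => Bool) true
    (fun t ih => Bool.rec (motive := fun _ => Bool) false ih (p (Nat.succ t))) k

/-- Force the evaluation of `x`. -/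
def forceB (x : ℕ) (f : ℕ → Bool) : Bool :=
  Nat.rec (motive := fun _ => Bool) (f 0) (fun n _ => f (Nat.succ n)) x

/-- Force the evaluation of `x`. -/
def forceN (x : ℕ) (f : ℕ → ℕ) : ℕ :=
  Nat.rec (motive := fun _ => ℕ) (f 0) (fun n _ => f (Nat.succ n)) x

/-- Integer square root of a number below `4 ^ k`. -/
def root (k : ℕ) : ℕ → ℕ :=
  Nat.rec (motive := fun _ => ℕ → ℕ) (fun _ => nat_lit 0)
    (fun _ ih x => forceN (Nat.mul (nat_lit 2) (ih (Nat.div x (nat_lit 4)))) fun r =>
      Bool.rec (motive := fun _ => ℕ) r (Nat.succ r)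
        (Nat.ble (Nat.mul (Nat.succ r) (Nat.succ r)) x)) k

theorem allUpTo_spec {p : ℕ → Bool} {k : ℕ} (h : allUpTo p k = true) :
    ∀ t, 1 ≤ t → t ≤ k → p t = true := by
  induction k with
  | zero => intro t h1 h2; omega
  | succ k ih =>
    have h' : (Bool.rec (motive := fun _ => Bool) false (allUpTo p k) (p (Nat.succ k))) = true := h
    intro t h1 h2
    cases hp : p (Nat.succ k) with
    | false => rw [hp] at h'; exact absurd h' (by simp)
    | true =>
      rw [hp] at h'
      have h'' : allUpTo p k = true := h'
      rcases Nat.lt_or_ge t (k + 1) with h3 | h3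
      · exact ih h'' t h1 (by omega)
      · have : t = k + 1 := by omega
        rw [this]; exact hp

theorem forceB_eq (x : ℕ) (f : ℕ → Bool) : forceB x f = f x := by
  cases x <;> rfl

theorem forceN_eq (x : ℕ) (f : ℕ → ℕ) : forceN x f = f x := by
  cases x <;> rfl

theorem root_succ (k x : ℕ) : root (k + 1) x =
    if (2 * root k (x / 4) + 1) * (2 * root k (x / 4) + 1) ≤ x
        then 2 * root k (x / 4) + 1 else 2 * root k (x / 4) := by
  show forceN (2 * root k (x / 4)) (fun r =>
      Bool.rec (motive := fun _ => ℕ) r (Nat.succ r)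
        (Nat.ble ((r + 1) * (r + 1)) x)) = _
  rw [forceN_eq]
  generalize 2 * root k (x / 4) = r
  by_cases hb : (r + 1) * (r + 1) ≤ x
  · have : Nat.ble ((r + 1) * (r + 1)) x = true := Nat.ble_eq.mpr hb
    rw [if_pos hb, this]
  · have : Nat.ble ((r + 1) * (r + 1)) x = false := by
      rw [← Bool.not_eq_true, Nat.ble_eq]; exact hb
    rw [if_neg hb, this]

theorem root_spec : ∀ (k x : ℕ), x < 4 ^ k →
    root k x * root k x ≤ x ∧ x < (root k x + 1) * (root k x + 1)
  | 0, x, h => by
    have : x = 0 := by simpa using h
    subst this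
    exact ⟨le_refl 0, by show 0 < (0 + 1) * (0 + 1); norm_num⟩
  | k + 1, x, h => by
    have h4 : x / 4 < 4 ^ k := by
      rw [Nat.div_lt_iff_lt_mul (by norm_num)]
      rw [pow_succ] at h
      exact h
    obtain ⟨h1, h2⟩ := root_spec k (x / 4) h4
    have hr := root_succ k x
    generalize root k (x / 4) = r at h1 h2 hr
    have h3 : 4 * (x / 4) ≤ x := Nat.mul_div_le x 4
    have h5 : x < 4 * (x / 4) + 4 := by omega
    rw [hr]
    by_cases hb : (2 * r + 1) * (2 * r + 1) ≤ x
    · rw [if_pos hb]
      refine ⟨hb, ?_⟩
      nlinarith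
    · rw [if_neg hb]
      refine ⟨?_, by omega⟩
      nlinarith

theorem root_sq (k s : ℕ) (h : s * s < 4 ^ k) : root k (s * s) = s := by
  obtain ⟨h1, h2⟩ := root_spec k (s * s) h
  have a : root k (s * s) ≤ s := by
    by_contra hc
    have : s + 1 ≤ root k (s * s) := by omega
    nlinarith
  have b : s < root k (s * s) + 1 := by
    by_contra hc
    have : root k (s * s) + 1 ≤ s := by omega
    nlinarith
  omega

/-- Second part of the test `rej`, `s` the square root. -/
def rejS (m d V T s : ℕ) : Bool :=
  !(Nat.beq (s * s) (V * V + 2 * T - 2 * ((2 * m - 1) * d - 1) * V)) ||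
  (!(Nat.ble s V) || (!(Nat.beq ((V - s) % 2) 0) ||
  (!(Nat.beq ((m * (m - 1) * d * ((V + 2 - s) / 2 - 1)) % T) 0) ||
   Nat.ble ((V + 2 - s) / 2) (m * d))))

/-- The test: `true` means that there are no parameters with these `m, d, V` and `Th = T`, and
`2 k ≤ V + 2`. -/
def rej (m d V T : ℕ) : Bool :=
  Nat.beq T 0 || (!(Nat.beq ((m * (m - 1) * d * V) % T) 0) ||
  (!(Nat.ble (2 * ((2 * m - 1) * d - 1) * V) (V * V + 2 * T)) ||
   rejS m d V T (root 30 (V * V + 2 * T - 2 * ((2 * m - 1) * d - 1) * V))))

/-- The test with the two exceptions. -/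
def rejE (m d V T : ℕ) : Bool :=
  rej m d V T || (Nat.beq m 3 && (Nat.beq d 2 && (Nat.beq V 20 || Nat.beq V 21)))

/-- One value of `n` (after the divisibility filter). -/
def chkN (m P d c n : ℕ) : Bool :=
  forceB (Nat.mul n (Nat.sub (Nat.mul n c) (Nat.mul (nat_lit 2) P))) fun N =>
  forceB (Nat.mul (Nat.sub (Nat.mul n (Nat.succ d)) P) (Nat.add (Nat.mul n (Nat.pred d)) P)) fun Q =>
  Bool.rec (motive := fun _ => Bool) true
    (forceB (Nat.div N Q) fun V => rejE m d V (Nat.div (Nat.mul P V) n))
    (Nat.beq (Nat.mod N Q) (nat_lit 0))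

/-- The largest `j` (`n = m (m-1) + j`) that must be tested (nothing has to be proved about it). -/
def jmax (m p2 d dd : ℕ) : ℕ :=
  Bool.rec (motive := fun _ => ℕ)
    (forceN (Nat.add (Nat.mul m (Nat.add (Nat.mul (nat_lit 4) d) m)) (Nat.mul (nat_lit 8) d))
      fun e =>
      forceN (Nat.div (Nat.mul p2 e) (Nat.sub (Nat.mul (nat_lit 8) dd) e)) fun J =>
        Bool.rec (motive := fun _ => ℕ) J (Nat.pred p2) (Nat.ble p2 J))
    (Nat.pred p2)
    (Nat.ble (Nat.mul (nat_lit 2) d) (Nat.mul (nat_lit 3) m))

/-- `G m d n > 0` and `c < 2 u (d^2 - 1)`, in natural numbers. -/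
def gpos (d dd P u c n : ℕ) : Bool :=
  forceB (Nat.mul (Nat.sub (Nat.mul n (Nat.succ d)) P) (Nat.add (Nat.mul n (Nat.pred d)) P)) fun Q =>
  Bool.rec (motive := fun _ => Bool) false
    (Nat.ble (Nat.succ (Nat.add (Nat.mul (Nat.mul n n) (Nat.mul n c))
        (Nat.mul (Nat.mul (nat_lit 2) P) Q)))
      (Nat.add (Nat.mul (Nat.mul (nat_lit 2) (Nat.mul u n)) Q)
        (Nat.mul (Nat.mul n n) (Nat.mul (nat_lit 2) P))))
    (Nat.ble (Nat.succ (Nat.add c (Nat.mul (nat_lit 2) u))) (Nat.mul (Nat.mul (nat_lit 2) u) dd))

/-- One value of `d`, first region; `m1 = 2m - 1`, `p2 = m (m-1)`. -/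
def chkD1 (m m1 p2 d : ℕ) : Bool :=
  forceB (Nat.mul p2 d) fun P =>
  forceB (Nat.mul d d) fun dd =>
  forceB (Nat.mul (Nat.mul (nat_lit 4) p2) dd) fun q =>
  forceB (Nat.sub (Nat.add q (nat_lit 2)) (Nat.mul (Nat.mul (nat_lit 2) m1) d)) fun c =>
  forceB (Nat.mul (Nat.mul P P) (Nat.sub q (Nat.mul (Nat.mul (nat_lit 4) m) d))) fun N0 =>
  forceB (jmax m p2 d dd) fun J =>
  Bool.rec (motive := fun _ => Bool) false
    (allUpTo (fun j => Bool.rec (motive := fun _ => Bool) true
      (forceB (Nat.add p2 j) (fun n => chkN m P d c n))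
      (Nat.beq (Nat.mod N0 (Nat.add p2 (Nat.mul j (Nat.succ d)))) (nat_lit 0))) J)
    (Bool.rec (motive := fun _ => Bool)
      (gpos d dd P (Nat.pred (Nat.mul m1 d)) c (Nat.succ (Nat.add p2 J))) true
      (Nat.ble (Nat.pred p2) J))

/-- First region: all `d` with `2 ≤ d`, `2 d < m^3`. -/
def chk1 (m : ℕ) : Bool :=
  forceB (2 * m - 1) fun m1 =>
  forceB (m * (m - 1)) fun p2 =>
  allUpTo (fun i => forceB (Nat.succ i) (fun d => chkD1 m m1 p2 d)) ((m * m * m - 1) / 2 - 1)

/-- Bit mask filter. -/
def bit (mask q D : ℕ) : Bool :=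
  Nat.beq (Nat.land (Nat.shiftRight mask (Nat.mod D q)) (nat_lit 1)) (nat_lit 0)

theorem bit_sq (mask q D t : ℕ) (hq : 0 < q) (h : D = t * t)
    (hm : ∀ r < q, bit mask q (r * r) = false) : bit mask q D = false := by
  have h2 := hm (t % q) (Nat.mod_lt _ hq)
  have h1 : Nat.mod D q = Nat.mod ((t % q) * (t % q)) q := by
    show D % q = (t % q) * (t % q) % q
    rw [h, Nat.mul_mod]
  unfold bit at h2 ⊢
  rw [h1]
  exact h2

/-- Check of a bit mask. -/
def maskOk (mask q : ℕ) : Bool :=
  allUpTo (fun r => Nat.beq (Nat.land (Nat.shiftRight mask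
    (Nat.mod (Nat.mul (Nat.pred r) (Nat.pred r)) q)) (nat_lit 1)) (nat_lit 1)) q

theorem maskOk_spec (mask q : ℕ) (h : maskOk mask q = true) :
    ∀ r < q, bit mask q (r * r) = false := by
  intro r hr
  have h1 := allUpTo_spec h (r + 1) (by omega) (by omega)
  have h2 : Nat.land (Nat.shiftRight mask (Nat.mod (r * r) q)) (nat_lit 1) = 1 :=
    Nat.eq_of_beq_eq_true h1
  unfold bit
  rw [h2]
  rfl

/-- Both signs of the square root `t`. -/
def chkT (m d V D t : ℕ) : Bool :=
  !(Nat.beq (t * t) D) || (rejE m d V (V + 1 + t) && rejE m d V (V + 1 - t))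

/-- One value of `V`, second region; `u = (2m-1)d - 1`, `uu = u^2`, `dd = d^2`. -/
def chkV (m d dd uu V : ℕ) : Bool :=
  forceB (Nat.sub (Nat.mul (Nat.succ V) (Nat.succ (Nat.mul V dd))) (Nat.mul V uu)) fun D =>
  Bool.rec (motive := fun _ => Bool)
    (Bool.rec (motive := fun _ => Bool)
      (Bool.rec (motive := fun _ => Bool)
        (forceB (root (nat_lit 25) D) fun t => chkT m d V D t)
        true (Nat.beq (Nat.land (Nat.shiftRight (nat_lit 29484083201333413172238761544355005573529228352985035443634330863289885497116176127206733742514276085031194379114524580649500813930446267296885182266921737576532476435)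
            (Nat.mod D (nat_lit 576))) (nat_lit 1)) (nat_lit 0)))
      true (Nat.beq (Nat.land (Nat.shiftRight (nat_lit 47936127571641130742787422913048301619885644376659903859050147304860895779298227433539806072611134927836847985125070848684107811103476708671999250598512719321366253390517195853137844075498242466414559028303421085639213864326849201909439404703344335293126662848934750105998559025990788160714487127842871470969444789525245756340725655985640994024587792300822938418897697414219342221298252397193715095433290959628831892410816543843650812884615804481765223299971865291050675216958685715)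
            (Nat.mod D (nat_lit 1615))) (nat_lit 1)) (nat_lit 0)))
    true (Nat.beq (Nat.land (Nat.shiftRight (nat_lit 23707390175973308128016241232128938227070920245704778930914977082762241650713458465746853980993234561049439236999502960535577894669418171488479697048329964884707696122392211835348865585746906259574284770614433930845236601277533164783420074584183568871394368755799224903206949394925771276634638336531)
            (Nat.mod D (nat_lit 1001))) (nat_lit 1)) (nat_lit 0))

theorem mask576 : maskOk 29484083201333413172238761544355005573529228352985035443634330863289885497116176127206733742514276085031194379114524580649500813930446267296885182266921737576532476435 576 = true := by decide +kernel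

theorem mask1615 : maskOk 47936127571641130742787422913048301619885644376659903859050147304860895779298227433539806072611134927836847985125070848684107811103476708671999250598512719321366253390517195853137844075498242466414559028303421085639213864326849201909439404703344335293126662848934750105998559025990788160714487127842871470969444789525245756340725655985640994024587792300822938418897697414219342221298252397193715095433290959628831892410816543843650812884615804481765223299971865291050675216958685715 1615 = true := by decide +kernel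

theorem mask1001 : maskOk 23707390175973308128016241232128938227070920245704778930914977082762241650713458465746853980993234561049439236999502960535577894669418171488479697048329964884707696122392211835348865585746906259574284770614433930845236601277533164783420074584183568871394368755799224903206949394925771276634638336531 1001 = true := by decide +kernel

/-- One value of `d`, second region. -/
def chkD2 (m d : ℕ) : Bool :=
  forceB (4 * (m * (m - 1)) * (d * d) + 2 - 2 * (2 * m - 1) * d) fun c =>
  forceB (d * d) fun dd =>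
  forceB (((2 * m - 1) * d - 1) * ((2 * m - 1) * d - 1)) fun uu =>
  forceB (max ((c - d + dd - 1) / dd) ((4 * m - 3) * d - 2) - 1) fun lo =>
  forceB (4 * c / (3 * dd) - lo) fun hl =>
    allUpTo (fun j => forceB (Nat.add lo j) (fun V => chkV m d dd uu V)) hl

/-- Second region: all `d` with `2 ≤ d`, `3 ((4m-3) d - 2) ≤ 16 m (m-1)`. -/
def chk2 (m : ℕ) : Bool :=
  allUpTo (fun i => forceB (Nat.succ i) (fun d => chkD2 m d))
    ((16 * (m * (m - 1)) + 6) / (3 * (4 * m - 3)) - 1)

/-- The whole check for one `m`. -/
def chk (m : ℕ) : Bool := chk1 m && chk2 m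

end Chk

end QS3D
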