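import Pool.Agent.Lib.MP_72d5fb_co.Tdv

/-!
# MP_72d5fb_co: `v - 2` and `k - 1` are not coprime
-/

set_option autoImplicit false

namespace QS3D

/-- Pure arithmetic: the coprime case is impossible. -/
theorem cop_arith {m d V n' c th uu : ℤ} (hm : 3 ≤ m) (hd : 2 ≤ d) (hV : 2 * m * d ≤ V)
    (hn : 1 ≤ n') (hu : uu = (2 * m - 1) * d - 1) (hth : th = 2 + c * V)
    (hA : n' * th < n' * V * (d + 1)) (ha2 : 0 ≤ n' * V * (V - 2 * uu) + 2 * (n' * th))
    (hJ : uu ^ 2 = (V + 1) * (d ^ 2 - 1) + th * (2 - c))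
    (hT : th * ((c - 1) ^ 2 + 4 * d * c * n' - d ^ 2) = 2 * (uu * c - (d ^ 2 - 1)))
    (hT0 : 0 ≤ (c - 1) ^ 2 + 4 * d * c * n' - d ^ 2) (hthpos : 0 < th) : False := by
  have hmd : 6 * d ≤ V := by nlinarith
  have hV12 : 12 ≤ V := by linarith
  have hu5 : 5 * d - 1 ≤ uu := by rw [hu]; nlinarith
  -- 0 ≤ c ≤ d
  have hc0 : 0 ≤ c := by
    by_contra hcon
    have h1 : c ≤ -1 := by omega
    have : c * V ≤ -1 * V := mul_le_mul_of_nonneg_right h1 (by linarith)
    rw [hth] at hthpos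
    linarith
  have hcd : c ≤ d := by
    have h1 : n' * th < n' * (V * (d + 1)) := by linarith [hA, mul_assoc n' V (d + 1)]
    have h2 : th < V * (d + 1) := lt_of_mul_lt_mul_left h1 (by linarith)
    rw [hth] at h2
    by_contra hcon
    have h3 : d + 1 ≤ c := by omega
    have : (d + 1) * V ≤ c * V := mul_le_mul_of_nonneg_right h3 (by linarith)
    nlinarith
  have h2u : 2 * uu ≤ V + 2 * c := by
    have h1 : 0 ≤ n' * (V * (V - 2 * uu) + 2 * th) := by
      have : n' * (V * (V - 2 * uu) + 2 * th) = n' * V * (V - 2 * uu) + 2 * (n' * th) := by ring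
      rw [this]; exact ha2
    have h2 : 0 ≤ V * (V - 2 * uu) + 2 * th := by
      by_contra hcon
      have : n' * (V * (V - 2 * uu) + 2 * th) < 0 :=
        mul_neg_of_pos_of_neg (by linarith) (by linarith)
      linarith
    by_contra hcon
    have h3 : V - 2 * uu + 2 * c ≤ -1 := by omega
    have h4 : V * (V - 2 * uu + 2 * c) ≤ V * (-1) := mul_le_mul_of_nonneg_left h3 (by linarith)
    rw [hth] at h2
    have h5 : V * (V - 2 * uu) + 2 * (2 + c * V) = V * (V - 2 * uu + 2 * c) + 4 := by ring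
    linarith
  rcases eq_or_lt_of_le hc0 with hc | hc
  · -- c = 0
    rw [← hc] at hT0
    have : (0 - 1 : ℤ) ^ 2 + 4 * d * 0 * n' - d ^ 2 = 1 - d ^ 2 := by ring
    nlinarith
  have hc1 : 1 ≤ c := by omega
  rcases eq_or_lt_of_le hT0 with hT1 | hT1
  · -- T = 0
    rw [← hT1, mul_zero] at hT
    have huc : uu * c = d ^ 2 - 1 := by linarith
    have hprod : (uu - th) * (uu + 2 - c) = 0 := by
      linear_combination hJ - (V + 1) * huc - uu * hth
    rcases mul_eq_zero.1 hprod with h | h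
    · have h1 : uu = 2 + c * V := by linarith
      have h2 : 1 * V ≤ c * V := mul_le_mul_of_nonneg_right hc1 (by linarith)
      linarith
    · linarith
  · -- T ≥ 1
    have hT2 : 1 ≤ (c - 1) ^ 2 + 4 * d * c * n' - d ^ 2 := by omega
    have h1 : th * 1 ≤ 2 * (uu * c - (d ^ 2 - 1)) := by
      rw [← hT]; exact mul_le_mul_of_nonneg_left hT2 hthpos.le
    have h2 : c * (2 * uu) ≤ c * (V + 2 * c) := mul_le_mul_of_nonneg_left h2u hc0
    have h3 : d ^ 2 ≤ c ^ 2 := by
      rw [hth] at h1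
      nlinarith
    have hcd' : c = d := by
      apply le_antisymm hcd
      exact abs_le_of_sq_le_sq' h3 hc0 |>.2
    subst hcd'
    have h4 : 4 * c ^ 2 - 2 * c + 1 ≤ (c - 1) ^ 2 + 4 * c * c * n' - c ^ 2 := by
      have : 4 * c * c * 1 ≤ 4 * c * c * n' := mul_le_mul_of_nonneg_left hn (by positivity)
      nlinarith
    have h5 : th * (4 * c ^ 2 - 2 * c + 1) ≤ 2 * (uu * c - (c ^ 2 - 1)) := by
      rw [← hT]; exact mul_le_mul_of_nonneg_left h4 hthpos.le
    have h6 : th * 2 ≤ th * (4 * c ^ 2 - 2 * c + 1) :=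
      mul_le_mul_of_nonneg_left (by nlinarith) hthpos.le
    rw [hth] at h5 h6
    nlinarith

/-- If the parameters satisfy `2 d n ≤ k (v - k)` (Ray-Chaudhuri and Wilson), then `v - 2` and
`k - 1` are not coprime. -/
theorem not_coprime {m d n w V k : ℤ} (hF : Feas m d n w V k)
    (hRW : 2 * d * n ≤ k * (V + 2 - k)) : ¬ IsCoprime V (k - 1) := by
  intro hc
  obtain ⟨b0, b1, b2, b3, b4, b5, b6, b7⟩ := bas m d n w V k hF
  have hm := small m d n w V k hF b0 b1
  have hApos := b7 hm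
  have hd1 : 1 ≤ d := hF.hd
  have hn1 : 1 ≤ n := hF.hn
  have hVpos : 0 < V := by nlinarith
  obtain ⟨hd2, -⟩ := dn m d n V hm hd1 hn1 hVpos hApos b1 b3
  have hc2 : IsCoprime V ((k - 1) ^ 2) := hc.pow_right
  obtain ⟨c, hc1, hT⟩ := T_int (g := 1) (S := V) (a := (k - 1) ^ 2) hF one_ne_zero hVpos.ne'
    (by ring) (by ring) hc2
  -- V ∣ n
  have hVn : V ∣ (k - 1) * n := ⟨w, by linarith [hF.e2]⟩
  obtain ⟨n', hn'⟩ := hc.dvd_of_dvd_mul_left hVn
  have hn'1 : 1 ≤ n' := by
    by_contra hcon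
    have : n' ≤ 0 := by omega
    have : V * n' ≤ V * 0 := mul_le_mul_of_nonneg_left this hVpos.le
    linarith
  have hth : Th m d V k = 2 + c * V := by linarith
  have hnth : n' * Th m d V k = P m d := by
    apply mul_left_cancel₀ hVpos.ne'
    have := hF.e1
    rw [hn'] at this
    linarith
  have hPn : P m d * 1 - n * c = 2 * n' := by
    rw [← hnth, hn', hth]; ring
  have hPpos : 0 < P m d := by
    unfold P
    have : 0 < m * (m - 1) := by nlinarith
    exact mul_pos this (by linarith)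
  have hthpos : 0 < Th m d V k := by
    have h1 : 0 < n' * Th m d V k := by rw [hnth]; exact hPpos
    exact (pos_iff_pos_of_mul_pos h1).mp (by linarith)
  have hJ : u m d ^ 2 = (V + 1) * (d ^ 2 - 1) + Th m d V k * (2 - c) := by
    have e3 := hF.e3
    apply mul_left_cancel₀ hVpos.ne'
    have h1 : Th m d V k * (Th m d V k - 2) = V * (Th m d V k * c) := by rw [hc1]; ring
    linear_combination -e3 - h1
  have hTv : (c - 1) ^ 2 + 4 * d * c * n' - d ^ 2
      = (c - 1) ^ 2 + 2 * d * c * (P m d * 1 - n * c) - 1 ^ 2 * d ^ 2 := by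
    rw [hPn]; ring
  have hT0 : 0 ≤ (c - 1) ^ 2 + 4 * d * c * n' - d ^ 2 := by
    rw [hTv]
    have h1 : 0 ≤ V ^ 2 * ((c - 1) ^ 2 + 2 * d * c * (P m d * 1 - n * c) - 1 ^ 2 * d ^ 2) := by
      rw [hT]; linarith
    exact nonneg_of_mul_nonneg_right h1 (by positivity)
  have hTh : Th m d V k * ((c - 1) ^ 2 + 4 * d * c * n' - d ^ 2)
      = 2 * (u m d * c - (d ^ 2 - 1)) := by
    have hP : 4 * d * P m d = (u m d + 1) ^ 2 - d ^ 2 := by unfold P u; ring
    rw [← hnth] at hP
    linear_combination c * hP + c * hJ - (d ^ 2 - 1) * hth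
  refine cop_arith (th := Th m d V k) (uu := u m d) hm hd2 b0 hn'1 rfl hth ?_ ?_ hJ hTh hT0 hthpos
  · have h1 : 0 < n * (d + 1) - P m d := hApos
    rw [hn'] at h1
    rw [hnth]
    linarith [mul_comm V n']
  · rw [hnth]
    have := b2
    rw [hn'] at this
    linarith [mul_comm V n', mul_assoc n' V (V - 2 * u m d)]

end QS3D
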