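import Mathlib

/-!
# Quasi-symmetric 3-designs (MP_72d5fb_co): definitions

`B : ι → Finset α` is the list of blocks of a `3-(v,k,l)` design, `v = |α|`, `b = |ι|`
(repeated blocks are allowed).
-/

namespace QS3D

open Finset

/-- `B` lists the blocks of a `3-(v,k,l)` design on the point set `α`, `v = |α|`. -/
structure IsDesign3 {α ι : Type} [Fintype α] [DecidableEq α] [Fintype ι]
    (B : ι → Finset α) (k l : ℕ) : Prop where
  three_le : 3 ≤ k
  lt_card : k < Fintype.card α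
  one_le : 1 ≤ l
  card_block : ∀ i, (B i).card = k
  count : ∀ T : Finset α, T.card = 3 → (univ.filter fun i => T ⊆ B i).card = l

/-- The blocks have exactly the two intersection numbers `x < y`. -/
def IsQS {α ι : Type} [DecidableEq α] (B : ι → Finset α) (x y : ℕ) : Prop :=
  x < y ∧ {c : ℕ | ∃ i j, i ≠ j ∧ (B i ∩ B j).card = c} = {x, y}

/-- The incidence vector product `N z`: `(N z) p = ∑_{i : p ∈ B i} z i`. -/
def inc {α ι R : Type} [DecidableEq α] [Fintype ι] [AddCommMonoid R]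
    (B : ι → Finset α) (z : ι → R) (p : α) : R :=
  ∑ i ∈ univ.filter (fun i => p ∈ B i), z i

/-- Adjacency matrix of the block graph: two blocks are adjacent when they meet in `y` points. -/
def adj {α ι : Type} [DecidableEq α] [DecidableEq ι] (R : Type) [Zero R] [One R]
    (B : ι → Finset α) (y : ℕ) : Matrix ι ι R :=
  fun i j => if i ≠ j ∧ (B i ∩ B j).card = y then 1 else 0

/-! ### The arithmetic of the parameters.  `V = v - 2`, `d = y - x`, `k - x = m d`,
`n = (r - lambda_2)/d`, `w = (lambda_2 - l)/d`, all integers. -/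

/-- `P = m (m-1) d`. -/
def P (m d : ℤ) : ℤ := m * (m - 1) * d

/-- `u = (2m-1) d - 1`. -/
def u (m d : ℤ) : ℤ := (2 * m - 1) * d - 1

/-- `c = u^2 - d^2 + 1 = 4 m (m-1) d^2 - 2 (2m-1) d + 2`. -/
def c (m d : ℤ) : ℤ := 4 * m * (m - 1) * d ^ 2 - 2 * (2 * m - 1) * d + 2

/-- `A = n (d+1) - P`. -/
def A (m d n : ℤ) : ℤ := n * (d + 1) - P m d

/-- `Bq = n (d-1) + P`. -/
def Bq (m d n : ℤ) : ℤ := n * (d - 1) + P m d

/-- `Th = V (U+1) - 2 k (V+2-k) + 2`, `U = (2m-1) d`. -/
def Th (m d V k : ℤ) : ℤ := V * ((2 * m - 1) * d + 1) - 2 * k * (V + 2 - k) + 2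

/-- `G = 2 (u n - P) A Bq - n^2 (n c - 2 P)`. -/
def G (m d n : ℤ) : ℤ :=
  2 * (u m d * n - P m d) * (A m d n * Bq m d n) - n ^ 2 * (n * c m d - 2 * P m d)

/-- The arithmetic conditions satisfied by the parameters of a quasi-symmetric 3-design with
`0 < x` and `0 < v - 2k + x`. -/
structure Feas (m d n w V k : ℤ) : Prop where
  hk : 3 ≤ k
  hd : 1 ≤ d
  hm : 1 ≤ m
  hn : 1 ≤ n
  hw : 1 ≤ w
  hx : m * d + 1 ≤ k
  hx' : m * d + 1 ≤ V + 2 - k
  e1 : n * Th m d V k = P m d * V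
  e2 : w * V = n * (k - 1)
  e3 : V * ((V + 1) * (d ^ 2 - 1) + 2 * Th m d V k - u m d ^ 2) =
        Th m d V k * (Th m d V k - 2)

end QS3D
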