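import Pool.Agent.Lib.MP_72d5fb_co.Spec

/-!
# MP_72d5fb_co, module Der
-/

set_option autoImplicit false

namespace QS3D

open Finset

namespace DerX

/-- counting in a subtype -/
theorem csub {β : Type} [Fintype β] (Q P : β → Prop) [DecidablePred Q] [DecidablePred P] :
    ((univ : Finset {b // Q b}).filter fun b => P b.1).card =
      ((univ : Finset β).filter fun b => Q b ∧ P b).card := by
  rw [← Finset.card_map (Function.Embedding.subtype Q)]
  congr 1
  ext b
  simp only [Finset.mem_map, Finset.mem_filter, Finset.mem_univ, true_and,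
    Function.Embedding.coe_subtype]
  constructor
  · rintro ⟨⟨c, hc⟩, h1, rfl⟩
    exact ⟨hc, h1⟩
  · rintro ⟨h1, h2⟩
    exact ⟨⟨b, h1⟩, h2, rfl⟩

end DerX

theorem der : DerStmt := by
  intro hI α ι _ _ _ _ B k l lam x y hD hx hxy hl hlam hint
  have h3 := hD.three_le
  have hkv := hD.lt_card
  obtain ⟨p⟩ : Nonempty α := Fintype.card_pos_iff.1 (by omega)
  let B' : {i : ι // p ∈ B i} → Finset {q : α // q ≠ p} := fun i =>
    univ.filter fun q => q.1 ∈ B i.1
  have hcard : ∀ F : Finset α, p ∈ F →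
      ((univ : Finset {q : α // q ≠ p}).filter fun q => q.1 ∈ F).card = F.card - 1 := by
    intro F hF
    have e : ((univ : Finset α).filter fun q => q ≠ p ∧ q ∈ F) = F.erase p := by
      ext q
      simp only [Finset.mem_filter, Finset.mem_univ, true_and, Finset.mem_erase]
    rw [DerX.csub (fun q => q ≠ p) (fun q => q ∈ F), ← Finset.card_erase_of_mem hF, e]
  have hv' : Fintype.card {q : α // q ≠ p} = Fintype.card α - 1 := by
    rw [Fintype.card_subtype, Finset.filter_ne', Finset.card_erase_of_mem (Finset.mem_univ p),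
      Finset.card_univ]
  have hmain := hI (α := {q : α // q ≠ p}) (ι := {i : ι // p ∈ B i}) B' (k - 1) lam l (x - 1)
    (y - 1) (by omega) (by omega) hl ?_ ?_ ?_ ?_
  · have e1 : (((y - 1 : ℕ) : ℤ) - ((x - 1 : ℕ) : ℤ)) = (y : ℤ) - x := by omega
    have e2 : (lam : ℤ) - l - (((k - 1 : ℕ) : ℤ) - ((x - 1 : ℕ) : ℤ)) =
        (lam : ℤ) - l - (k - x) := by omega
    rw [e1, e2] at hmain
    exact hmain
  · intro i
    rw [← hD.card_block i.1]
    exact hcard (B i.1) i.2
  · intro q
    rw [← hlam p q.1 (Ne.symm q.2), ← DerX.csub (fun i => p ∈ B i) (fun i => q.1 ∈ B i)]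
    have e : ((univ : Finset {i : ι // p ∈ B i}).filter fun i => q ∈ B' i) =
        (univ : Finset {i : ι // p ∈ B i}).filter fun i => q.1 ∈ B i.1 := by
      ext i
      simp only [Finset.mem_filter, Finset.mem_univ, true_and, B']
    rw [e]
  · intro q s hqs
    have hqs' : q.1 ≠ s.1 := fun h => hqs (Subtype.ext h)
    have h4 := hD.count {p, q.1, s.1}
      (Finset.card_eq_three.2 ⟨p, q.1, s.1, Ne.symm q.2, Ne.symm s.2, hqs', rfl⟩)
    rw [← h4]
    have h5 := DerX.csub (fun i => p ∈ B i) (fun i => q.1 ∈ B i ∧ s.1 ∈ B i)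
    have h6 : ((univ : Finset ι).filter fun i => ({p, q.1, s.1} : Finset α) ⊆ B i) =
        (univ : Finset ι).filter fun i => p ∈ B i ∧ (q.1 ∈ B i ∧ s.1 ∈ B i) := by
      ext i
      simp only [Finset.mem_filter, Finset.mem_univ, true_and, Finset.insert_subset_iff,
        Finset.singleton_subset_iff]
    rw [h6, ← h5]
    have e : ((univ : Finset {i : ι // p ∈ B i}).filter fun i => q ∈ B' i ∧ s ∈ B' i) =
        (univ : Finset {i : ι // p ∈ B i}).filter fun i => q.1 ∈ B i.1 ∧ s.1 ∈ B i.1 := by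
      ext i
      simp only [Finset.mem_filter, Finset.mem_univ, true_and, B']
    rw [e]
  · intro i j hij
    have hij' : i.1 ≠ j.1 := fun h => hij (Subtype.ext h)
    have e : B' i ∩ B' j = (univ : Finset {q : α // q ≠ p}).filter
        fun q => q.1 ∈ B i.1 ∩ B j.1 := by
      ext q
      simp only [Finset.mem_inter, Finset.mem_filter, Finset.mem_univ, true_and, B']
    have h4 : (B' i ∩ B' j).card = (B i.1 ∩ B j.1).card - 1 := by
      rw [e]
      exact hcard (B i.1 ∩ B j.1) (Finset.mem_inter.2 ⟨i.2, j.2⟩)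
    rw [h4]
    rcases hint i.1 j.1 hij' with h | h
    · exact Or.inl (by rw [h])
    · exact Or.inr (by rw [h])

end QS3D
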