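import Pool.Agent.Lib.MP_72d5fb_co.Spec

/-!
# MP_72d5fb_co, module Eig
-/

set_option autoImplicit false

namespace QS3D

open Finset

theorem eig : EigStmt := by
  intro ι _ _ M μ z hz hM
  have hdet : (Matrix.scalar ι μ - M.map (Int.cast : ℤ → ℚ)).det = 0 := by
    rw [← Matrix.exists_mulVec_eq_zero_iff]
    refine ⟨z, hz, ?_⟩
    rw [Matrix.sub_mulVec, hM]
    ext i
    simp [Matrix.scalar_apply, Matrix.mulVec_diagonal]
  have hroot : Polynomial.eval μ (M.map (Int.cast : ℤ → ℚ)).charpoly = 0 := by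
    rw [Matrix.eval_charpoly]
    exact hdet
  have hmap : (M.map (Int.cast : ℤ → ℚ)).charpoly = M.charpoly.map (Int.castRingHom ℚ) :=
    Matrix.charpoly_map M (Int.castRingHom ℚ)
  have hint : IsIntegral ℤ μ := by
    refine ⟨M.charpoly, M.charpoly_monic, ?_⟩
    rw [hmap, Polynomial.eval_map] at hroot
    exact hroot
  obtain ⟨t, ht⟩ := (IsIntegrallyClosed.isIntegral_iff (R := ℤ) (K := ℚ)).1 hint
  exact ⟨t, ht.symm⟩

end QS3D
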