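import Pool.Agent.Lib.MP_72d5fb_co.Spec

/-!
# MP_72d5fb_co, module Eqs
-/

set_option autoImplicit false

namespace QS3D

open Finset

namespace EqsX

theorem c2 (n : ℕ) : (n : ℤ) * (n - 1) = 2 * (n.choose 2 : ℤ) := by
  induction n with
  | zero => simp
  | succ n ih =>
    rw [Nat.choose_succ_succ' n 1, Nat.choose_one_right]
    push_cast
    linear_combination ih

theorem c3 (n : ℕ) : (n : ℤ) * (n - 1) * (n - 2) = 6 * (n.choose 3 : ℤ) := by
  induction n with
  | zero => simp
  | succ n ih =>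
    rw [Nat.choose_succ_succ' n 2]
    push_cast
    linear_combination ih + 3 * c2 n

end EqsX

theorem eqs : EqsStmt := by
  intro ι _ _ cc i k l lam r x y hi hj h1 h2 h3
  have z1 : ∑ j, (cc j : ℤ) = k * r := by exact_mod_cast h1
  have z2 : ∑ j, ((cc j).choose 2 : ℤ) = (k.choose 2 : ℤ) * lam := by exact_mod_cast h2
  have z3 : ∑ j, ((cc j).choose 3 : ℤ) = (k.choose 3 : ℤ) * l := by exact_mod_cast h3
  have s1 : ∑ j, ((cc j : ℤ) - x) * (cc j - y) = ((k : ℤ) - x) * (k - y) := by
    rw [Finset.sum_eq_single i]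
    · rw [hi]
    · intro j _ hji
      rcases hj j hji with h | h
      · rw [h]
        ring
      · rw [h]
        ring
    · intro h
      exact absurd (Finset.mem_univ i) h
  have s2 : ∑ j, (cc j : ℤ) * ((cc j : ℤ) - x) * (cc j - y) = (k : ℤ) * ((k : ℤ) - x) * (k - y) := by
    rw [Finset.sum_eq_single i]
    · rw [hi]
    · intro j _ hji
      rcases hj j hji with h | h
      · rw [h]
        ring
      · rw [h]
        ring
    · intro h
      exact absurd (Finset.mem_univ i) h
  have q2 : ∑ j, (cc j : ℤ) ^ 2 = k * (k - 1) * lam + k * r := by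
    have e : ∀ j, (cc j : ℤ) ^ 2 = 2 * ((cc j).choose 2 : ℤ) + cc j := by
      intro j
      have := EqsX.c2 (cc j)
      linear_combination this
    simp only [e]
    rw [Finset.sum_add_distrib, ← Finset.mul_sum, z1, z2]
    linear_combination -(lam : ℤ) * EqsX.c2 k
  have q3 : ∑ j, (cc j : ℤ) ^ 3 = k * (k - 1) * (k - 2) * l + 3 * k * (k - 1) * lam + k * r := by
    have e : ∀ j, (cc j : ℤ) ^ 3 = 6 * ((cc j).choose 3 : ℤ) + 6 * ((cc j).choose 2 : ℤ) + cc j := by
      intro j
      have := EqsX.c2 (cc j)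
      have := EqsX.c3 (cc j)
      linear_combination 3 * EqsX.c2 (cc j) + EqsX.c3 (cc j)
    simp only [e]
    rw [Finset.sum_add_distrib, Finset.sum_add_distrib, ← Finset.mul_sum, ← Finset.mul_sum, z1, z2,
      z3]
    linear_combination -(l : ℤ) * EqsX.c3 k - 3 * (lam : ℤ) * EqsX.c2 k
  constructor
  · rw [← s1]
    have e : ∀ j, ((cc j : ℤ) - x) * (cc j - y) = (cc j : ℤ) ^ 2 - (x + y) * cc j + x * y := by
      intro j
      ring
    simp only [e]
    rw [Finset.sum_add_distrib, Finset.sum_sub_distrib, ← Finset.mul_sum, z1, q2, Finset.sum_const,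
      Finset.card_univ, nsmul_eq_mul]
    ring
  · rw [← s2]
    have e : ∀ j, (cc j : ℤ) * ((cc j : ℤ) - x) * (cc j - y) =
        (cc j : ℤ) ^ 3 - (x + y) * (cc j : ℤ) ^ 2 + x * y * cc j := by
      intro j
      ring
    simp only [e]
    rw [Finset.sum_add_distrib, Finset.sum_sub_distrib, ← Finset.mul_sum, ← Finset.mul_sum, z1, q2,
      q3]

end QS3D
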