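import Pool.Agent.Lib.MP_72d5fb_co.Spec

/-!
# MP_72d5fb_co, module Gram
-/

set_option autoImplicit false

namespace QS3D

open Finset

theorem gram : GramStmt := by
  intro α ι R _ _ _ _ _ B k x y hxy hB hint z i
  constructor
  · have e : ∀ j, ((B i ∩ B j).card : R) * z j =
        (if j = i then ((k : R) - x) * z j else 0) + x * z j +
          ((y : R) - x) * (adj R B y i j * z j) := by
      intro j
      by_cases hji : j = i
      · subst hji
        have h1 : adj R B y j j = 0 := by
          unfold adj
          rw [if_neg]
          exact fun h => h.1 rfl
        rw [h1, if_pos rfl, Finset.inter_self, hB]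
        ring
      · rw [if_neg hji]
        rcases hint i j (Ne.symm hji) with h | h
        · have h1 : adj R B y i j = 0 := by
            unfold adj
            rw [if_neg]
            exact fun h' => by
              have := h'.2
              omega
          rw [h1, h]
          ring
        · have h1 : adj R B y i j = 1 := by
            unfold adj
            rw [if_pos]
            exact ⟨Ne.symm hji, h⟩
          rw [h1, h]
          ring
    simp only [e]
    rw [Finset.sum_add_distrib, Finset.sum_add_distrib, ← Finset.mul_sum, ← Finset.mul_sum]
    have h2 : ∑ j, (if j = i then ((k : R) - x) * z j else 0) = ((k : R) - x) * z i := by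
      rw [Finset.sum_ite_eq' Finset.univ i]
      rw [if_pos (Finset.mem_univ i)]
    rw [h2]
    rfl
  · have e : ∀ j, ((B i ∩ B j).card : R) * z j = ∑ p ∈ B i, if p ∈ B j then z j else 0 := by
      intro j
      rw [← Finset.sum_filter, Finset.sum_const, nsmul_eq_mul]
      congr 2
    simp only [e]
    rw [Finset.sum_comm]
    refine Finset.sum_congr rfl fun p _ => ?_
    unfold inc
    rw [Finset.sum_filter]

end QS3D
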