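import Pool.Agent.Lib.MP_72d5fb_co.Spec

/-!
# MP_72d5fb_co, module IntM
-/

set_option autoImplicit false

namespace QS3D

open Finset

theorem intM : IntMStmt := by
  intro hE hG α ι _ _ _ _ B k x y z hxy hk hB hint hz0 hker
  have hsum : ∑ i, z i = 0 := by
    have h1 : ∑ p : α, inc B z p = k * ∑ i, z i := by
      have h2 : ∀ p : α, inc B z p = ∑ i, if p ∈ B i then z i else 0 := by
        intro p
        unfold inc
        rw [Finset.sum_filter]
      simp only [h2]
      rw [Finset.sum_comm, Finset.mul_sum]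
      refine Finset.sum_congr rfl fun i _ => ?_
      rw [← Finset.sum_filter, Finset.sum_const, nsmul_eq_mul]
      congr 2
      rw [← hB i]
      congr 1
      ext p
      simp
    simp only [hker, Finset.sum_const_zero] at h1
    have hk0 : (k : ℚ) ≠ 0 := by
      have : 0 < k := by omega
      exact_mod_cast this.ne'
    rcases mul_eq_zero.1 h1.symm with h | h
    · exact absurd h hk0
    · exact h
  refine ⟨hsum, ?_⟩
  have hd : (0 : ℚ) < (y : ℚ) - x := by
    have : (x : ℚ) < y := by exact_mod_cast hxy
    linarith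
  have heig : ((adj ℤ B y).map (Int.cast : ℤ → ℚ)).mulVec z =
      (-((k : ℚ) - x) / (y - x)) • z := by
    have hmap : (adj ℤ B y).map (Int.cast : ℤ → ℚ) = adj ℚ B y := by
      ext i j
      simp only [Matrix.map_apply, adj]
      split_ifs <;> simp
    rw [hmap]
    ext i
    obtain ⟨g1, g2⟩ := hG B k x y hxy hB hint z i
    rw [g1, hsum] at g2
    simp only [hker, Finset.sum_const_zero] at g2
    rw [Pi.smul_apply, smul_eq_mul]
    field_simp
    linear_combination g2
  obtain ⟨t, ht⟩ := hE (adj ℤ B y) _ z hz0 heig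
  refine ⟨-t, ?_⟩
  have h5 : -((k : ℚ) - x) = t * (y - x) := by
    rw [← ht]
    field_simp
  have h6 : (((k : ℤ) - x : ℤ) : ℚ) = ((((y : ℤ) - x) * -t : ℤ) : ℚ) := by
    push_cast
    linear_combination -h5
  exact_mod_cast h6

end QS3D
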