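import Pool.Agent.Lib.MP_72d5fb_co.Spec

/-!
# MP_72d5fb_co, module IntN
-/

set_option autoImplicit false

namespace QS3D

open Finset

namespace IntNX

theorem cnt {α ι : Type} [Fintype α] [DecidableEq α] [Fintype ι] [DecidableEq ι]
    (B : ι → Finset α) (r lam : ℕ)
    (hr : ∀ p : α, (univ.filter fun i => p ∈ B i).card = r)
    (hlam : ∀ p q : α, p ≠ q → (univ.filter fun i => p ∈ B i ∧ q ∈ B i).card = lam) (s p : α) :
    (∑ i ∈ univ.filter (fun i => s ∈ B i), if p ∈ B i then (1 : ℚ) else 0) =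
      (if p = s then ((r : ℚ) - lam) else 0) + lam := by
  rw [← Finset.sum_filter, Finset.sum_const, nsmul_eq_mul, mul_one, Finset.filter_filter]
  by_cases hps : p = s
  · subst hps
    rw [if_pos rfl]
    simp only [and_self]
    rw [hr]
    ring
  · rw [if_neg hps, hlam s p (Ne.symm hps)]
    ring

end IntNX

theorem intN : IntNStmt := by
  intro hE hG α ι _ _ _ _ B k r lam x y hxy hv hlr hB hr hlam hint
  obtain ⟨p, q, hpq⟩ := Fintype.one_lt_card_iff.1 (by omega : 1 < Fintype.card α)
  let z : ι → ℚ := fun i => (if p ∈ B i then 1 else 0) - (if q ∈ B i then 1 else 0)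
  have hrl : (0 : ℚ) < (r : ℚ) - lam := by
    have : (lam : ℚ) < r := by exact_mod_cast hlr
    linarith
  have hinc : ∀ s, inc B z s = ((r : ℚ) - lam) * ((if p = s then 1 else 0) - (if q = s then 1 else 0)) := by
    intro s
    unfold inc
    show ∑ i ∈ univ.filter (fun i => s ∈ B i),
      ((if p ∈ B i then (1 : ℚ) else 0) - (if q ∈ B i then 1 else 0)) = _
    rw [Finset.sum_sub_distrib, IntNX.cnt B r lam hr hlam s p, IntNX.cnt B r lam hr hlam s q]
    split_ifs <;> ring
  have hz0 : z ≠ 0 := by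
    intro h
    have h1 := hinc p
    rw [if_pos rfl, if_neg (Ne.symm hpq)] at h1
    rw [h] at h1
    unfold inc at h1
    simp only [Pi.zero_apply, Finset.sum_const_zero] at h1
    linarith
  have hsum : ∑ i, z i = 0 := by
    have h1 : ∀ p : α, ∑ i, (if p ∈ B i then (1 : ℚ) else 0) = r := by
      intro p
      rw [← Finset.sum_filter, Finset.sum_const, nsmul_eq_mul, mul_one, hr]
    show ∑ i, ((if p ∈ B i then (1 : ℚ) else 0) - (if q ∈ B i then 1 else 0)) = 0
    rw [Finset.sum_sub_distrib, h1, h1, sub_self]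
  have hBsum : ∀ i, ∑ s ∈ B i, inc B z s = ((r : ℚ) - lam) * z i := by
    intro i
    simp only [hinc]
    rw [← Finset.mul_sum, Finset.sum_sub_distrib, Finset.sum_ite_eq, Finset.sum_ite_eq]
  have hd : (0 : ℚ) < (y : ℚ) - x := by
    have : (x : ℚ) < y := by exact_mod_cast hxy
    linarith
  have heig : ((adj ℤ B y).map (Int.cast : ℤ → ℚ)).mulVec z =
      ((((r : ℚ) - lam) - (k - x)) / (y - x)) • z := by
    have hmap : (adj ℤ B y).map (Int.cast : ℤ → ℚ) = adj ℚ B y := by
      ext i j
      simp only [Matrix.map_apply, adj]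
      split_ifs <;> simp
    rw [hmap]
    ext i
    obtain ⟨g1, g2⟩ := hG B k x y hxy hB hint z i
    rw [g1, hsum, hBsum] at g2
    rw [Pi.smul_apply, smul_eq_mul]
    field_simp
    linear_combination g2
  obtain ⟨t, ht⟩ := hE (adj ℤ B y) _ z hz0 heig
  refine ⟨t, ?_⟩
  have h5 : ((r : ℚ) - lam) - (k - x) = t * (y - x) := by
    rw [← ht]
    field_simp
  have h6 : (((r : ℤ) - lam - (k - x) : ℤ) : ℚ) = ((((y : ℤ) - x) * t : ℤ) : ℚ) := by
    push_cast
    linear_combination h5
  exact_mod_cast h6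

end QS3D
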