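import Pool.Agent.Lib.MP_72d5fb_co.Spec

/-!
# MP_72d5fb_co, module Ker
-/

set_option autoImplicit false

namespace QS3D

open Finset

namespace KerX

/-- `inc` of the vector of the intersection sizes with `B j` -/
theorem incT {α ι : Type} [Fintype α] [DecidableEq α] [Fintype ι] [DecidableEq ι]
    (B : ι → Finset α) (k r lam : ℕ) (hB : ∀ i, (B i).card = k)
    (hr : ∀ p : α, (univ.filter fun i => p ∈ B i).card = r)
    (hlam : ∀ p q : α, p ≠ q → (univ.filter fun i => p ∈ B i ∧ q ∈ B i).card = lam) (j : ι)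
    (s : α) : inc B (fun i => ((B i ∩ B j).card : ℚ)) s =
      ((r : ℚ) - lam) * (if s ∈ B j then 1 else 0) + lam * k := by
  have h1 : ∀ i, ((B i ∩ B j).card : ℚ) = ∑ p ∈ B j, if p ∈ B i then (1 : ℚ) else 0 := by
    intro i
    rw [← Finset.sum_filter, Finset.sum_const, nsmul_eq_mul, mul_one]
    congr 2
    ext p
    simp only [Finset.mem_inter, Finset.mem_filter]
    tauto
  unfold inc
  simp only [h1]
  rw [Finset.sum_comm]
  have h2 : ∀ p ∈ B j, (∑ i ∈ univ.filter (fun i => s ∈ B i), if p ∈ B i then (1 : ℚ) else 0) =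
      (if p = s then ((r : ℚ) - lam) else 0) + lam := by
    intro p _
    rw [← Finset.sum_filter, Finset.sum_const, nsmul_eq_mul, mul_one, Finset.filter_filter]
    by_cases hps : p = s
    · subst hps
      rw [if_pos rfl]
      simp only [and_self]
      rw [hr]
      ring
    · rw [if_neg hps, hlam s p (Ne.symm hps)]
      ring
  rw [Finset.sum_congr rfl h2, Finset.sum_add_distrib, Finset.sum_const, hB, nsmul_eq_mul,
    Finset.sum_ite_eq' (B j) s]
  by_cases hs : s ∈ B j
  · rw [if_pos hs, if_pos hs]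
    ring
  · rw [if_neg hs, if_neg hs]
    ring

end KerX

theorem ker : KerStmt := by
  intro α ι _ _ _ _ B k r lam x y hxy hlr hB hr hlam hx hy
  by_contra hcon
  push Not at hcon
  have hr0 : (r : ℚ) ≠ 0 := by
    have : 0 < r := by omega
    exact_mod_cast this.ne'
  have key : ∀ j i, i ≠ j → ((B i ∩ B j).card : ℚ) = lam * k / r := by
    intro j i hij
    let z : ι → ℚ := fun i => ((B i ∩ B j).card : ℚ) -
      (((r : ℚ) - lam) * (if i = j then 1 else 0) + lam * k / r)
    have hz : ∀ s, inc B z s = 0 := by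
      intro s
      have h1 := KerX.incT B k r lam hB hr hlam j s
      unfold inc at h1 ⊢
      show ∑ i ∈ univ.filter (fun i => s ∈ B i), (((B i ∩ B j).card : ℚ) -
        (((r : ℚ) - lam) * (if i = j then 1 else 0) + lam * k / r)) = 0
      rw [Finset.sum_sub_distrib, h1, Finset.sum_add_distrib, Finset.sum_const, hr,
        ← Finset.mul_sum, Finset.sum_ite_eq' (univ.filter (fun i => s ∈ B i)) j, nsmul_eq_mul]
      simp only [Finset.mem_filter, Finset.mem_univ, true_and]
      field_simp
      ring
    by_cases hz0 : z = 0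
    · have h2 : z i = 0 := by rw [hz0]; rfl
      have h3 : z i = ((B i ∩ B j).card : ℚ) -
        (((r : ℚ) - lam) * (if i = j then 1 else 0) + lam * k / r) := rfl
      rw [h3, if_neg hij] at h2
      linarith
    · obtain ⟨p, hp⟩ := hcon z hz0
      exact absurd (hz p) hp
  obtain ⟨i, j, hij, h1⟩ := hx
  obtain ⟨i', j', hij', h2⟩ := hy
  have e1 := key j i hij
  have e2 := key j' i' hij'
  rw [h1] at e1
  rw [h2] at e2
  apply hxy
  have e3 : (x : ℚ) = y := e1.trans e2.symm
  exact_mod_cast e3

end QS3D
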