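import Pool.Agent.Lib.MP_72d5fb_co.Spec

/-!
# MP_72d5fb_co, module Least
-/

set_option autoImplicit false

namespace QS3D

open Finset

theorem least : LeastStmt := by
  intro hG α ι _ _ _ _ B k x y m z hxy hxk hkm hxv hv hB hint hz0 hker hsum
  have hd : (0 : ℝ) < (y : ℝ) - x := by
    have : (x : ℝ) < y := by exact_mod_cast hxy
    linarith
  have hkm' : (k : ℝ) - x = m * (y - x) := by
    have h1 : (k : ℝ) = x + m * ((y - x : ℕ) : ℝ) := by exact_mod_cast hkm
    rw [h1, Nat.cast_sub hxy.le]
    ring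
  constructor
  · refine ⟨fun i => (z i : ℝ), ?_, ?_⟩
    · intro h
      apply hz0
      ext i
      have h1 : ((z i : ℚ) : ℝ) = 0 := congrFun h i
      exact_mod_cast h1
    · ext i
      obtain ⟨g1, g2⟩ := hG B k x y hxy hB hint (fun i => (z i : ℝ)) i
      have h1 : ∀ p, inc B (fun i => (z i : ℝ)) p = 0 := by
        intro p
        have h2 : inc B (fun i => (z i : ℝ)) p = ((inc B z p : ℚ) : ℝ) := by
          unfold inc
          push_cast
          rfl
        rw [h2, hker]
        exact Rat.cast_zero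
      have h3 : ∑ i, (z i : ℝ) = 0 := by
        have h4 : ∑ i, (z i : ℝ) = ((∑ i, z i : ℚ) : ℝ) := by push_cast; rfl
        rw [h4, hsum]
        exact Rat.cast_zero
      rw [g1, h3] at g2
      simp only [h1, Finset.sum_const_zero] at g2
      rw [Pi.smul_apply, smul_eq_mul]
      have h5 : ((y : ℝ) - x) * ((adj ℝ B y).mulVec (fun i => (z i : ℝ)) i + m * z i) = 0 := by
        linear_combination g2 - (z i : ℝ) * hkm'
      rcases mul_eq_zero.1 h5 with h6 | h6
      · exact absurd h6 hd.ne'
      · linear_combination h6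
  · intro z'
    have hQ : ∑ i, z' i * ∑ p ∈ B i, inc B z' p = ∑ p, (inc B z' p) ^ 2 := by
      have h1 : ∀ i, z' i * ∑ p ∈ B i, inc B z' p =
          ∑ p, if p ∈ B i then z' i * inc B z' p else 0 := by
        intro i
        rw [← Finset.sum_filter, Finset.mul_sum]
        congr 1
        ext p
        simp
      simp only [h1]
      rw [Finset.sum_comm]
      refine Finset.sum_congr rfl fun p _ => ?_
      rw [← Finset.sum_filter, ← Finset.sum_mul, sq]
      rfl
    have hS : ∑ p : α, inc B z' p = k * ∑ i, z' i := by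
      have h2 : ∀ p : α, inc B z' p = ∑ i, if p ∈ B i then z' i else 0 := by
        intro p
        unfold inc
        rw [Finset.sum_filter]
      simp only [h2]
      rw [Finset.sum_comm, Finset.mul_sum]
      refine Finset.sum_congr rfl fun i _ => ?_
      rw [← Finset.sum_filter, Finset.sum_const, nsmul_eq_mul]
      congr 2
      rw [← hB i]
      congr 1
      ext p
      simp
    have hE : ∑ p, (inc B z' p) ^ 2 = ((k : ℝ) - x) * (z' ⬝ᵥ z') + x * (∑ i, z' i) ^ 2 +
        ((y : ℝ) - x) * (z' ⬝ᵥ (adj ℝ B y).mulVec z') := by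
      rw [← hQ]
      have h1 : ∀ i, z' i * ∑ p ∈ B i, inc B z' p = ((k : ℝ) - x) * (z' i * z' i) +
          (x * ∑ j, z' j) * z' i + ((y : ℝ) - x) * (z' i * (adj ℝ B y).mulVec z' i) := by
        intro i
        obtain ⟨g1, g2⟩ := hG B k x y hxy hB hint z' i
        rw [← g2, g1]
        ring
      simp only [h1]
      rw [Finset.sum_add_distrib, Finset.sum_add_distrib, ← Finset.mul_sum, ← Finset.mul_sum,
        ← Finset.mul_sum]
      simp only [dotProduct]
      ring
    have hcs : (∑ p : α, inc B z' p) ^ 2 ≤ (Fintype.card α : ℝ) * ∑ p, (inc B z' p) ^ 2 := by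
      have h1 := sq_sum_le_card_mul_sum_sq (s := (Finset.univ : Finset α)) (f := inc B z')
      rwa [Finset.card_univ] at h1
    have hxv' : (x : ℝ) * Fintype.card α ≤ (k : ℝ) ^ 2 := by exact_mod_cast hxv
    have hv' : (0 : ℝ) < Fintype.card α := by exact_mod_cast hv
    have hQS : (x : ℝ) * (∑ i, z' i) ^ 2 ≤ ∑ p, (inc B z' p) ^ 2 := by
      rw [hS] at hcs
      have h1 : (Fintype.card α : ℝ) * (x * (∑ i, z' i) ^ 2) ≤
          (Fintype.card α : ℝ) * ∑ p, (inc B z' p) ^ 2 := by
        refine le_trans ?_ hcs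
        nlinarith [sq_nonneg (∑ i, z' i)]
      exact le_of_mul_le_mul_left h1 hv'
    rw [hE, hkm'] at hQS
    have h2 : 0 ≤ ((y : ℝ) - x) * (m * (z' ⬝ᵥ z') + z' ⬝ᵥ (adj ℝ B y).mulVec z') := by
      linarith
    have h3 := nonneg_of_mul_nonneg_right h2 hd
    linarith

end QS3D
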