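import Pool.Agent.Lib.MP_72d5fb_co.Spec

/-!
# MP_72d5fb_co, module Point
-/

set_option autoImplicit false

namespace QS3D

open Finset

namespace PointX

theorem dc {ι α : Type} (S : Finset ι) (T : Finset α) (R : ι → α → Prop)
    [∀ i p, Decidable (R i p)] :
    ∑ i ∈ S, (T.filter fun p => R i p).card = ∑ p ∈ T, (S.filter fun i => R i p).card := by
  simp only [Finset.card_filter]
  exact Finset.sum_comm

theorem key {α ι : Type} [Fintype α] [DecidableEq α] [Fintype ι] (B : ι → Finset α) (k lam : ℕ)
    (hB : ∀ i, (B i).card = k)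
    (h : ∀ p q : α, p ≠ q → (univ.filter fun i => p ∈ B i ∧ q ∈ B i).card = lam) (p : α) :
    lam * (Fintype.card α - 1) = (univ.filter fun i => p ∈ B i).card * (k - 1) := by
  have h1 := dc (univ.filter fun i => p ∈ B i) ((univ : Finset α).erase p) (fun i s => s ∈ B i)
  have h2 : ∀ i ∈ (univ.filter fun i => p ∈ B i),
      (((univ : Finset α).erase p).filter fun s => s ∈ B i).card = k - 1 := by
    intro i hi
    rw [Finset.mem_filter] at hi
    have e : ((univ : Finset α).erase p).filter (fun s => s ∈ B i) = (B i).erase p := by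
      ext s
      simp only [Finset.mem_filter, Finset.mem_erase, Finset.mem_univ, and_true]
    rw [e, Finset.card_erase_of_mem hi.2, hB]
  have h3 : ∀ s ∈ (univ : Finset α).erase p,
      ((univ.filter fun i => p ∈ B i).filter fun i => s ∈ B i).card = lam := by
    intro s hs
    rw [Finset.mem_erase] at hs
    have e : (univ.filter fun i => p ∈ B i).filter (fun i => s ∈ B i) =
        univ.filter fun i => p ∈ B i ∧ s ∈ B i := by
      ext i
      simp only [Finset.mem_filter, Finset.mem_univ, true_and]
    rw [e]
    exact h p s hs.1.symm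
  rw [Finset.sum_congr rfl h2, Finset.sum_congr rfl h3, Finset.sum_const, Finset.sum_const,
    smul_eq_mul, smul_eq_mul, Finset.card_erase_of_mem (Finset.mem_univ p),
    Finset.card_univ] at h1
  rw [h1, mul_comm]

end PointX

theorem point : PointStmt := by
  intro α ι _ _ _ B k lam hk hkv hB h
  have hc : 0 < Fintype.card α := by omega
  obtain ⟨p⟩ := Fintype.card_pos_iff.1 hc
  refine ⟨(univ.filter fun i => p ∈ B i).card, ?_, PointX.key B k lam hB h p⟩
  intro p'
  have h1 := PointX.key B k lam hB h p
  have h2 := PointX.key B k lam hB h p'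
  exact Nat.eq_of_mul_eq_mul_right (by omega) (h2.symm.trans h1)

end QS3D
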