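import Pool.Agent.Lib.MP_72d5fb_co.Spec

/-!
# MP_72d5fb_co, module Sums
-/

set_option autoImplicit false

namespace QS3D

open Finset

namespace SumsX

theorem dc {ι α : Type} (S : Finset ι) (T : Finset α) (R : ι → α → Prop)
    [∀ i p, Decidable (R i p)] :
    ∑ i ∈ S, (T.filter fun p => R i p).card = ∑ p ∈ T, (S.filter fun i => R i p).card := by
  simp only [Finset.card_filter]
  exact Finset.sum_comm

theorem mom {α ι : Type} [Fintype α] [DecidableEq α] [Fintype ι] (B : ι → Finset α) (m c : ℕ)
    (h : ∀ T : Finset α, T.card = m → (univ.filter fun j => T ⊆ B j).card = c) (i : ι) :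
    ∑ j, (B i ∩ B j).card.choose m = (B i).card.choose m * c := by
  have h1 := dc (univ : Finset ι) (Finset.powersetCard m (B i)) (fun j T => T ⊆ B j)
  have h2 : ∀ j ∈ (univ : Finset ι),
      ((Finset.powersetCard m (B i)).filter fun T => T ⊆ B j).card =
        (B i ∩ B j).card.choose m := by
    intro j _
    rw [← Finset.card_powersetCard]
    congr 1
    ext T
    simp only [Finset.mem_filter, Finset.mem_powersetCard, Finset.subset_inter_iff]
    tauto
  have h3 : ∀ T ∈ Finset.powersetCard m (B i),
      ((univ : Finset ι).filter fun j => T ⊆ B j).card = c := by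
    intro T hT
    exact h T (Finset.mem_powersetCard.1 hT).2
  rw [Finset.sum_congr rfl h2, Finset.sum_congr rfl h3, Finset.sum_const, smul_eq_mul,
    Finset.card_powersetCard] at h1
  exact h1

end SumsX

theorem sums : SumsStmt := by
  intro α ι _ _ _ B k l lam r hD hlam hr i
  refine ⟨?_, ?_, ?_⟩
  · have h1 := SumsX.mom B 1 r (by
      intro T hT
      obtain ⟨p, rfl⟩ := Finset.card_eq_one.1 hT
      rw [← hr p]
      congr 1
      ext j
      simp only [Finset.mem_filter, Finset.singleton_subset_iff]) i
    simp only [Nat.choose_one_right] at h1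
    rw [h1, hD.card_block]
  · have h1 := SumsX.mom B 2 lam (by
      intro T hT
      obtain ⟨p, q, hpq, rfl⟩ := Finset.card_eq_two.1 hT
      rw [← hlam p q hpq]
      congr 1
      ext j
      simp only [Finset.mem_filter, Finset.insert_subset_iff, Finset.singleton_subset_iff]) i
    rw [h1, hD.card_block]
  · have h1 := SumsX.mom B 3 l hD.count i
    rw [h1, hD.card_block]

end QS3D
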