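import Pool.Agent.Lib.MP_72d5fb_co.Pair
import Pool.Agent.Lib.MP_72d5fb_co.Point
import Pool.Agent.Lib.MP_72d5fb_co.Blk
import Pool.Agent.Lib.MP_72d5fb_co.Sums
import Pool.Agent.Lib.MP_72d5fb_co.Eqs
import Pool.Agent.Lib.MP_72d5fb_co.Eig
import Pool.Agent.Lib.MP_72d5fb_co.Gram
import Pool.Agent.Lib.MP_72d5fb_co.IntN
import Pool.Agent.Lib.MP_72d5fb_co.Ker
import Pool.Agent.Lib.MP_72d5fb_co.IntM
import Pool.Agent.Lib.MP_72d5fb_co.Der
import Pool.Agent.Lib.MP_72d5fb_co.Least
import Pool.Agent.Lib.MP_72d5fb_co.Alg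

/-!
# MP_72d5fb_co: from the design to the arithmetic conditions
-/

namespace QS3D

open Finset

/-- The parameters of a quasi-symmetric 3-design with `0 < x`, `0 < v - 2k + x`. -/
theorem des {α ι : Type} [Fintype α] [DecidableEq α] [Fintype ι] [DecidableEq ι]
    (B : ι → Finset α) (k l x y : ℕ) (hD : IsDesign3 B k l) (hQ : IsQS B x y) (hx : 1 ≤ x)
    (hx' : 2 * k + 1 ≤ Fintype.card α + x) :
    ∃ m d n w lam r : ℕ, y = x + d ∧ k = x + m * d ∧ r = lam + d * n ∧ lam = l + d * w ∧
      l * (Fintype.card α - 2) = lam * (k - 2) ∧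
      lam * (Fintype.card α - 1) = r * (k - 1) ∧
      r * Fintype.card α = Fintype.card ι * k ∧
      Feas m d n w ((Fintype.card α : ℤ) - 2) k ∧
      (∃ z : ι → ℝ, z ≠ 0 ∧ (adj ℝ B y).mulVec z = (-(m : ℝ)) • z) ∧
      (∀ z : ι → ℝ, -(m : ℝ) * (z ⬝ᵥ z) ≤ z ⬝ᵥ (adj ℝ B y).mulVec z) := by
  have h3 := hD.three_le
  have hlt := hD.lt_card
  have h1 := hD.one_le
  obtain ⟨hxy, hset⟩ := hQ
  have hall : ∀ i j, i ≠ j → (B i ∩ B j).card = x ∨ (B i ∩ B j).card = y := by
    intro i j hij
    have : (B i ∩ B j).card ∈ ({x, y} : Set ℕ) := by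
      rw [← hset]; exact ⟨i, j, hij, rfl⟩
    simpa using this
  have hexx : ∃ i j, i ≠ j ∧ (B i ∩ B j).card = x := by
    have : x ∈ {c : ℕ | ∃ i j, i ≠ j ∧ (B i ∩ B j).card = c} := by rw [hset]; simp
    exact this
  have hexy : ∃ i j, i ≠ j ∧ (B i ∩ B j).card = y := by
    have : y ∈ {c : ℕ | ∃ i j, i ≠ j ∧ (B i ∩ B j).card = c} := by rw [hset]; simp
    exact this
  have hyk : y ≤ k := by
    obtain ⟨i, j, hij, he⟩ := hexy
    rw [← he, ← hD.card_block i]
    exact card_le_card inter_subset_left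
  obtain ⟨lam, hlam, hl⟩ := pair B k l hD
  obtain ⟨r, hr, hlr⟩ := point B k lam (by omega) hlt hD.card_block hlam
  have hrb := blk B k r hD.card_block hr
  obtain ⟨v, hv⟩ : ∃ v, Fintype.card α = v := ⟨_, rfl⟩
  obtain ⟨b, hb⟩ : ∃ b, Fintype.card ι = b := ⟨_, rfl⟩
  have hllam : l < lam := by
    by_contra hcon
    have h2 : lam * (k - 2) ≤ l * (k - 2) := Nat.mul_le_mul_right _ (by omega)
    have h4 : l * (k - 2) < l * (Fintype.card α - 2) :=
      Nat.mul_lt_mul_of_pos_left (by omega) h1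
    omega
  have hlamr : lam < r := by
    by_contra hcon
    have h2 : r * (k - 1) ≤ lam * (k - 1) := Nat.mul_le_mul_right _ (by omega)
    have h4 : lam * (k - 1) < lam * (Fintype.card α - 1) :=
      Nat.mul_lt_mul_of_pos_left (by omega) (by omega)
    omega
  obtain ⟨i0, j0, hij0, -⟩ := hexx
  obtain ⟨s1, s2, s3⟩ := sums B k l lam r hD hlam hr i0
  have hcc0 : (B i0 ∩ B i0).card = k := by rw [inter_self]; exact hD.card_block i0
  obtain ⟨E1, E2⟩ := eqs (fun j => (B i0 ∩ B j).card) i0 k l lam r x y hcc0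
    (fun j hj => hall i0 j (Ne.symm hj)) s1 s2 s3
  obtain ⟨z, hz, hz0⟩ := ker B k r lam x y (by omega) hlamr hD.card_block hr hlam
    (by
      have : x ∈ {c : ℕ | ∃ i j, i ≠ j ∧ (B i ∩ B j).card = c} := by rw [hset]; simp
      exact this) hexy
  obtain ⟨hzs, hdm⟩ := intM eig gram B k x y z hxy (by omega) hD.card_block hall hz hz0
  have hdn := intN eig gram B k r lam x y hxy (by omega) hlamr hD.card_block hr hlam hall
  have hdw := der (intN eig gram) B k l lam x y hD hx hxy hllam hlam hall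
  obtain ⟨d, hd⟩ : ∃ d, y = x + d := ⟨y - x, by omega⟩
  have hdpos : 1 ≤ d := by omega
  have hdz : ((y : ℤ) - x) = d := by rw [hd]; push_cast; ring
  rw [hdz] at hdm hdn hdw
  -- the quotients
  have hdm' : d ∣ k - x := by
    have : ((d : ℕ) : ℤ) ∣ ((k - x : ℕ) : ℤ) := by
      rw [Nat.cast_sub (by omega)]; exact hdm
    exact_mod_cast this
  obtain ⟨m, hm⟩ := hdm'
  have hkm : k = x + m * d := by
    have : k - x = d * m := hm
    have h5 : d * m = m * d := Nat.mul_comm _ _
    omega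
  have hmpos : 1 ≤ m := by
    by_contra hcon
    have h0 : m = 0 := by omega
    rw [h0] at hkm
    omega
  have hdn' : d ∣ r - lam := by
    have : ((d : ℕ) : ℤ) ∣ ((r - lam : ℕ) : ℤ) := by
      rw [Nat.cast_sub (by omega)]
      have := dvd_add hdn hdm
      have e : ((r : ℤ) - lam - (k - x)) + (k - x) = r - lam := by ring
      rwa [e] at this
    exact_mod_cast this
  obtain ⟨n, hn⟩ := hdn'
  have hdw' : d ∣ lam - l := by
    have : ((d : ℕ) : ℤ) ∣ ((lam - l : ℕ) : ℤ) := by
      rw [Nat.cast_sub (by omega)]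
      have := dvd_add hdw hdm
      have e : ((lam : ℤ) - l - (k - x)) + (k - x) = lam - l := by ring
      rwa [e] at this
    exact_mod_cast this
  obtain ⟨w, hw⟩ := hdw'
  have hrn : r = lam + d * n := by omega
  have hlw : lam = l + d * w := by omega
  -- integer versions
  have hvz : (k : ℤ) < v := by rw [hv] at hlt; exact_mod_cast hlt
  have zl : (l : ℤ) * ((v : ℤ) - 2) = lam * (k - 2) := by
    rw [hv] at hl
    have : ((l * (v - 2) : ℕ) : ℤ) = ((lam * (k - 2) : ℕ) : ℤ) := by exact_mod_cast hl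
    rw [Nat.cast_mul, Nat.cast_mul, Nat.cast_sub (by omega), Nat.cast_sub (by omega)] at this
    push_cast at this
    exact this
  have zlr : (lam : ℤ) * ((v : ℤ) - 1) = r * (k - 1) := by
    rw [hv] at hlr
    have : ((lam * (v - 1) : ℕ) : ℤ) = ((r * (k - 1) : ℕ) : ℤ) := by exact_mod_cast hlr
    rw [Nat.cast_mul, Nat.cast_mul, Nat.cast_sub (by omega), Nat.cast_sub (by omega)] at this
    push_cast at this
    exact this
  have zrb : (r : ℤ) * v = b * k := by
    rw [hv, hb] at hrb
    exact_mod_cast hrb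
  have hfeas : Feas m d n w ((v : ℤ) - 2) k := by
    refine alg v k l lam r b x y m d n w (by exact_mod_cast h3) hvz (by exact_mod_cast h1)
      (by exact_mod_cast (by omega : 1 ≤ lam)) (by exact_mod_cast (by omega : 1 ≤ r))
      (by exact_mod_cast hdpos) (by exact_mod_cast hmpos) (by exact_mod_cast hx) ?_ ?_ ?_ ?_ ?_
      zl zlr zrb ?_ ?_
    · rw [hv] at hx'
      exact_mod_cast hx'
    · rw [hd]; push_cast; ring
    · rw [hkm]; push_cast; ring
    · rw [hrn]; push_cast; ring
    · rw [hlw]; push_cast; ring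
    · rw [hb] at E1
      exact E1
    · exact E2
  -- `x v ≤ k ^ 2`
  have hxv : x * Fintype.card α ≤ k ^ 2 := by
    have h5 : b * x ≤ k * r := by
      rw [← s1, ← hb]
      have : ∀ j ∈ (univ : Finset ι), x ≤ (B i0 ∩ B j).card := by
        intro j _
        by_cases hj : i0 = j
        · rw [← hj, hcc0]; omega
        · rcases hall i0 j hj with h6 | h6 <;> omega
      have h7 := card_nsmul_le_sum univ (fun j => (B i0 ∩ B j).card) x this
      simpa [card_univ] using h7
    rw [hv]
    rw [hv, hb] at hrb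
    have hrpos : 0 < r := by omega
    have h8 : r * (x * v) ≤ r * k ^ 2 := by
      calc r * (x * v) = x * (r * v) := by ring
        _ = x * (b * k) := by rw [hrb]
        _ = (b * x) * k := by ring
        _ ≤ (k * r) * k := Nat.mul_le_mul_right _ h5
        _ = r * k ^ 2 := by ring
    exact Nat.le_of_mul_le_mul_left h8 hrpos
  have hleast := least gram B k x y m z hxy (by omega)
    (by
      have : y - x = d := by omega
      rw [this]; exact hkm) hxv (by omega) hD.card_block hall hz hz0 hzs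
  refine ⟨m, d, n, w, lam, r, hd, hkm, hrn, hlw, hl, hlr, hrb, ?_, hleast.1, hleast.2⟩
  rw [hv]
  exact hfeas

/-- The complementary parameters. -/
theorem feas_compl {m d n w V k : ℤ} (hm : 3 ≤ m) (h : Feas m d n w V k) :
    Feas m d n (n - w) V (V + 2 - k) := by
  have hd := h.hd
  have hx := h.hx
  have hx' := h.hx'
  have hn := h.hn
  have hk := h.hk
  have hmd : 3 ≤ m * d := by nlinarith
  have hV : 0 < V := by linarith
  have hTh : Th m d V (V + 2 - k) = Th m d V k := by unfold Th; ring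
  refine ⟨by linarith, hd, h.hm, hn, ?_, hx', by linarith, ?_, ?_, ?_⟩
  · have h1 : (n - w) * V = n * (V + 1 - k) := by
      have := h.e2
      linear_combination -this
    have h2 : 0 < n * (V + 1 - k) := mul_pos (by linarith) (by linarith)
    rw [← h1] at h2
    have h3 : 0 < n - w := (pos_iff_pos_of_mul_pos h2).mpr hV
    linarith
  · rw [hTh]; exact h.e1
  · have := h.e2
    linear_combination -this
  · rw [hTh]; exact h.e3

end QS3D
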