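import Pool.Agent.Lib.MP_72d5fb_co.Spec

/-! # MP_72d5fb_co: module Dn -/

namespace QS3D

theorem dn : DnStmt := by
  intro m d n V hm hd hn hV hA h1 h3
  have hp : 6 ≤ m * (m - 1) := by nlinarith
  have hP0 : 0 < P m d := by
    unfold P
    nlinarith
  have hB : 0 < Bq m d n := by
    unfold Bq
    have : 0 ≤ n * (d - 1) := mul_nonneg (by linarith) (by linarith)
    linarith
  have hAB : 0 < A m d n * Bq m d n := mul_pos hA hB
  have hX : (n * c m d - 2 * P m d) * (n * (d + 1) + P m d) ≤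
      2 * m ^ 2 * d ^ 2 * (A m d n * Bq m d n) := by
    have h4 : n * ((n * c m d - 2 * P m d) * (n * (d + 1) + P m d)) ≤
        n * (2 * m ^ 2 * d ^ 2 * (A m d n * Bq m d n)) := by
      have h5 := mul_le_mul_of_nonneg_right h3 hAB.le
      have e : n * ((n * c m d - 2 * P m d) * (n * (d + 1) + P m d)) =
          V * (P m d + n * (d + 1)) * (A m d n * Bq m d n) := by
        linear_combination -(P m d + n * (d + 1)) * h1
      rw [e]
      calc _ ≤ 2 * m ^ 2 * d ^ 2 * n * (A m d n * Bq m d n) := h5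
        _ = _ := by ring
    exact le_of_mul_le_mul_left h4 (by linarith)
  have hd2 : 2 ≤ d := by
    by_contra hlt
    have hd1 : d = 1 := by omega
    subst hd1
    have h4 : 2 * (m - 1) * ((2 * (m - 1) * n - m) * (2 * n + m * (m - 1))) ≤
        2 * (m - 1) * (m ^ 3 * (2 * n - m * (m - 1))) := by
      unfold A Bq c P at hX
      nlinarith
    have h5 := le_of_mul_le_mul_left h4 (by linarith)
    have h6 : (m - 1) * ((2 * (m - 1) * n - m) * (2 * n + m * (m - 1))) ≤
        (m - 1) * (m ^ 3 * (2 * n - m * (m - 1))) := mul_le_mul_of_nonneg_left h5 (by linarith)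
    have h7 : (2 * (m - 1) * n - m ^ 2) ^ 2 + m ^ 2 * ((m - 1) ^ 3 * (m + 1) - m ^ 2) ≤ 0 := by
      nlinarith
    obtain ⟨t, ht⟩ : ∃ t : ℕ, m = t + 3 := ⟨(m - 3).toNat, by omega⟩
    subst ht
    have h8 : 0 < ((t : ℤ) + 3) ^ 2 * (((t : ℤ) + 3 - 1) ^ 3 * (t + 3 + 1) - (t + 3) ^ 2) := by
      have : ((t : ℤ) + 3) ^ 2 * (((t : ℤ) + 3 - 1) ^ 3 * (t + 3 + 1) - (t + 3) ^ 2) =
          ((t : ℤ) + 3) ^ 2 * (t ^ 4 + 10 * t ^ 3 + 35 * t ^ 2 + 50 * t + 23) := by ring
      rw [this]
      positivity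
    nlinarith [sq_nonneg (2 * ((t : ℤ) + 3 - 1) * n - (t + 3) ^ 2)]
  refine ⟨hd2, ?_⟩
  by_contra hlt
  have hn' : n ≤ m * (m - 1) := by omega
  have hnd : n * d ≤ P m d := by
    unfold P
    exact mul_le_mul_of_nonneg_right hn' (by linarith)
  have hAn : A m d n ≤ n := by
    unfold A
    linarith
  have hBlt : Bq m d n < n * (d + 1) + P m d := by
    unfold Bq
    linarith
  have hs : 0 < n * (d + 1) + P m d := by positivity
  have h4 : (n * (d + 1) + P m d) * (n * c m d - 2 * P m d) <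
      (n * (d + 1) + P m d) * (2 * m ^ 2 * d ^ 2 * n) := by
    have h5 : A m d n * Bq m d n < n * (n * (d + 1) + P m d) := by
      calc A m d n * Bq m d n ≤ n * Bq m d n := mul_le_mul_of_nonneg_right hAn hB.le
        _ < _ := mul_lt_mul_of_pos_left hBlt (by linarith)
    have h6 : 2 * m ^ 2 * d ^ 2 * (A m d n * Bq m d n) < 2 * m ^ 2 * d ^ 2 * (n * (n * (d + 1) + P m d)) :=
      mul_lt_mul_of_pos_left h5 (by positivity)
    calc _ = (n * c m d - 2 * P m d) * (n * (d + 1) + P m d) := by ring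
      _ ≤ _ := hX
      _ < _ := h6
      _ = _ := by ring
  have h5 := lt_of_mul_lt_mul_left h4 hs.le
  have hPA : P m d < n * (d + 1) := by
    unfold A at hA
    linarith
  have h6 : n * (c m d - 2 * (d + 1)) < n * (2 * m ^ 2 * d ^ 2) := by nlinarith
  have h7 := lt_of_mul_lt_mul_left h6 (by linarith)
  have h8 : m * d * (2 * ((m - 1) * d - 1)) < m * d * (m * d) := by
    unfold c at h7
    nlinarith
  have h9 := lt_of_mul_lt_mul_left h8 (by positivity)
  nlinarith

end QS3D
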