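import Pool.Agent.Lib.MP_72d5fb_co.Main

/-!
# MP_72d5fb_co: finiteness
-/

namespace QS3D

open Finset

/-- A set of families of blocks on `Fin v`, indexed by `Fin b`, is finite when `v` and `b` are
bounded. -/
theorem finite_designs (N M : ℕ) (p : (v : ℕ) → (b : ℕ) → (Fin b → Finset (Fin v)) → Prop)
    (h : ∀ v b B, p v b B → v < N ∧ b < M) :
    {s : (v : ℕ) × (b : ℕ) × (Fin b → Finset (Fin v)) | p s.1 s.2.1 s.2.2}.Finite := by
  have hfin : ((Finset.range N).sigma (fun v => (Finset.range M).sigma
      (fun b => (Finset.univ : Finset (Fin b → Finset (Fin v))))) :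
      Set ((v : ℕ) × (b : ℕ) × (Fin b → Finset (Fin v)))).Finite := Finset.finite_toSet _
  refine hfin.subset ?_
  rintro ⟨v, b, B⟩ hs
  have h1 := h v b B hs
  simp only [Finset.mem_coe, Finset.mem_sigma, Finset.mem_range, Finset.mem_univ, and_true]
  exact h1

end QS3D
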