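import Pool.Agent.Lib.MP_72d5fb_co.Spec

/-! # MP_72d5fb_co: module Gle -/

namespace QS3D

theorem gle : GleStmt := by
  intro m d n V hm hd hn hA h1 h2
  have hP : 0 ≤ P m d := by
    unfold P
    have : 0 ≤ m * (m - 1) := mul_nonneg (by linarith) (by linarith)
    exact mul_nonneg this (by linarith)
  have hB : 0 ≤ Bq m d n := by
    unfold Bq
    have : 0 ≤ n * (d - 1) := mul_nonneg (by linarith) (by linarith)
    linarith
  have hAB : 0 ≤ A m d n * Bq m d n := mul_nonneg hA.le hB
  have e : G m d n = -((n * (V - 2 * u m d) + 2 * P m d) * (A m d n * Bq m d n)) := by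
    unfold G
    linear_combination n * h1
  rw [e]
  have := mul_nonneg h2 hAB
  linarith

end QS3D
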