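import Pool.Agent.Lib.MP_72d5fb_co.Spec

/-! # MP_72d5fb_co: module Mono -/

namespace QS3D

theorem mono : MonoStmt := by
  intro m d n0 n hm hd hn0 hn hc hG
  have hp : 6 ≤ m * (m - 1) := by nlinarith
  have hP0 : 0 < P m d := by
    unfold P
    nlinarith
  have h1 : 0 < d * n0 - P m d := by
    unfold P
    nlinarith
  have h2 : 0 < d * n - P m d := by nlinarith
  have h3 : 0 ≤ n - n0 := by linarith
  have h4 : 0 < 2 * u m d * (d ^ 2 - 1) - c m d := by linarith
  have hn0' : 0 < n0 := by linarith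
  have hn' : 0 < n := by linarith
  have key : n0 * d * (d * n0 - P m d) * G m d n =
      2 * d * P m d ^ 2 * (d * n0 - P m d) * (n - n0) * (d * n - P m d)
      + (2 * u m d * (d ^ 2 - 1) - c m d) * n * n0 * (n - n0) * (d * n - P m d) * (d * n0 - P m d)
      + G m d n0 * (d * n - P m d) * d * n
      + 4 * (m - 1) * (m - 2) * d ^ 2 * P m d ^ 2 * (n - n0) * n * n0 := by
    unfold G A Bq u c P
    ring
  have t1 : 0 ≤ 2 * d * P m d ^ 2 * (d * n0 - P m d) * (n - n0) * (d * n - P m d) := by positivity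
  have t2 : 0 ≤ (2 * u m d * (d ^ 2 - 1) - c m d) * n * n0 * (n - n0) * (d * n - P m d) *
      (d * n0 - P m d) := by positivity
  have t3 : 0 < G m d n0 * (d * n - P m d) * d * n := by positivity
  have t4 : 0 ≤ 4 * (m - 1) * (m - 2) * d ^ 2 * P m d ^ 2 * (n - n0) * n * n0 := by
    have h5 : 0 ≤ m - 1 := by linarith
    have h6 : 0 ≤ m - 2 := by linarith
    positivity
  have h5 : 0 < n0 * d * (d * n0 - P m d) * G m d n := by
    rw [key]
    linarith
  exact (mul_pos_iff_of_pos_left (by positivity)).1 h5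

end QS3D
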