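import Pool.Agent.Lib.MP_72d5fb_co.Spec

/-! # MP_72d5fb_co: module Reg -/

namespace QS3D

theorem reg : RegStmt := by
  intro m d n V hm hd hn hn2 hV h1 h2
  have hp : 6 ≤ m * (m - 1) := by nlinarith
  have hn0 : 0 < n := by linarith
  have hPn : 2 * P m d ≤ n * d := by
    unfold P
    nlinarith
  have hP0 : 0 < P m d := by
    unfold P
    nlinarith
  have hAB1 : A m d n * Bq m d n = d ^ 2 * n ^ 2 - (n - P m d) ^ 2 := by
    unfold A Bq
    ring
  refine ⟨?_, ?_, ?_⟩
  · have h3 : n * (n * c m d - 2 * P m d) ≤ V * (d ^ 2 * n ^ 2) := by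
      rw [← h1]
      refine mul_le_mul_of_nonneg_left ?_ hV.le
      rw [hAB1]
      nlinarith [sq_nonneg (n - P m d)]
    have h4 : n ^ 2 * (c m d - d) ≤ n ^ 2 * (d ^ 2 * V) := by
      have : n * (2 * P m d) ≤ n * (n * d) := mul_le_mul_of_nonneg_left hPn hn0.le
      nlinarith
    exact le_of_mul_le_mul_left h4 (by positivity)
  · have h3 : n * (2 * u m d - d) ≤ n * V := by nlinarith
    have h4 := le_of_mul_le_mul_left h3 hn0
    unfold u at h4
    linarith
  · have h3 : 3 * (d ^ 2 * n ^ 2) ≤ 4 * (A m d n * Bq m d n) := by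
      rw [hAB1]
      have h5 : 0 ≤ (n * d - 2 * P m d) * (n * d + 2 * P m d - 4 * n) ∨ P m d ≤ 2 * n := by
        by_cases h6 : P m d ≤ 2 * n
        · exact Or.inr h6
        · left
          refine mul_nonneg (by linarith) ?_
          nlinarith
      rcases h5 with h5 | h5
      · nlinarith
      · have h6 : 0 ≤ (d ^ 2 - 4) * n ^ 2 := mul_nonneg (by nlinarith) (by positivity)
        have h7 : 0 ≤ P m d * (2 * n - P m d) := mul_nonneg hP0.le (by linarith)
        nlinarith
    have h4 : n ^ 2 * (3 * d ^ 2 * V) ≤ n ^ 2 * (4 * c m d) := by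
      have h5 : V * (3 * (d ^ 2 * n ^ 2)) ≤ V * (4 * (A m d n * Bq m d n)) :=
        mul_le_mul_of_nonneg_left h3 hV.le
      have h6 : 0 < n * P m d := mul_pos hn0 hP0
      nlinarith
    exact le_of_mul_le_mul_left h4 (by positivity)

end QS3D
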