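import Pool.Agent.Lib.MP_72d5fb_co.Pc

/-! # MP_72d5fb_co: kernel computation, RunA -/

namespace QS3D

namespace Chk

set_option maxRecDepth 1000000 in
theorem run3 : chk 3 = true := by decide +kernel

set_option maxRecDepth 1000000 in
theorem run4 : chk 4 = true := by decide +kernel

set_option maxRecDepth 1000000 in
theorem run5 : chk 5 = true := by decide +kernel

set_option maxRecDepth 1000000 in
theorem run6 : chk 6 = true := by decide +kernel

set_option maxRecDepth 1000000 in
theorem run7 : chk 7 = true := by decide +kernel

set_option maxRecDepth 1000000 in
theorem run8 : chk 8 = true := by decide +kernel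

set_option maxRecDepth 1000000 in
theorem run9 : chk 9 = true := by decide +kernel

set_option maxRecDepth 1000000 in
theorem run10 : chk 10 = true := by decide +kernel

set_option maxRecDepth 1000000 in
theorem run11 : chk 11 = true := by decide +kernel

set_option maxRecDepth 1000000 in
theorem run12 : chk 12 = true := by decide +kernel

set_option maxRecDepth 1000000 in
theorem run13 : chk 13 = true := by decide +kernel

set_option maxRecDepth 1000000 in
theorem run14 : chk 14 = true := by decide +kernel

set_option maxRecDepth 1000000 in
theorem run15 : chk 15 = true := by decide +kernel

set_option maxRecDepth 1000000 in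
theorem run16 : chk 16 = true := by decide +kernel

set_option maxRecDepth 1000000 in
theorem run17 : chk 17 = true := by decide +kernel

set_option maxRecDepth 1000000 in
theorem run18 : chk 18 = true := by decide +kernel

set_option maxRecDepth 1000000 in
theorem p19_0 : part 19 0 3428 = true := by decide +kernel

set_option maxRecDepth 1000000 in
theorem q19_0 : part2 19 0 24 = true := by decide +kernel

theorem run19 : chk 19 = true :=
  chk_of
    ((Good.zero 19).app 3428 3428 p19_0 rfl)
    rfl
    ((Good2.zero 19).app 24 24 q19_0 rfl)
    rfl

end Chk

end QS3D
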