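import Pool.Agent.Lib.MP_72d5fb_co.Pc

/-! # MP_72d5fb_co: kernel computation, RunC -/

namespace QS3D

namespace Chk

set_option maxRecDepth 1000000 in
theorem p24_0 : part 24 0 1675 = true := by decide +kernel

set_option maxRecDepth 1000000 in
theorem p24_1 : part 24 1675 5235 = true := by decide +kernel

set_option maxRecDepth 1000000 in
theorem q24_0 : part2 24 0 14 = true := by decide +kernel

set_option maxRecDepth 1000000 in
theorem q24_1 : part2 24 14 16 = true := by decide +kernel

theorem run24 : chk 24 = true :=
  chk_of
    (((Good.zero 24).app 1675 1675 p24_0 rfl).app 5235 6910 p24_1 rfl)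
    rfl
    (((Good2.zero 24).app 14 14 q24_0 rfl).app 16 30 q24_1 rfl)
    rfl

set_option maxRecDepth 1000000 in
theorem p25_0 : part 25 0 1875 = true := by decide +kernel

set_option maxRecDepth 1000000 in
theorem p25_1 : part 25 1875 5936 = true := by decide +kernel

set_option maxRecDepth 1000000 in
theorem q25_0 : part2 25 0 14 = true := by decide +kernel

set_option maxRecDepth 1000000 in
theorem q25_1 : part2 25 14 18 = true := by decide +kernel

theorem run25 : chk 25 = true :=
  chk_of
    (((Good.zero 25).app 1875 1875 p25_0 rfl).app 5936 7811 p25_1 rfl)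
    rfl
    (((Good2.zero 25).app 14 14 q25_0 rfl).app 18 32 q25_1 rfl)
    rfl

end Chk

end QS3D
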