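import Pool.Agent.Lib.MP_72d5fb_co.Pc

/-! # MP_72d5fb_co: kernel computation, RunD -/

namespace QS3D

namespace Chk

set_option maxRecDepth 1000000 in
theorem p26_0 : part 26 0 2082 = true := by decide +kernel

set_option maxRecDepth 1000000 in
theorem p26_1 : part 26 2082 6704 = true := by decide +kernel

set_option maxRecDepth 1000000 in
theorem q26_0 : part2 26 0 15 = true := by decide +kernel

set_option maxRecDepth 1000000 in
theorem q26_1 : part2 26 15 18 = true := by decide +kernel

theorem run26 : chk 26 = true :=
  chk_of
    (((Good.zero 26).app 2082 2082 p26_0 rfl).app 6704 8786 p26_1 rfl)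
    rfl
    (((Good2.zero 26).app 15 15 q26_0 rfl).app 18 33 q26_1 rfl)
    rfl

set_option maxRecDepth 1000000 in
theorem p27_0 : part 27 0 2310 = true := by decide +kernel

set_option maxRecDepth 1000000 in
theorem p27_1 : part 27 2310 7530 = true := by decide +kernel

set_option maxRecDepth 1000000 in
theorem q27_0 : part2 27 0 15 = true := by decide +kernel

set_option maxRecDepth 1000000 in
theorem q27_1 : part2 27 15 19 = true := by decide +kernel

theorem run27 : chk 27 = true :=
  chk_of
    (((Good.zero 27).app 2310 2310 p27_0 rfl).app 7530 9840 p27_1 rfl)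
    rfl
    (((Good2.zero 27).app 15 15 q27_0 rfl).app 19 34 q27_1 rfl)
    rfl

end Chk

end QS3D
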