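import Pool.Agent.Lib.MP_72d5fb_co.Pc

/-! # MP_72d5fb_co: kernel computation, RunE -/

namespace QS3D

namespace Chk

set_option maxRecDepth 1000000 in
theorem p28_0 : part 28 0 2546 = true := by decide +kernel

set_option maxRecDepth 1000000 in
theorem p28_1 : part 28 2546 8428 = true := by decide +kernel

set_option maxRecDepth 1000000 in
theorem q28_0 : part2 28 0 16 = true := by decide +kernel

set_option maxRecDepth 1000000 in
theorem q28_1 : part2 28 16 20 = true := by decide +kernel

theorem run28 : chk 28 = true :=
  chk_of
    (((Good.zero 28).app 2546 2546 p28_0 rfl).app 8428 10974 p28_1 rfl)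
    rfl
    (((Good2.zero 28).app 16 16 q28_0 rfl).app 20 36 q28_1 rfl)
    rfl

end Chk

end QS3D
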