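import Pool.Agent.Lib.MP_72d5fb_co.Pc

/-! # MP_72d5fb_co: kernel computation, RunF -/

namespace QS3D

namespace Chk

set_option maxRecDepth 1000000 in
theorem p29_0 : part 29 0 2804 = true := by decide +kernel

set_option maxRecDepth 1000000 in
theorem p29_1 : part 29 2804 9389 = true := by decide +kernel

set_option maxRecDepth 1000000 in
theorem q29_0 : part2 29 0 17 = true := by decide +kernel

set_option maxRecDepth 1000000 in
theorem q29_1 : part2 29 17 20 = true := by decide +kernel

theorem run29 : chk 29 = true :=
  chk_of
    (((Good.zero 29).app 2804 2804 p29_0 rfl).app 9389 12193 p29_1 rfl)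
    rfl
    (((Good2.zero 29).app 17 17 q29_0 rfl).app 20 37 q29_1 rfl)
    rfl

end Chk

end QS3D
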