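import Pool.Agent.Lib.MP_72d5fb_co.Pc

/-! # MP_72d5fb_co: kernel computation, RunG -/

namespace QS3D

namespace Chk

set_option maxRecDepth 1000000 in
theorem p30_0 : part 30 0 731 = true := by decide +kernel

set_option maxRecDepth 1000000 in
theorem p30_1 : part 30 731 5564 = true := by decide +kernel

set_option maxRecDepth 1000000 in
theorem p30_2 : part 30 6295 7203 = true := by decide +kernel

set_option maxRecDepth 1000000 in
theorem q30_0 : part2 30 0 12 = true := by decide +kernel

set_option maxRecDepth 1000000 in
theorem q30_1 : part2 30 12 12 = true := by decide +kernel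

set_option maxRecDepth 1000000 in
theorem q30_2 : part2 30 24 14 = true := by decide +kernel

theorem run30 : chk 30 = true :=
  chk_of
    ((((Good.zero 30).app 731 731 p30_0 rfl).app 5564 6295 p30_1 rfl).app 7203 13498 p30_2
    rfl)
    rfl
    ((((Good2.zero 30).app 12 12 q30_0 rfl).app 12 24 q30_1 rfl).app 14 38 q30_2 rfl)
    rfl

end Chk

end QS3D
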