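import Pool.Agent.Lib.MP_72d5fb_co.Pc

/-! # MP_72d5fb_co: kernel computation, RunH -/

namespace QS3D

namespace Chk

set_option maxRecDepth 1000000 in
theorem p31_0 : part 31 0 786 = true := by decide +kernel

set_option maxRecDepth 1000000 in
theorem p31_1 : part 31 786 6138 = true := by decide +kernel

set_option maxRecDepth 1000000 in
theorem p31_2 : part 31 6924 7970 = true := by decide +kernel

set_option maxRecDepth 1000000 in
theorem q31_0 : part2 31 0 12 = true := by decide +kernel

set_option maxRecDepth 1000000 in
theorem q31_1 : part2 31 12 12 = true := by decide +kernel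

set_option maxRecDepth 1000000 in
theorem q31_2 : part2 31 24 16 = true := by decide +kernel

theorem run31 : chk 31 = true :=
  chk_of
    ((((Good.zero 31).app 786 786 p31_0 rfl).app 6138 6924 p31_1 rfl).app 7970 14894 p31_2
    rfl)
    rfl
    ((((Good2.zero 31).app 12 12 q31_0 rfl).app 12 24 q31_1 rfl).app 16 40 q31_2 rfl)
    rfl

end Chk

end QS3D
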