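import Pool.Agent.Lib.MP_72d5fb_co.Pc

/-! # MP_72d5fb_co: kernel computation, RunI -/

namespace QS3D

namespace Chk

set_option maxRecDepth 1000000 in
theorem p32_0 : part 32 0 837 = true := by decide +kernel

set_option maxRecDepth 1000000 in
theorem p32_1 : part 32 837 6749 = true := by decide +kernel

set_option maxRecDepth 1000000 in
theorem p32_2 : part 32 7586 8796 = true := by decide +kernel

set_option maxRecDepth 1000000 in
theorem q32_0 : part2 32 0 12 = true := by decide +kernel

set_option maxRecDepth 1000000 in
theorem q32_1 : part2 32 12 12 = true := by decide +kernel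

set_option maxRecDepth 1000000 in
theorem q32_2 : part2 32 24 17 = true := by decide +kernel

theorem run32 : chk 32 = true :=
  chk_of
    ((((Good.zero 32).app 837 837 p32_0 rfl).app 6749 7586 p32_1 rfl).app 8796 16382 p32_2
    rfl)
    rfl
    ((((Good2.zero 32).app 12 12 q32_0 rfl).app 12 24 q32_1 rfl).app 17 41 q32_2 rfl)
    rfl

end Chk

end QS3D
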