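import Pool.Agent.Lib.MP_72d5fb_co.Pc

/-! # MP_72d5fb_co: kernel computation, RunJ -/

namespace QS3D

namespace Chk

set_option maxRecDepth 1000000 in
theorem p33_0 : part 33 0 896 = true := by decide +kernel

set_option maxRecDepth 1000000 in
theorem p33_1 : part 33 896 7400 = true := by decide +kernel

set_option maxRecDepth 1000000 in
theorem p33_2 : part 33 8296 9671 = true := by decide +kernel

set_option maxRecDepth 1000000 in
theorem q33_0 : part2 33 0 13 = true := by decide +kernel

set_option maxRecDepth 1000000 in
theorem q33_1 : part2 33 13 13 = true := by decide +kernel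

set_option maxRecDepth 1000000 in
theorem q33_2 : part2 33 26 16 = true := by decide +kernel

theorem run33 : chk 33 = true :=
  chk_of
    ((((Good.zero 33).app 896 896 p33_0 rfl).app 7400 8296 p33_1 rfl).app 9671 17967 p33_2
    rfl)
    rfl
    ((((Good2.zero 33).app 13 13 q33_0 rfl).app 13 26 q33_1 rfl).app 16 42 q33_2 rfl)
    rfl

end Chk

end QS3D
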