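import Pool.Agent.Lib.MP_72d5fb_co.Pc

/-! # MP_72d5fb_co: kernel computation, RunK -/

namespace QS3D

namespace Chk

set_option maxRecDepth 1000000 in
theorem p34_0 : part 34 0 269 = true := by decide +kernel

set_option maxRecDepth 1000000 in
theorem p34_1 : part 34 269 4040 = true := by decide +kernel

set_option maxRecDepth 1000000 in
theorem p34_2 : part 34 4309 7325 = true := by decide +kernel

set_option maxRecDepth 1000000 in
theorem p34_3 : part 34 11634 8016 = true := by decide +kernel

set_option maxRecDepth 1000000 in
theorem q34_0 : part2 34 0 10 = true := by decide +kernel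

set_option maxRecDepth 1000000 in
theorem q34_1 : part2 34 10 10 = true := by decide +kernel

set_option maxRecDepth 1000000 in
theorem q34_2 : part2 34 20 10 = true := by decide +kernel

set_option maxRecDepth 1000000 in
theorem q34_3 : part2 34 30 14 = true := by decide +kernel

theorem run34 : chk 34 = true :=
  chk_of
    (((((Good.zero 34).app 269 269 p34_0 rfl).app 4040 4309 p34_1 rfl).app 7325 11634 p34_2
    rfl).app 8016 19650 p34_3 rfl)
    rfl
    (((((Good2.zero 34).app 10 10 q34_0 rfl).app 10 20 q34_1 rfl).app 10 30 q34_2 rfl).app 14
    44 q34_3 rfl)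
    rfl

end Chk

end QS3D
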