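import Pool.Agent.Lib.MP_72d5fb_co.Pc

/-! # MP_72d5fb_co: kernel computation, RunP36 -/

namespace QS3D

namespace Chk

set_option maxRecDepth 1000000 in
theorem p36_0 : part 36 0 294 = true := by decide +kernel

set_option maxRecDepth 1000000 in
theorem p36_1 : part 36 294 4731 = true := by decide +kernel

set_option maxRecDepth 1000000 in
theorem p36_2 : part 36 5025 8731 = true := by decide +kernel

set_option maxRecDepth 1000000 in
theorem p36_3 : part 36 13756 9570 = true := by decide +kernel

theorem good36 : Good 36 23326 :=
    (((((Good.zero 36).app 294 294 p36_0 rfl).app 4731 5025 p36_1 rfl).app 8731 13756 p36_2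
    rfl).app 9570 23326 p36_3 rfl)

end Chk

end QS3D
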