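import Pool.Agent.Lib.MP_72d5fb_co.Pc

/-! # MP_72d5fb_co: kernel computation, RunP37 -/

namespace QS3D

namespace Chk

set_option maxRecDepth 1000000 in
theorem p37_0 : part 37 0 134 = true := by decide +kernel

set_option maxRecDepth 1000000 in
theorem p37_1 : part 37 134 2351 = true := by decide +kernel

set_option maxRecDepth 1000000 in
theorem p37_2 : part 37 2485 6491 = true := by decide +kernel

set_option maxRecDepth 1000000 in
theorem p37_3 : part 37 8976 8022 = true := by decide +kernel

set_option maxRecDepth 1000000 in
theorem p37_4 : part 37 16998 8327 = true := by decide +kernel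

theorem good37 : Good 37 25325 :=
    ((((((Good.zero 37).app 134 134 p37_0 rfl).app 2351 2485 p37_1 rfl).app 6491 8976 p37_2
    rfl).app 8022 16998 p37_3 rfl).app 8327 25325 p37_4 rfl)

end Chk

end QS3D
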