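import Pool.Agent.Lib.MP_72d5fb_co.Pc

/-! # MP_72d5fb_co: kernel computation, RunP38 -/

namespace QS3D

namespace Chk

set_option maxRecDepth 1000000 in
theorem p38_0 : part 38 0 138 = true := by decide +kernel

set_option maxRecDepth 1000000 in
theorem p38_1 : part 38 138 2504 = true := by decide +kernel

set_option maxRecDepth 1000000 in
theorem p38_2 : part 38 2642 7030 = true := by decide +kernel

set_option maxRecDepth 1000000 in
theorem p38_3 : part 38 9672 8713 = true := by decide +kernel

set_option maxRecDepth 1000000 in
theorem p38_4 : part 38 18385 9049 = true := by decide +kernel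

theorem good38 : Good 38 27434 :=
    ((((((Good.zero 38).app 138 138 p38_0 rfl).app 2504 2642 p38_1 rfl).app 7030 9672 p38_2
    rfl).app 8713 18385 p38_3 rfl).app 9049 27434 p38_4 rfl)

end Chk

end QS3D
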