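import Pool.Agent.Lib.MP_72d5fb_co.Pc

/-! # MP_72d5fb_co: kernel computation, RunP39 -/

namespace QS3D

namespace Chk

set_option maxRecDepth 1000000 in
theorem p39_0 : part 39 0 144 = true := by decide +kernel

set_option maxRecDepth 1000000 in
theorem p39_1 : part 39 144 2680 = true := by decide +kernel

set_option maxRecDepth 1000000 in
theorem p39_2 : part 39 2824 7603 = true := by decide +kernel

set_option maxRecDepth 1000000 in
theorem p39_3 : part 39 10427 9438 = true := by decide +kernel

set_option maxRecDepth 1000000 in
theorem p39_4 : part 39 19865 9793 = true := by decide +kernel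

theorem good39 : Good 39 29658 :=
    ((((((Good.zero 39).app 144 144 p39_0 rfl).app 2680 2824 p39_1 rfl).app 7603 10427 p39_2
    rfl).app 9438 19865 p39_3 rfl).app 9793 29658 p39_4 rfl)

end Chk

end QS3D
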