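import Pool.Agent.Lib.MP_72d5fb_co.Pc

/-! # MP_72d5fb_co: kernel computation, RunP40 -/

namespace QS3D

namespace Chk

set_option maxRecDepth 1000000 in
theorem p40_0 : part 40 0 89 = true := by decide +kernel

set_option maxRecDepth 1000000 in
theorem p40_1 : part 40 89 1245 = true := by decide +kernel

set_option maxRecDepth 1000000 in
theorem p40_2 : part 40 1334 5349 = true := by decide +kernel

set_option maxRecDepth 1000000 in
theorem p40_3 : part 40 6683 7796 = true := by decide +kernel

set_option maxRecDepth 1000000 in
theorem p40_4 : part 40 14479 8693 = true := by decide +kernel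

set_option maxRecDepth 1000000 in
theorem p40_5 : part 40 23172 8826 = true := by decide +kernel

theorem good40 : Good 40 31998 :=
    (((((((Good.zero 40).app 89 89 p40_0 rfl).app 1245 1334 p40_1 rfl).app 5349 6683 p40_2
    rfl).app 7796 14479 p40_3 rfl).app 8693 23172 p40_4 rfl).app 8826 31998 p40_5 rfl)

end Chk

end QS3D
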