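import Pool.Agent.Lib.MP_72d5fb_co.Pc

/-! # MP_72d5fb_co: kernel computation, RunQ35 -/

namespace QS3D

namespace Chk

set_option maxRecDepth 1000000 in
theorem q35_0 : part2 35 0 10 = true := by decide +kernel

set_option maxRecDepth 1000000 in
theorem q35_1 : part2 35 10 10 = true := by decide +kernel

set_option maxRecDepth 1000000 in
theorem q35_2 : part2 35 20 10 = true := by decide +kernel

set_option maxRecDepth 1000000 in
theorem q35_3 : part2 35 30 15 = true := by decide +kernel

theorem good2_35 : Good2 35 45 :=
    (((((Good2.zero 35).app 10 10 q35_0 rfl).app 10 20 q35_1 rfl).app 10 30 q35_2 rfl).app 15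
    45 q35_3 rfl)

end Chk

end QS3D
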