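import Pool.Agent.Lib.MP_72d5fb_co.Pc

/-! # MP_72d5fb_co: kernel computation, RunQ36 -/

namespace QS3D

namespace Chk

set_option maxRecDepth 1000000 in
theorem q36_0 : part2 36 0 11 = true := by decide +kernel

set_option maxRecDepth 1000000 in
theorem q36_1 : part2 36 11 11 = true := by decide +kernel

set_option maxRecDepth 1000000 in
theorem q36_2 : part2 36 22 11 = true := by decide +kernel

set_option maxRecDepth 1000000 in
theorem q36_3 : part2 36 33 13 = true := by decide +kernel

theorem good2_36 : Good2 36 46 :=
    (((((Good2.zero 36).app 11 11 q36_0 rfl).app 11 22 q36_1 rfl).app 11 33 q36_2 rfl).app 13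
    46 q36_3 rfl)

end Chk

end QS3D
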