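import Pool.Agent.Lib.MP_72d5fb_co.Pc

/-! # MP_72d5fb_co: kernel computation, RunQ37 -/

namespace QS3D

namespace Chk

set_option maxRecDepth 1000000 in
theorem q37_0 : part2 37 0 9 = true := by decide +kernel

set_option maxRecDepth 1000000 in
theorem q37_1 : part2 37 9 9 = true := by decide +kernel

set_option maxRecDepth 1000000 in
theorem q37_2 : part2 37 18 9 = true := by decide +kernel

set_option maxRecDepth 1000000 in
theorem q37_3 : part2 37 27 9 = true := by decide +kernel

set_option maxRecDepth 1000000 in
theorem q37_4 : part2 37 36 12 = true := by decide +kernel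

theorem good2_37 : Good2 37 48 :=
    ((((((Good2.zero 37).app 9 9 q37_0 rfl).app 9 18 q37_1 rfl).app 9 27 q37_2 rfl).app 9 36
    q37_3 rfl).app 12 48 q37_4 rfl)

end Chk

end QS3D
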