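import Pool.Agent.Lib.MP_72d5fb_co.Pc

/-! # MP_72d5fb_co: kernel computation, RunQ38 -/

namespace QS3D

namespace Chk

set_option maxRecDepth 1000000 in
theorem q38_0 : part2 38 0 9 = true := by decide +kernel

set_option maxRecDepth 1000000 in
theorem q38_1 : part2 38 9 9 = true := by decide +kernel

set_option maxRecDepth 1000000 in
theorem q38_2 : part2 38 18 9 = true := by decide +kernel

set_option maxRecDepth 1000000 in
theorem q38_3 : part2 38 27 9 = true := by decide +kernel

set_option maxRecDepth 1000000 in
theorem q38_4 : part2 38 36 13 = true := by decide +kernel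

theorem good2_38 : Good2 38 49 :=
    ((((((Good2.zero 38).app 9 9 q38_0 rfl).app 9 18 q38_1 rfl).app 9 27 q38_2 rfl).app 9 36
    q38_3 rfl).app 13 49 q38_4 rfl)

end Chk

end QS3D
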