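import Pool.Agent.Lib.MP_72d5fb_co.Pc

/-! # MP_72d5fb_co: kernel computation, RunQ39 -/

namespace QS3D

namespace Chk

set_option maxRecDepth 1000000 in
theorem q39_0 : part2 39 0 9 = true := by decide +kernel

set_option maxRecDepth 1000000 in
theorem q39_1 : part2 39 9 9 = true := by decide +kernel

set_option maxRecDepth 1000000 in
theorem q39_2 : part2 39 18 9 = true := by decide +kernel

set_option maxRecDepth 1000000 in
theorem q39_3 : part2 39 27 9 = true := by decide +kernel

set_option maxRecDepth 1000000 in
theorem q39_4 : part2 39 36 14 = true := by decide +kernel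

theorem good2_39 : Good2 39 50 :=
    ((((((Good2.zero 39).app 9 9 q39_0 rfl).app 9 18 q39_1 rfl).app 9 27 q39_2 rfl).app 9 36
    q39_3 rfl).app 14 50 q39_4 rfl)

end Chk

end QS3D
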