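import Pool.Agent.Lib.MP_72d5fb_co.RunP35
import Pool.Agent.Lib.MP_72d5fb_co.RunQ35
import Pool.Agent.Lib.MP_72d5fb_co.RunP36
import Pool.Agent.Lib.MP_72d5fb_co.RunQ36
import Pool.Agent.Lib.MP_72d5fb_co.RunP37
import Pool.Agent.Lib.MP_72d5fb_co.RunQ37
import Pool.Agent.Lib.MP_72d5fb_co.RunP38
import Pool.Agent.Lib.MP_72d5fb_co.RunQ38
import Pool.Agent.Lib.MP_72d5fb_co.RunP39
import Pool.Agent.Lib.MP_72d5fb_co.RunQ39
import Pool.Agent.Lib.MP_72d5fb_co.RunP40
import Pool.Agent.Lib.MP_72d5fb_co.RunQ40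

/-! # MP_72d5fb_co: kernel computation, RunZ -/

namespace QS3D

namespace Chk

theorem run35 : chk 35 = true := chk_of good35 rfl good2_35 rfl

theorem run36 : chk 36 = true := chk_of good36 rfl good2_36 rfl

theorem run37 : chk 37 = true := chk_of good37 rfl good2_37 rfl

theorem run38 : chk 38 = true := chk_of good38 rfl good2_38 rfl

theorem run39 : chk 39 = true := chk_of good39 rfl good2_39 rfl

theorem run40 : chk 40 = true := chk_of good40 rfl good2_40 rfl

end Chk

end QS3D
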