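import Pool.Agent.Lib.MP_72d5fb_co.Sound2

/-!
# MP_72d5fb_co: soundness of the tests, part 3 (second region)
-/

namespace QS3D

namespace Chk

theorem chkV_sound (m d V T U : ℕ)
    (hD : ((T : ℤ) - V - 1) ^ 2 = ((V : ℤ) + 1) * (V * (d : ℤ) ^ 2 + 1) - V * (U : ℤ) ^ 2)
    (hb : (V + 1) * (V * (d * d) + 1) < 4 ^ 25)
    (h : chkV m d (d * d) (U * U) V = true) : rejE m d V T = true := by
  obtain ⟨t, ht⟩ : ∃ t : ℕ, t = ((T : ℤ) - V - 1).natAbs := ⟨_, rfl⟩
  have ht2 : (t : ℤ) * t = ((T : ℤ) - V - 1) ^ 2 := by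
    rw [ht, ← pow_two, Int.natCast_natAbs, sq_abs]
  have hDn : t * t + V * (U * U) = (V + 1) * (V * (d * d) + 1) := by
    have : ((t * t + V * (U * U) : ℕ) : ℤ) = (((V + 1) * (V * (d * d) + 1) : ℕ) : ℤ) := by
      push_cast
      rw [ht2, hD]; ring
    exact_mod_cast this
  have hD' : Nat.sub (Nat.mul (Nat.succ V) (Nat.succ (Nat.mul V (d * d)))) (Nat.mul V (U * U))
      = t * t := by
    show (V + 1) * (V * (d * d) + 1) - V * (U * U) = t * t
    omega
  have ht25 : t * t < 4 ^ 25 := by omega
  have hroot := root_sq 25 t ht25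
  unfold chkV at h
  rw [hD'] at h
  simp only [forceB_eq] at h
  have b576 : Nat.beq (Nat.land (Nat.shiftRight (nat_lit 29484083201333413172238761544355005573529228352985035443634330863289885497116176127206733742514276085031194379114524580649500813930446267296885182266921737576532476435)
      (Nat.mod (t * t) (nat_lit 576))) (nat_lit 1)) (nat_lit 0) = false :=
    bit_sq 29484083201333413172238761544355005573529228352985035443634330863289885497116176127206733742514276085031194379114524580649500813930446267296885182266921737576532476435 576 (t * t) t (by norm_num) rfl (maskOk_spec _ _ mask576)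
  have b1615 : Nat.beq (Nat.land (Nat.shiftRight (nat_lit 47936127571641130742787422913048301619885644376659903859050147304860895779298227433539806072611134927836847985125070848684107811103476708671999250598512719321366253390517195853137844075498242466414559028303421085639213864326849201909439404703344335293126662848934750105998559025990788160714487127842871470969444789525245756340725655985640994024587792300822938418897697414219342221298252397193715095433290959628831892410816543843650812884615804481765223299971865291050675216958685715)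
      (Nat.mod (t * t) (nat_lit 1615))) (nat_lit 1)) (nat_lit 0) = false :=
    bit_sq 47936127571641130742787422913048301619885644376659903859050147304860895779298227433539806072611134927836847985125070848684107811103476708671999250598512719321366253390517195853137844075498242466414559028303421085639213864326849201909439404703344335293126662848934750105998559025990788160714487127842871470969444789525245756340725655985640994024587792300822938418897697414219342221298252397193715095433290959628831892410816543843650812884615804481765223299971865291050675216958685715 1615 (t * t) t (by norm_num) rfl (maskOk_spec _ _ mask1615)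
  have b1001 : Nat.beq (Nat.land (Nat.shiftRight (nat_lit 23707390175973308128016241232128938227070920245704778930914977082762241650713458465746853980993234561049439236999502960535577894669418171488479697048329964884707696122392211835348865585746906259574284770614433930845236601277533164783420074584183568871394368755799224903206949394925771276634638336531)
      (Nat.mod (t * t) (nat_lit 1001))) (nat_lit 1)) (nat_lit 0) = false :=
    bit_sq 23707390175973308128016241232128938227070920245704778930914977082762241650713458465746853980993234561049439236999502960535577894669418171488479697048329964884707696122392211835348865585746906259574284770614433930845236601277533164783420074584183568871394368755799224903206949394925771276634638336531 1001 (t * t) t (by norm_num) rfl (maskOk_spec _ _ mask1001)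
  rw [b576, b1615, b1001] at h
  have h2 : chkT m d V (t * t) t = true := by
    have h3 : chkT m d V (t * t) (root (nat_lit 25) (t * t)) = true := h
    have h4 : root (nat_lit 25) (t * t) = t := hroot
    rw [h4] at h3
    exact h3
  unfold chkT at h2
  rw [beq_true (rfl : t * t = t * t)] at h2
  simp only [Bool.not_true, Bool.false_or, Bool.and_eq_true] at h2
  rcases le_or_gt ((V : ℤ) + 1) T with h5 | h5
  · have : T = V + 1 + t := by omega
    rw [this]; exact h2.1
  · have : T = V + 1 - t := by omega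
    rw [this]; exact h2.2

theorem chkD2_sound (m d V T : ℕ) (hm : 3 ≤ m) (hm2 : m ≤ 40) (hd : 2 ≤ d) (hV : 1 ≤ V)
    (hD : ((T : ℤ) - V - 1) ^ 2 = ((V : ℤ) + 1) * (V * (d : ℤ) ^ 2 + 1) - V * (u m d) ^ 2)
    (h1 : QS3D.c m d - d ≤ (d : ℤ) ^ 2 * V) (h2 : (4 * (m : ℤ) - 3) * d - 2 ≤ V)
    (h3 : 3 * (d : ℤ) ^ 2 * V ≤ 4 * QS3D.c m d)
    (h : chkD2 m d = true) : rejE m d V T = true := by
  have hm1 : 1 ≤ m := by omega
  have hd1 : 1 ≤ d := by omega
  have hcc := castc m d hm hd1
  have hu := castu m d hm1 hd1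
  unfold chkD2 at h
  simp only [forceB_eq] at h
  obtain ⟨C, hC⟩ : ∃ C, 4 * (m * (m - 1)) * (d * d) + 2 - 2 * (2 * m - 1) * d = C := ⟨_, rfl⟩
  obtain ⟨U, hU⟩ : ∃ U, (2 * m - 1) * d - 1 = U := ⟨_, rfl⟩
  rw [hC] at hcc
  rw [hC, hU] at h
  rw [hU] at hu
  rw [← hcc] at h1 h3
  rw [← hu] at hD
  have n1 : C ≤ d * d * V + d := by
    have : ((C : ℕ) : ℤ) ≤ ((d * d * V + d : ℕ) : ℤ) := by push_cast; nlinarith
    exact_mod_cast this
  have n2 : (4 * m - 3) * d ≤ V + 2 := by
    have a : 3 ≤ 4 * m := by omega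
    have : (((4 * m - 3) * d : ℕ) : ℤ) ≤ ((V + 2 : ℕ) : ℤ) := by
      rw [Nat.cast_mul, Nat.cast_sub a]; push_cast; linarith
    exact_mod_cast this
  have n3 : V * (3 * (d * d)) ≤ 4 * C := by
    have : ((V * (3 * (d * d)) : ℕ) : ℤ) ≤ ((4 * C : ℕ) : ℤ) := by push_cast; nlinarith
    exact_mod_cast this
  have hddpos : 0 < d * d := Nat.mul_pos (by omega) (by omega)
  obtain ⟨lo, hlo⟩ : ∃ lo, max ((C - d + d * d - 1) / (d * d)) ((4 * m - 3) * d - 2) - 1 = lo :=
    ⟨_, rfl⟩
  rw [hlo] at h
  have m1 : (C - d + d * d - 1) / (d * d) ≤ V := by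
    rw [← Nat.lt_succ_iff, Nat.div_lt_iff_lt_mul hddpos]
    have : (V + 1) * (d * d) = d * d * V + d * d := by ring
    show C - d + d * d - 1 < (V + 1) * (d * d)
    omega
  have m2 : (4 * m - 3) * d - 2 ≤ V := by omega
  have m3 : max ((C - d + d * d - 1) / (d * d)) ((4 * m - 3) * d - 2) ≤ V := max_le m1 m2
  have m4 : lo + 1 ≤ V := by omega
  have m5 : V ≤ 4 * C / (3 * (d * d)) := by
    rw [Nat.le_div_iff_mul_le (by omega)]
    exact n3
  have h6 := allUpTo_spec h (V - lo) (by omega) (by omega)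
  have h7 : Nat.add lo (V - lo) = V := by
    show lo + (V - lo) = V
    omega
  rw [h7] at h6
  -- the size of `D`
  have hp2 : m * (m - 1) ≤ 1560 := by
    have : m - 1 ≤ 39 := by omega
    calc m * (m - 1) ≤ 40 * 39 := Nat.mul_le_mul hm2 this
      _ = 1560 := by norm_num
  have hCle : C ≤ 6240 * (d * d) := by
    have a : 2 ≤ 2 * (2 * m - 1) * d := by
      have : 1 ≤ (2 * m - 1) * d := Nat.mul_pos (by omega) hd1
      calc 2 = 2 * 1 := by norm_num
        _ ≤ 2 * ((2 * m - 1) * d) := Nat.mul_le_mul_left _ this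
        _ = 2 * (2 * m - 1) * d := by ring
    have b : 4 * (m * (m - 1)) * (d * d) ≤ 6240 * (d * d) := Nat.mul_le_mul_right _ (by omega)
    omega
  have hVle : V ≤ 8320 := by
    have : V * 3 * (d * d) ≤ 24960 * (d * d) := by
      calc V * 3 * (d * d) = V * (3 * (d * d)) := by ring
        _ ≤ 4 * C := n3
        _ ≤ 24960 * (d * d) := by omega
    have := Nat.le_of_mul_le_mul_right this hddpos
    omega
  have hdle : d ≤ 925 := by
    have : 9 * d ≤ (4 * m - 3) * d := Nat.mul_le_mul_right _ (by omega)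
    omega
  have hbd : (V + 1) * (V * (d * d) + 1) < 4 ^ 25 := by
    have a : d * d ≤ 925 * 925 := Nat.mul_le_mul hdle hdle
    have b : V * (d * d) ≤ 8320 * (925 * 925) := Nat.mul_le_mul hVle a
    calc (V + 1) * (V * (d * d) + 1) ≤ 8321 * (8320 * (925 * 925) + 1) :=
          Nat.mul_le_mul (by omega) (by omega)
      _ < 4 ^ 25 := by norm_num
  exact chkV_sound m d V T U hD hbd h6

theorem chk2_d {m : ℕ} (h : chk2 m = true) (hm : 3 ≤ m) (d : ℕ) (hd : 2 ≤ d)
    (hd2 : 3 * (4 * m - 3) * d ≤ 16 * (m * (m - 1)) + 6) : chkD2 m d = true := by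
  unfold chk2 at h
  have h0 : d ≤ (16 * (m * (m - 1)) + 6) / (3 * (4 * m - 3)) := by
    rw [Nat.le_div_iff_mul_le (by omega)]
    calc d * (3 * (4 * m - 3)) = 3 * (4 * m - 3) * d := by ring
      _ ≤ _ := hd2
  have h3 := allUpTo_spec h (d - 1) (by omega) (by omega)
  simp only [forceB_eq] at h3
  have h4 : Nat.succ (d - 1) = d := by omega
  rw [h4] at h3
  exact h3

/-- The main theorem on the check for one `m`. -/
theorem check_main (hBas : BasStmt) (hDn : DnStmt) (hMono : MonoStmt) (hGle : GleStmt)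
    (hBnd : BndStmt) (hVol : VolStmt) (hReg : RegStmt) (m : ℕ) (hm : 3 ≤ m) (hm2 : m ≤ 40)
    (hc : chk m = true) (d n w V k : ℤ) (hF : Feas m d n w V k) (hk : 2 * k ≤ V + 2) :
    m = 3 ∧ d = 2 ∧ (V = 20 ∨ V = 21) := by
  obtain ⟨b0, b1, b2, b3, b4, b5, b6, b7⟩ := hBas m d n w V k hF
  have hmz : (3 : ℤ) ≤ (m : ℤ) := by exact_mod_cast hm
  have hApos := b7 hmz
  have hd1 : 1 ≤ d := hF.hd
  have hn1 : 1 ≤ n := hF.hn
  have hVpos : 0 < V := by nlinarith
  obtain ⟨hd2, hn2⟩ := hDn m d n V hmz hd1 hn1 hVpos hApos b1 b3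
  have hG : G m d n ≤ 0 := hGle m d n V hmz hd2 hn1 hApos b1 b2
  have hdm : 2 * d < (m : ℤ) ^ 3 := by
    by_contra hcon
    obtain ⟨g1, g2⟩ := hBnd m d hmz (by linarith)
    have := hMono m d _ n hmz hd2 (le_refl _) hn2 g2 g1
    linarith
  have hVb := hVol m d n V hmz hd2 hn2 hdm hVpos b1
  -- pass to natural numbers
  have hPpos : 0 < P m d := by
    unfold P
    have : (0 : ℤ) < m * (m - 1) := by nlinarith
    exact mul_pos this (by linarith)
  have hThpos : 0 < Th m d V k := by
    have h1 : 0 < n * Th m d V k := by rw [hF.e1]; exact mul_pos hPpos hVpos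
    exact (pos_iff_pos_of_mul_pos h1).mp (by linarith)
  obtain ⟨T, hT⟩ := Int.eq_ofNat_of_zero_le hThpos.le
  obtain ⟨d', rfl⟩ := Int.eq_ofNat_of_zero_le (by linarith : 0 ≤ d)
  obtain ⟨n', rfl⟩ := Int.eq_ofNat_of_zero_le (by linarith : 0 ≤ n)
  obtain ⟨V', rfl⟩ := Int.eq_ofNat_of_zero_le hVpos.le
  obtain ⟨k', rfl⟩ := Int.eq_ofNat_of_zero_le (by linarith [hF.hk] : 0 ≤ k)
  obtain ⟨w', rfl⟩ := Int.eq_ofNat_of_zero_le (by linarith [hF.hw] : 0 ≤ w)
  have e1 := hF.e1
  have hhk := hF.hk
  have hhx := hF.hx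
  rw [hT] at e1 b4 b5 b6 hThpos
  have hm1 : 1 ≤ m := by omega
  have hd1' : 1 ≤ d' := by exact_mod_cast hd1
  have hd2' : 2 ≤ d' := by exact_mod_cast hd2
  have hk3 : 3 ≤ k' := by exact_mod_cast hhk
  have hk' : 2 * k' ≤ V' + 2 := by exact_mod_cast hk
  have hx' : m * d' + 1 ≤ k' := by exact_mod_cast hhx
  have hTpos : 1 ≤ T := by exact_mod_cast hThpos
  have hn1' : 1 ≤ n' := by exact_mod_cast hn1
  have hV1 : 1 ≤ V' := by exact_mod_cast hVpos
  have hPn := castP m d' hm1
  have eT : n' * T = m * (m - 1) * d' * V' := by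
    have : ((n' * T : ℕ) : ℤ) = ((m * (m - 1) * d' * V' : ℕ) : ℤ) := by
      rw [Nat.cast_mul (m * (m - 1) * d') V', hPn]
      push_cast
      linarith
    exact_mod_cast this
  have eW : w' * T = m * (m - 1) * d' * (k' - 1) := by
    have : ((w' * T : ℕ) : ℤ) = ((m * (m - 1) * d' * (k' - 1) : ℕ) : ℤ) := by
      rw [Nat.cast_mul (m * (m - 1) * d') (k' - 1), hPn, Nat.cast_sub (by omega)]
      push_cast
      linarith
    exact_mod_cast this
  have hV30 : V' < 2 ^ 30 := by
    have h1 : (m : ℤ) ^ 5 ≤ 40 ^ 5 := by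
      have : (m : ℤ) ≤ 40 := by exact_mod_cast hm2
      exact pow_le_pow_left₀ (by linarith) this 5
    have h2 : (V' : ℤ) < 2 ^ 30 := by
      have : (4 : ℤ) * 40 ^ 5 < 3 * 2 ^ 30 := by norm_num
      linarith
    exact_mod_cast h2
  have hrej : rej m d' V' T = false :=
    rej_sound m d' V' T k' hm1 hd1' hTpos ⟨n', by rw [← eT]; ring⟩ hV30 b6 hk' (by omega)
      ⟨w', by rw [← eW]; ring⟩ hx'
  have hchk1 : chk1 m = true := by
    unfold chk at hc
    simp only [Bool.and_eq_true] at hc
    exact hc.1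
  have hchk2 : chk2 m = true := by
    unfold chk at hc
    simp only [Bool.and_eq_true] at hc
    exact hc.2
  have hcast : ((m * (m - 1) : ℕ) : ℤ) = (m : ℤ) * (m - 1) := by
    rw [Nat.cast_mul, Nat.cast_sub hm1]; push_cast; ring
  have hn2' : m * (m - 1) + 1 ≤ n' := by
    have : ((m * (m - 1) + 1 : ℕ) : ℤ) ≤ (n' : ℤ) := by
      rw [Nat.cast_add, hcast]; push_cast; linarith
    exact_mod_cast this
  have hfin : rejE m d' V' T = true := by
    by_cases hcase : n' + 1 ≤ 2 * (m * (m - 1))
    · have hd3 : 2 * d' < m * m * m := by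
        have : ((2 * d' : ℕ) : ℤ) < ((m * m * m : ℕ) : ℤ) := by push_cast; linarith
        exact_mod_cast this
      exact chkD1_sound hMono m d' n' V' T hm hd2' hn2' hcase b1 hApos eT hG
        (chk1_d hchk1 d' hd2' hd3)
    · have hcase2 : 2 * (m * (m - 1)) ≤ n' := by omega
      have hcase3 : 2 * (m : ℤ) * (m - 1) ≤ (n' : ℤ) := by
        have : ((2 * (m * (m - 1)) : ℕ) : ℤ) ≤ (n' : ℤ) := by exact_mod_cast hcase2
        rw [Nat.cast_mul, hcast] at this
        push_cast at this
        linarith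
      obtain ⟨r1, r2, r3⟩ := hReg m d' n' V' hmz hd2 hn1 hcase3 hVpos b1 b2
      have hd3 : 3 * (4 * m - 3) * d' ≤ 16 * (m * (m - 1)) + 6 := by
        have h1 : QS3D.c m d' ≤ 4 * m * (m - 1) * (d' : ℤ) ^ 2 := by
          unfold QS3D.c
          nlinarith
        have h2 : (d' : ℤ) ^ 2 * (3 * V') ≤ (d' : ℤ) ^ 2 * (16 * (m * (m - 1))) := by nlinarith
        have h3 : (3 * (V' : ℤ)) ≤ 16 * (m * (m - 1)) :=
          le_of_mul_le_mul_left h2 (by positivity)
        have a : 3 ≤ 4 * m := by omega
        have : ((3 * (4 * m - 3) * d' : ℕ) : ℤ) ≤ ((16 * (m * (m - 1)) + 6 : ℕ) : ℤ) := by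
          rw [Nat.cast_mul, Nat.cast_mul, Nat.cast_sub a, Nat.cast_add, Nat.cast_mul 16, hcast]
          push_cast
          linarith
        exact_mod_cast this
      exact chkD2_sound m d' V' T hm hm2 hd2' hV1 b5 r1 r2 r3 (chk2_d hchk2 hm d' hd2' hd3)
  obtain ⟨r1, r2, r3⟩ := rejE_exc hfin hrej
  refine ⟨r1, by exact_mod_cast r2, ?_⟩
  rcases r3 with r3 | r3
  · left; exact_mod_cast r3
  · right; exact_mod_cast r3

end Chk

end QS3D
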