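import Pool.Agent.Lib.MP_72d5fb_co.Spec

/-! # MP_72d5fb_co: module Vol -/

namespace QS3D

theorem vol : VolStmt := by
  intro m d n V hm hd hn hdm hV h1
  have hp : 6 ≤ m * (m - 1) := by nlinarith
  have hn0 : 0 < n := by linarith
  have hPn : P m d ≤ d * n := by
    unfold P
    nlinarith
  have hP0 : 0 < P m d := by
    unfold P
    nlinarith
  have hAB : (2 * d - 1) * n ^ 2 ≤ A m d n * Bq m d n := by
    have e : A m d n * Bq m d n - (2 * d - 1) * n ^ 2 =
        (d * n - P m d) * (d * n + P m d - 2 * n) := by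
      unfold A Bq
      ring
    have h2 : 0 ≤ d * n - P m d := by linarith
    have h3 : 0 ≤ d * n + P m d - 2 * n := by
      have : 0 ≤ (d - 2) * n := mul_nonneg (by linarith) hn0.le
      linarith
    have := mul_nonneg h2 h3
    linarith
  have h4 : V * ((2 * d - 1) * n ^ 2) ≤ n * (n * c m d - 2 * P m d) := by
    rw [← h1]
    exact mul_le_mul_of_nonneg_left hAB hV.le
  have h5 : V * (2 * d - 1) < c m d := by
    have h6 : 0 < n * (2 * P m d) := by positivity
    have h7 : n ^ 2 * (V * (2 * d - 1)) < n ^ 2 * c m d := by nlinarith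
    exact lt_of_mul_lt_mul_left h7 (by positivity)
  have h8 : c m d ≤ 4 * (m * (m - 1)) * d ^ 2 := by
    unfold c
    have : 2 ≤ 2 * (2 * m - 1) * d := by nlinarith
    nlinarith
  have h9 : 3 * d ^ 2 ≤ 2 * d * (2 * d - 1) := by nlinarith
  have h10 : 3 * V < 8 * (m * (m - 1)) * d := by
    have h11 : (2 * d - 1) * (3 * V) < (2 * d - 1) * (8 * (m * (m - 1)) * d) := by
      have h12 : 4 * (m * (m - 1)) * (3 * d ^ 2) ≤ 4 * (m * (m - 1)) * (2 * d * (2 * d - 1)) :=
        mul_le_mul_of_nonneg_left h9 (by linarith)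
      nlinarith
    exact lt_of_mul_lt_mul_left h11 (by linarith)
  have h13 : 4 * (m * (m - 1)) * (2 * d) ≤ 4 * (m * (m - 1)) * m ^ 3 :=
    mul_le_mul_of_nonneg_left hdm.le (by linarith)
  have h14 : 4 * (m * (m - 1)) * m ^ 3 < 4 * m ^ 5 := by
    have : 0 < m ^ 4 := by positivity
    nlinarith
  nlinarith

end QS3D
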