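import Pool.Agent.Lib.MP_72d5fb_co.Des
import Pool.Agent.Lib.MP_72d5fb_co.Bas
import Pool.Agent.Lib.MP_72d5fb_co.Small
import Pool.Agent.Lib.MP_72d5fb_co.Dn
import Pool.Agent.Lib.MP_72d5fb_co.Mono
import Pool.Agent.Lib.MP_72d5fb_co.Gle
import Pool.Agent.Lib.MP_72d5fb_co.Bnd
import Pool.Agent.Lib.MP_72d5fb_co.Vol
import Pool.Agent.Lib.MP_72d5fb_co.Reg
import Pool.Agent.Lib.MP_72d5fb_co.Sound3
import Pool.Agent.Lib.MP_72d5fb_co.RunA
import Pool.Agent.Lib.MP_72d5fb_co.RunB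
import Pool.Agent.Lib.MP_72d5fb_co.RunC
import Pool.Agent.Lib.MP_72d5fb_co.RunD
import Pool.Agent.Lib.MP_72d5fb_co.RunE
import Pool.Agent.Lib.MP_72d5fb_co.RunF
import Pool.Agent.Lib.MP_72d5fb_co.RunG
import Pool.Agent.Lib.MP_72d5fb_co.RunH
import Pool.Agent.Lib.MP_72d5fb_co.RunI
import Pool.Agent.Lib.MP_72d5fb_co.RunJ
import Pool.Agent.Lib.MP_72d5fb_co.RunK
import Pool.Agent.Lib.MP_72d5fb_co.RunZ

/-!
# MP_72d5fb_co: the main theorems
-/

namespace QS3D

open Finset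

theorem chk_all (m : ℕ) (hm : 3 ≤ m) (hm2 : m ≤ 40) : Chk.chk m = true := by
  interval_cases m
  · exact Chk.run3
  · exact Chk.run4
  · exact Chk.run5
  · exact Chk.run6
  · exact Chk.run7
  · exact Chk.run8
  · exact Chk.run9
  · exact Chk.run10
  · exact Chk.run11
  · exact Chk.run12
  · exact Chk.run13
  · exact Chk.run14
  · exact Chk.run15
  · exact Chk.run16
  · exact Chk.run17
  · exact Chk.run18
  · exact Chk.run19
  · exact Chk.run20
  · exact Chk.run21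
  · exact Chk.run22
  · exact Chk.run23
  · exact Chk.run24
  · exact Chk.run25
  · exact Chk.run26
  · exact Chk.run27
  · exact Chk.run28
  · exact Chk.run29
  · exact Chk.run30
  · exact Chk.run31
  · exact Chk.run32
  · exact Chk.run33
  · exact Chk.run34
  · exact Chk.run35
  · exact Chk.run36
  · exact Chk.run37
  · exact Chk.run38
  · exact Chk.run39
  · exact Chk.run40

/-- The arithmetic consequences for all `m`. -/
theorem feas_bounds {m d n w V k : ℤ} (hF : Feas m d n w V k) :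
    3 ≤ m ∧ 2 ≤ d ∧ 2 * m * d ≤ V ∧ 0 < Th m d V k ∧ 2 * d < m ^ 3 ∧ 3 * V < 4 * m ^ 5 := by
  obtain ⟨b0, b1, b2, b3, b4, b5, b6, b7⟩ := bas m d n w V k hF
  have hm := small m d n w V k hF b0 b1
  have hApos := b7 hm
  have hd1 : 1 ≤ d := hF.hd
  have hn1 : 1 ≤ n := hF.hn
  have hVpos : 0 < V := by nlinarith
  obtain ⟨hd2, hn2⟩ := dn m d n V hm hd1 hn1 hVpos hApos b1 b3
  have hG : G m d n ≤ 0 := gle m d n V hm hd2 hn1 hApos b1 b2
  have hdm : 2 * d < m ^ 3 := by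
    by_contra hcon
    obtain ⟨g1, g2⟩ := bnd m d hm (by linarith)
    have := mono m d _ n hm hd2 (le_refl _) hn2 g2 g1
    linarith
  have hVb := vol m d n V hm hd2 hn2 hdm hVpos b1
  have hPpos : 0 < P m d := by
    unfold P
    have : 0 < m * (m - 1) := by nlinarith
    exact mul_pos this (by linarith)
  have hThpos : 0 < Th m d V k := by
    have h1 : 0 < n * Th m d V k := by rw [hF.e1]; exact mul_pos hPpos hVpos
    exact (pos_iff_pos_of_mul_pos h1).mp (by linarith)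
  exact ⟨hm, hd2, b0, hThpos, hdm, hVb⟩

/-- The bound for the number of blocks. -/
theorem bbound {m d n w k v b r : ℤ} (hF : Feas m d n w (v - 2) k) (hkz : 3 ≤ k)
    (hqz : k + 1 ≤ v) (hb0 : 0 ≤ b) (zrq : r * (v - k) = d * n * (v - 1))
    (zrb : r * v = b * k) (B1 : 3 ≤ m) (B2 : 2 ≤ d) (B3 : 2 * m * d ≤ v - 2)
    (B4 : 0 < Th m d (v - 2) k) (B5 : 2 * d < m ^ 3) (B6 : 3 * (v - 2) < 4 * m ^ 5) :
    b < m ^ 18 := by
  have hd1 : (1 : ℤ) ≤ d := by linarith
  have hmd : 6 ≤ m * d := by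
    have : 3 * 2 ≤ m * d := mul_le_mul B1 B2 (by norm_num) (by linarith)
    linarith
  have hV : (12 : ℤ) ≤ v - 2 := by
    have : 2 * m * d = 2 * (m * d) := by ring
    linarith
  have hn1 : (1 : ℤ) ≤ n := hF.hn
  have hmpos : (0 : ℤ) < m := by linarith
  have hv0 : (0 : ℤ) ≤ v := by linarith
  have hV0 : (0 : ℤ) ≤ v - 2 := by linarith
  have hbk : b * (k * (v - k)) = d * n * v * (v - 1) := by
    linear_combination (-(v - k)) * zrb + v * zrq
  have hkq : v - 1 ≤ k * (v - k) := by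
    have h1 : 0 ≤ (k - 1) * (v - k - 1) := mul_nonneg (by linarith) (by linarith)
    have h2 : (k - 1) * (v - k - 1) = k * (v - k) - (v - 1) := by ring
    linarith
  have h5 : b * (v - 1) ≤ (d * n * v) * (v - 1) := by
    calc b * (v - 1) ≤ b * (k * (v - k)) := mul_le_mul_of_nonneg_left hkq hb0
      _ = d * n * v * (v - 1) := hbk
      _ = _ := by ring
  have h6 : b ≤ d * n * v := le_of_mul_le_mul_right h5 (by linarith)
  have hnP : n ≤ P m d * (v - 2) := by
    rw [← hF.e1]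
    have h1 : 0 ≤ n * (Th m d (v - 2) k - 1) := mul_nonneg (by linarith) (by linarith)
    have h2 : n * (Th m d (v - 2) k - 1) = n * Th m d (v - 2) k - n := by ring
    linarith
  have hPm : P m d ≤ m ^ 2 * d := by
    unfold P
    have h1 : 0 ≤ m * d := by linarith
    have h2 : m * (m - 1) * d = m ^ 2 * d - m * d := by ring
    linarith
  have h7 : n ≤ m ^ 2 * d * (v - 2) :=
    hnP.trans (mul_le_mul_of_nonneg_right hPm hV0)
  have h8 : b ≤ d * (m ^ 2 * d * (v - 2)) * v := by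
    refine h6.trans ?_
    exact mul_le_mul_of_nonneg_right (mul_le_mul_of_nonneg_left h7 (by linarith)) hv0
  -- sizes
  have h9 : 4 * d ^ 2 ≤ m ^ 6 := by
    have h9a : (2 * d) ^ 2 ≤ (m ^ 3) ^ 2 :=
      pow_le_pow_left₀ (by linarith) B5.le 2
    calc 4 * d ^ 2 = (2 * d) ^ 2 := by ring
      _ ≤ (m ^ 3) ^ 2 := h9a
      _ = _ := by ring
  have h10 : 9 * ((v - 2) * v) ≤ 32 * m ^ 10 := by
    have h10a : (3 * (v - 2)) ^ 2 ≤ (4 * m ^ 5) ^ 2 :=
      pow_le_pow_left₀ (by linarith) B6.le 2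
    have h10b : 9 * ((v - 2) * v) ≤ 2 * (3 * (v - 2)) ^ 2 := by
      have h1 : 0 ≤ (v - 2) * (v - 4) := mul_nonneg hV0 (by linarith)
      have h2 : 2 * (3 * (v - 2)) ^ 2 = 9 * ((v - 2) * v) + 9 * ((v - 2) * (v - 4)) := by ring
      linarith
    calc 9 * ((v - 2) * v) ≤ 2 * (3 * (v - 2)) ^ 2 := h10b
      _ ≤ 2 * (4 * m ^ 5) ^ 2 := by linarith
      _ = _ := by ring
  have h10c : 0 ≤ 9 * ((v - 2) * v) := mul_nonneg (by norm_num) (mul_nonneg hV0 hv0)
  have h11 : 36 * b ≤ 32 * m ^ 18 := by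
    calc 36 * b ≤ 36 * (d * (m ^ 2 * d * (v - 2)) * v) := by linarith
      _ = m ^ 2 * ((4 * d ^ 2) * (9 * ((v - 2) * v))) := by ring
      _ ≤ m ^ 2 * (m ^ 6 * (32 * m ^ 10)) := by
          apply mul_le_mul_of_nonneg_left _ (by positivity)
          exact mul_le_mul h9 h10 h10c (by positivity)
      _ = _ := by ring
  have h12 : (0 : ℤ) < m ^ 18 := by positivity
  linarith

/-- The two exceptional parameter sets. -/
theorem exc {n w V k : ℤ} (hF : Feas 3 2 n w V k) (hk : 2 * k ≤ V + 2) (hV : V = 20 ∨ V = 21) :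
    (V = 20 ∧ k = 7 ∧ n = 20) ∨ (V = 21 ∧ k = 7 ∧ n = 28) := by
  have hx := hF.hx
  have e1 := hF.e1
  have e3 := hF.e3
  have hk7 : 7 ≤ k := by linarith
  rcases hV with rfl | rfl
  · left
    have hk11 : k ≤ 11 := by linarith
    unfold Th u at e3
    unfold Th P at e1
    interval_cases k
    · exact ⟨rfl, rfl, by linarith⟩
    all_goals norm_num at e3
  · right
    have hk11 : k ≤ 11 := by linarith
    unfold Th u at e3
    unfold Th P at e1
    interval_cases k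
    · exact ⟨rfl, rfl, by linarith⟩
    all_goals norm_num at e3

/-- The arithmetic for `m ≤ 40`. -/
theorem feas_forty {m d n w V k : ℤ} (hF : Feas m d n w V k) (hm : m ≤ 40) :
    m = 3 ∧ d = 2 ∧ ((V = 20 ∧ k = 7 ∧ n = 20) ∨ (V = 21 ∧ k = 7 ∧ n = 28) ∨
      (V = 20 ∧ k = 15 ∧ n = 20) ∨ (V = 21 ∧ k = 16 ∧ n = 28)) := by
  have hm3 : 3 ≤ m := (feas_bounds hF).1
  have key : ∀ w k : ℤ, Feas m d n w V k → 2 * k ≤ V + 2 →
      m = 3 ∧ d = 2 ∧ ((V = 20 ∧ k = 7 ∧ n = 20) ∨ (V = 21 ∧ k = 7 ∧ n = 28)) := by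
    intro w k hF hk
    obtain ⟨m', rfl⟩ := Int.eq_ofNat_of_zero_le (by linarith : 0 ≤ m)
    have h3 : 3 ≤ m' := by exact_mod_cast hm3
    have h40 : m' ≤ 40 := by exact_mod_cast hm
    obtain ⟨r1, r2, r3⟩ := Chk.check_main bas dn mono gle bnd vol reg m' h3 h40
      (chk_all m' h3 h40) d n w V k hF hk
    subst r1
    subst r2
    refine ⟨rfl, rfl, ?_⟩
    exact exc hF hk r3
  rcases le_or_gt (2 * k) (V + 2) with h | h
  · obtain ⟨r1, r2, r3⟩ := key w k hF h
    refine ⟨r1, r2, ?_⟩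
    rcases r3 with r3 | r3
    · exact Or.inl r3
    · exact Or.inr (Or.inl r3)
  · obtain ⟨r1, r2, r3⟩ := key (n - w) (V + 2 - k) (feas_compl hm3 hF) (by linarith)
    refine ⟨r1, r2, ?_⟩
    rcases r3 with ⟨s1, s2, s3⟩ | ⟨s1, s2, s3⟩
    · exact Or.inr (Or.inr (Or.inl ⟨s1, by linarith, s3⟩))
    · exact Or.inr (Or.inr (Or.inr ⟨s1, by linarith, s3⟩))

/-- Main theorem. -/
theorem core {α ι : Type} [Fintype α] [DecidableEq α] [Fintype ι] [DecidableEq ι]
    (B : ι → Finset α) (k l x y : ℕ) (hD : IsDesign3 B k l) (hQ : IsQS B x y) (hx : 0 < x)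
    (hx' : 2 * k < Fintype.card α + x) :
    ∃ m : ℕ, 3 ≤ m ∧ k = x + m * (y - x) ∧
      IsLeast {μ : ℝ | ∃ z : ι → ℝ, z ≠ 0 ∧ (adj ℝ B y).mulVec z = μ • z} (-(m : ℝ)) ∧
      2 * (y - x) < m ^ 3 ∧ 3 * (Fintype.card α - 2) < 4 * m ^ 5 ∧ Fintype.card ι < m ^ 18 ∧
      (m ≤ 40 → (Fintype.card α, k, l, x, y) ∈
        ({(22, 7, 4, 1, 3), (22, 15, 52, 9, 11), (23, 7, 5, 1, 3), (23, 16, 80, 10, 12)} :
          Finset (ℕ × ℕ × ℕ × ℕ × ℕ))) := by
  obtain ⟨m, d, n, w, lam, r, hy, hk, hr, hlam, hl, hlr, hrb, hF, hz, hz'⟩ :=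
    des B k l x y hD hQ hx (by omega)
  obtain ⟨v, hv⟩ : ∃ v, Fintype.card α = v := ⟨_, rfl⟩
  obtain ⟨b, hb⟩ : ∃ b, Fintype.card ι = b := ⟨_, rfl⟩
  rw [hv] at hF hl hlr hrb hx' ⊢
  rw [hb] at hrb ⊢
  have h3 := hD.three_le
  have hlt := hD.lt_card
  rw [hv] at hlt
  obtain ⟨B1, B2, B3, B4, B5, B6⟩ := feas_bounds hF
  have hyx : y - x = d := by omega
  have hm3 : 3 ≤ m := by exact_mod_cast B1
  -- `r (v - k) = d n (v - 1)`
  have zlr : (lam : ℤ) * ((v : ℤ) - 1) = r * (k - 1) := by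
    have : ((lam * (v - 1) : ℕ) : ℤ) = ((r * (k - 1) : ℕ) : ℤ) := by exact_mod_cast hlr
    rw [Nat.cast_mul, Nat.cast_mul, Nat.cast_sub (by omega), Nat.cast_sub (by omega)] at this
    push_cast at this
    exact this
  have zl : (l : ℤ) * ((v : ℤ) - 2) = lam * (k - 2) := by
    have : ((l * (v - 2) : ℕ) : ℤ) = ((lam * (k - 2) : ℕ) : ℤ) := by exact_mod_cast hl
    rw [Nat.cast_mul, Nat.cast_mul, Nat.cast_sub (by omega), Nat.cast_sub (by omega)] at this
    push_cast at this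
    exact this
  have zr : (r : ℤ) = lam + d * n := by exact_mod_cast hr
  have zrq : (r : ℤ) * (v - k) = d * n * (v - 1) := by
    linear_combination zlr + ((v : ℤ) - 1) * zr
  have zrb : (r : ℤ) * v = b * k := by exact_mod_cast hrb
  refine ⟨m, hm3, by rw [hyx]; exact hk, ⟨hz, ?_⟩, ?_, ?_, ?_, ?_⟩
  · rintro μ ⟨z, hz0, hzz⟩
    have h1 := hz' z
    rw [hzz] at h1
    have h2 : z ⬝ᵥ (μ • z) = μ * (z ⬝ᵥ z) := by
      rw [dotProduct_smul, smul_eq_mul]
    rw [h2] at h1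
    have h4 : 0 < z ⬝ᵥ z := by
      have h5 : (z ⬝ᵥ z) = ∑ i, z i ^ 2 := by
        unfold dotProduct
        exact Finset.sum_congr rfl (fun i _ => by ring)
      rw [h5]
      obtain ⟨i, hi⟩ : ∃ i, z i ≠ 0 := by
        by_contra hcon
        push Not at hcon
        exact hz0 (funext hcon)
      exact Finset.sum_pos' (fun i _ => sq_nonneg _) ⟨i, Finset.mem_univ _, by positivity⟩
    exact le_of_mul_le_mul_right h1 h4
  · rw [hyx]; exact_mod_cast B5
  · have : ((3 * (v - 2) : ℕ) : ℤ) < ((4 * m ^ 5 : ℕ) : ℤ) := by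
      rw [Nat.cast_mul, Nat.cast_sub (by omega)]
      push_cast
      linarith
    exact_mod_cast this
  · -- the bound for `b`
    have h13 : (b : ℤ) < (m : ℤ) ^ 18 :=
      bbound hF (by exact_mod_cast h3) (by exact_mod_cast hlt) (Int.natCast_nonneg b) zrq zrb
        B1 B2 B3 B4 B5 B6
    exact_mod_cast h13
  · intro hm40
    obtain ⟨r1, r2, r3⟩ := feas_forty hF (by exact_mod_cast hm40)
    have hm' : m = 3 := by exact_mod_cast r1
    have hd' : d = 2 := by exact_mod_cast r2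
    subst hm'
    subst hd'
    simp only [Finset.mem_insert, Finset.mem_singleton, Prod.mk.injEq]
    rcases r3 with ⟨s1, s2, s3⟩ | ⟨s1, s2, s3⟩ | ⟨s1, s2, s3⟩ | ⟨s1, s2, s3⟩
    · have hv' : v = 22 := by omega
      have hk' : k = 7 := by exact_mod_cast s2
      have hn' : n = 20 := by exact_mod_cast s3
      subst hv' hk' hn'
      left
      omega
    · have hv' : v = 23 := by omega
      have hk' : k = 7 := by exact_mod_cast s2
      have hn' : n = 28 := by exact_mod_cast s3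
      subst hv' hk' hn'
      right; right; left
      omega
    · have hv' : v = 22 := by omega
      have hk' : k = 15 := by exact_mod_cast s2
      have hn' : n = 20 := by exact_mod_cast s3
      subst hv' hk' hn'
      right; left
      omega
    · have hv' : v = 23 := by omega
      have hk' : k = 16 := by exact_mod_cast s2
      have hn' : n = 28 := by exact_mod_cast s3
      subst hv' hk' hn'
      right; right; right
      omega

end QS3D
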