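import Pool.Agent.Lib.MP_72d5fb_co.Spec

/-!
# MP_72d5fb_co, module Pair
-/

set_option autoImplicit false

namespace QS3D

open Finset

namespace PairX

theorem dc {ι α : Type} (S : Finset ι) (T : Finset α) (R : ι → α → Prop)
    [∀ i p, Decidable (R i p)] :
    ∑ i ∈ S, (T.filter fun p => R i p).card = ∑ p ∈ T, (S.filter fun i => R i p).card := by
  simp only [Finset.card_filter]
  exact Finset.sum_comm

theorem key {α ι : Type} [Fintype α] [DecidableEq α] [Fintype ι] (B : ι → Finset α) (k l : ℕ)
    (h : IsDesign3 B k l) {p q : α} (hpq : p ≠ q) :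
    l * (Fintype.card α - 2) = (univ.filter fun i => p ∈ B i ∧ q ∈ B i).card * (k - 2) := by
  have h1 := dc (univ.filter fun i => p ∈ B i ∧ q ∈ B i) (((univ : Finset α).erase p).erase q)
    (fun i s => s ∈ B i)
  have h2 : ∀ i ∈ (univ.filter fun i => p ∈ B i ∧ q ∈ B i),
      ((((univ : Finset α).erase p).erase q).filter fun s => s ∈ B i).card = k - 2 := by
    intro i hi
    rw [Finset.mem_filter] at hi
    have e : (((univ : Finset α).erase p).erase q).filter (fun s => s ∈ B i) =
        ((B i).erase p).erase q := by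
      ext s
      simp only [Finset.mem_filter, Finset.mem_erase, Finset.mem_univ, and_true]
      tauto
    rw [e, Finset.card_erase_of_mem (Finset.mem_erase.2 ⟨hpq.symm, hi.2.2⟩),
      Finset.card_erase_of_mem hi.2.1, h.card_block]
    omega
  have h3 : ∀ s ∈ ((univ : Finset α).erase p).erase q,
      ((univ.filter fun i => p ∈ B i ∧ q ∈ B i).filter fun i => s ∈ B i).card = l := by
    intro s hs
    rw [Finset.mem_erase, Finset.mem_erase] at hs
    have e : (univ.filter fun i => p ∈ B i ∧ q ∈ B i).filter (fun i => s ∈ B i) =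
        univ.filter fun i => ({p, q, s} : Finset α) ⊆ B i := by
      ext i
      simp only [Finset.mem_filter, Finset.mem_univ, true_and, Finset.insert_subset_iff,
        Finset.singleton_subset_iff, and_assoc]
    rw [e]
    refine h.count _ ?_
    exact Finset.card_eq_three.2 ⟨p, q, s, hpq, hs.2.1.symm, hs.1.symm, rfl⟩
  rw [Finset.sum_congr rfl h2, Finset.sum_congr rfl h3, Finset.sum_const, Finset.sum_const,
    smul_eq_mul, smul_eq_mul, Finset.card_erase_of_mem
      (Finset.mem_erase.2 ⟨hpq.symm, Finset.mem_univ q⟩),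
    Finset.card_erase_of_mem (Finset.mem_univ p), Finset.card_univ] at h1
  rw [h1, mul_comm]
  have e : Fintype.card α - 1 - 1 = Fintype.card α - 2 := by omega
  rw [e]

end PairX

theorem pair : PairStmt := by
  intro α ι _ _ _ B k l h
  have h3 := h.three_le
  have hc : 1 < Fintype.card α := by have := h.lt_card; omega
  obtain ⟨p, q, hpq⟩ := Fintype.one_lt_card_iff.1 hc
  refine ⟨(univ.filter fun i => p ∈ B i ∧ q ∈ B i).card, ?_, PairX.key B k l h hpq⟩
  intro p' q' hpq'
  have h1 := PairX.key B k l h hpq
  have h2 := PairX.key B k l h hpq'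
  exact Nat.eq_of_mul_eq_mul_right (by omega) (h2.symm.trans h1)

end QS3D
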