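import Pool.Agent.Lib.MP_72d5fb_co.Chk

/-!
# MP_72d5fb_co: the first region in pieces (less memory for the kernel)
-/

set_option autoImplicit false

namespace QS3D

namespace Chk

/-- A piece of the first region: the numbers `d = i + 1` with `lo < i ≤ lo + len`. -/
def part (m lo len : ℕ) : Bool :=
  forceB (2 * m - 1) fun m1 =>
  forceB (m * (m - 1)) fun p2 =>
  allUpTo (fun i => forceB (Nat.add lo (Nat.succ i)) (fun d => chkD1 m m1 p2 d)) len

/-- The first region is checked for the numbers `d = i + 1`, `1 ≤ i ≤ b`. -/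
def Good (m b : ℕ) : Prop := ∀ i, 1 ≤ i → i ≤ b → chkD1 m (2 * m - 1) (m * (m - 1)) (i + 1) = true

theorem Good.zero (m : ℕ) : Good m 0 := by
  intro i h1 h2
  omega

theorem Good.app {m b : ℕ} (h : Good m b) (len c : ℕ) (hp : part m b len = true)
    (hc : Nat.add b len = c) : Good m c := by
  intro i h1 h2
  have hc' : b + len = c := hc
  rcases Nat.lt_or_ge b i with h3 | h3
  · unfold part at hp
    rw [forceB_eq, forceB_eq] at hp
    have h4 := allUpTo_spec hp (i - b) (by omega) (by omega)
    rw [forceB_eq] at h4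
    have h5 : Nat.add b (Nat.succ (i - b)) = i + 1 := by
      show b + (i - b + 1) = i + 1
      omega
    rw [h5] at h4
    exact h4
  · exact h i h1 h3

theorem allUpTo_of {p : ℕ → Bool} {k : ℕ} (h : ∀ t, 1 ≤ t → t ≤ k → p t = true) :
    allUpTo p k = true := by
  induction k with
  | zero => rfl
  | succ k ih =>
    have h1 : p (Nat.succ k) = true := h (k + 1) (by omega) (by omega)
    have h2 : allUpTo p k = true := ih fun t ht htk => h t ht (by omega)
    show (Bool.rec (motive := fun _ => Bool) false (allUpTo p k) (p (Nat.succ k))) = true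
    rw [h1]
    exact h2

/-- A piece of the second region: the numbers `d = i + 1` with `lo < i ≤ lo + len`. -/
def part2 (m lo len : ℕ) : Bool :=
  allUpTo (fun i => forceB (Nat.add lo (Nat.succ i)) (fun d => chkD2 m d)) len

/-- The second region is checked for the numbers `d = i + 1`, `1 ≤ i ≤ b`. -/
def Good2 (m b : ℕ) : Prop := ∀ i, 1 ≤ i → i ≤ b → chkD2 m (i + 1) = true

theorem Good2.zero (m : ℕ) : Good2 m 0 := by
  intro i h1 h2
  omega

theorem Good2.app {m b : ℕ} (h : Good2 m b) (len c : ℕ) (hp : part2 m b len = true)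
    (hc : Nat.add b len = c) : Good2 m c := by
  intro i h1 h2
  have hc' : b + len = c := hc
  rcases Nat.lt_or_ge b i with h3 | h3
  · unfold part2 at hp
    have h4 := allUpTo_spec hp (i - b) (by omega) (by omega)
    rw [forceB_eq] at h4
    have h5 : Nat.add b (Nat.succ (i - b)) = i + 1 := by
      show b + (i - b + 1) = i + 1
      omega
    rw [h5] at h4
    exact h4
  · exact h i h1 h3

theorem chk_of {m b b2 : ℕ} (h : Good m b) (hb : Nat.ble ((m * m * m - 1) / 2 - 1) b = true)
    (h2 : Good2 m b2)
    (hb2 : Nat.ble ((16 * (m * (m - 1)) + 6) / (3 * (4 * m - 3)) - 1) b2 = true) :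
    chk m = true := by
  have h1 : chk1 m = true := by
    unfold chk1
    rw [forceB_eq, forceB_eq]
    refine allUpTo_of fun t ht htk => ?_
    rw [forceB_eq]
    exact h t ht (htk.trans (Nat.le_of_ble_eq_true hb))
  have h3 : chk2 m = true := by
    unfold chk2
    refine allUpTo_of fun t ht htk => ?_
    rw [forceB_eq]
    exact h2 t ht (htk.trans (Nat.le_of_ble_eq_true hb2))
  unfold chk
  rw [h1, h3]
  rfl

end Chk

end QS3D
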