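import Pool.Agent.Lib.MP_72d5fb_co.Pc

/-! # MP_72d5fb_co: kernel computation, RunB -/

namespace QS3D

namespace Chk

set_option maxRecDepth 1000000 in
theorem p20_0 : part 20 0 3998 = true := by decide +kernel

set_option maxRecDepth 1000000 in
theorem q20_0 : part2 20 0 25 = true := by decide +kernel

theorem run20 : chk 20 = true :=
  chk_of
    ((Good.zero 20).app 3998 3998 p20_0 rfl)
    rfl
    ((Good2.zero 20).app 25 25 q20_0 rfl)
    rfl

set_option maxRecDepth 1000000 in
theorem p21_0 : part 21 0 4629 = true := by decide +kernel

set_option maxRecDepth 1000000 in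
theorem q21_0 : part2 21 0 26 = true := by decide +kernel

theorem run21 : chk 21 = true :=
  chk_of
    ((Good.zero 21).app 4629 4629 p21_0 rfl)
    rfl
    ((Good2.zero 21).app 26 26 q21_0 rfl)
    rfl

set_option maxRecDepth 1000000 in
theorem p22_0 : part 22 0 5322 = true := by decide +kernel

set_option maxRecDepth 1000000 in
theorem q22_0 : part2 22 0 28 = true := by decide +kernel

theorem run22 : chk 22 = true :=
  chk_of
    ((Good.zero 22).app 5322 5322 p22_0 rfl)
    rfl
    ((Good2.zero 22).app 28 28 q22_0 rfl)
    rfl

set_option maxRecDepth 1000000 in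
theorem p23_0 : part 23 0 6082 = true := by decide +kernel

set_option maxRecDepth 1000000 in
theorem q23_0 : part2 23 0 29 = true := by decide +kernel

theorem run23 : chk 23 = true :=
  chk_of
    ((Good.zero 23).app 6082 6082 p23_0 rfl)
    rfl
    ((Good2.zero 23).app 29 29 q23_0 rfl)
    rfl

end Chk

end QS3D
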