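import Pool.Agent.Lib.MP_72d5fb_co.Pc

/-! # MP_72d5fb_co: kernel computation, RunP35 -/

namespace QS3D

namespace Chk

set_option maxRecDepth 1000000 in
theorem p35_0 : part 35 0 283 = true := by decide +kernel

set_option maxRecDepth 1000000 in
theorem p35_1 : part 35 283 4382 = true := by decide +kernel

set_option maxRecDepth 1000000 in
theorem p35_2 : part 35 4665 8005 = true := by decide +kernel

set_option maxRecDepth 1000000 in
theorem p35_3 : part 35 12670 8766 = true := by decide +kernel

theorem good35 : Good 35 21436 :=
    (((((Good.zero 35).app 283 283 p35_0 rfl).app 4382 4665 p35_1 rfl).app 8005 12670 p35_2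
    rfl).app 8766 21436 p35_3 rfl)

end Chk

end QS3D
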