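import Pool.Agent.Lib.MP_72d5fb_co.Pc

/-! # MP_72d5fb_co: kernel computation, RunQ40 -/

namespace QS3D

namespace Chk

set_option maxRecDepth 1000000 in
theorem q40_0 : part2 40 0 8 = true := by decide +kernel

set_option maxRecDepth 1000000 in
theorem q40_1 : part2 40 8 8 = true := by decide +kernel

set_option maxRecDepth 1000000 in
theorem q40_2 : part2 40 16 8 = true := by decide +kernel

set_option maxRecDepth 1000000 in
theorem q40_3 : part2 40 24 8 = true := by decide +kernel

set_option maxRecDepth 1000000 in
theorem q40_4 : part2 40 32 8 = true := by decide +kernel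

set_option maxRecDepth 1000000 in
theorem q40_5 : part2 40 40 12 = true := by decide +kernel

theorem good2_40 : Good2 40 52 :=
    (((((((Good2.zero 40).app 8 8 q40_0 rfl).app 8 16 q40_1 rfl).app 8 24 q40_2 rfl).app 8 32
    q40_3 rfl).app 8 40 q40_4 rfl).app 12 52 q40_5 rfl)

end Chk

end QS3D
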