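import Pool.Agent.Lib.MP_72d5fb_co.Defs

/-!
# MP_72d5fb_co: the inequality of Ray-Chaudhuri and Wilson for two intersection numbers
-/

set_option autoImplicit false

namespace QS3D

open Finset

variable {α ι : Type} [Fintype α] [DecidableEq α] [Fintype ι] [DecidableEq ι]

/-- Sum over the blocks containing a set. -/
def tot (B : ι → Finset α) (z : ι → ℚ) (T : Finset α) : ℚ :=
  ∑ i, if T ⊆ B i then z i else 0

theorem sum_tot (B : ι → Finset α) (z : ι → ℚ) (m : ℕ) (S : Finset α) :
    ∑ T ∈ powersetCard m S, tot B z T = ∑ i, ((B i ∩ S).card.choose m : ℚ) * z i := by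
  unfold tot
  rw [Finset.sum_comm]
  refine Finset.sum_congr rfl (fun i _ => ?_)
  rw [← Finset.sum_filter, Finset.sum_const, nsmul_eq_mul]
  congr 2
  rw [← Finset.card_powersetCard]
  congr 1
  ext T
  simp only [Finset.mem_filter, Finset.mem_powersetCard, Finset.subset_inter_iff]
  tauto

theorem tot_pair (B : ι → Finset α) (z : ι → ℚ) (k : ℕ) (hB : ∀ i, (B i).card = k) (p : α) :
    ∑ q ∈ univ.erase p, tot B z {p, q} = ((k : ℚ) - 1) * tot B z {p} := by
  unfold tot
  rw [Finset.sum_comm, Finset.mul_sum]
  refine Finset.sum_congr rfl (fun i _ => ?_)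
  by_cases hp : p ∈ B i
  · have h1 : ∀ q ∈ univ.erase p, (if ({p, q} : Finset α) ⊆ B i then z i else 0)
        = if q ∈ B i then z i else 0 := by
      intro q _
      have : (({p, q} : Finset α) ⊆ B i) ↔ q ∈ B i := by
        rw [Finset.insert_subset_iff, Finset.singleton_subset_iff]
        exact ⟨fun h => h.2, fun h => ⟨hp, h⟩⟩
      simp only [this]
    rw [Finset.sum_congr rfl h1, if_pos (by rwa [Finset.singleton_subset_iff]),
      ← Finset.sum_filter, Finset.sum_const, nsmul_eq_mul]
    have h2 : (univ.erase p).filter (fun q => q ∈ B i) = (B i).erase p := by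
      ext q
      simp only [Finset.mem_filter, Finset.mem_erase, Finset.mem_univ, and_true]
    rw [h2, Finset.card_erase_of_mem hp, hB,
      Nat.cast_sub (by rw [← hB i]; exact Finset.card_pos.2 ⟨p, hp⟩)]
    push_cast
    ring
  · have h1 : ∀ q ∈ univ.erase p, (if ({p, q} : Finset α) ⊆ B i then z i else 0) = 0 := by
      intro q _
      rw [if_neg]
      intro h
      exact hp (h (Finset.mem_insert_self _ _))
    rw [Finset.sum_congr rfl h1, Finset.sum_const_zero, if_neg (by
      rwa [Finset.singleton_subset_iff]), mul_zero]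

/-- A vector which is killed by all pairs is zero. -/
theorem ker_pairs (B : ι → Finset α) (z : ι → ℚ) (k x y : ℕ) (hk : 2 ≤ k)
    (hB : ∀ i, (B i).card = k)
    (hall : ∀ i j, i ≠ j → (B i ∩ B j).card = x ∨ (B i ∩ B j).card = y) (hx : x < k) (hy : y < k)
    (hz : ∀ T : Finset α, T.card = 2 → tot B z T = 0) : z = 0 := by
  have h1 : ∀ p, tot B z {p} = 0 := by
    intro p
    have h2 := tot_pair B z k hB p
    rw [Finset.sum_eq_zero (fun q hq => hz _ (by
      rw [Finset.card_pair (Finset.ne_of_mem_erase hq).symm]))] at h2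
    have h3 : ((k : ℚ) - 1) ≠ 0 := by
      have : (2 : ℚ) ≤ k := by exact_mod_cast hk
      linarith
    exact (mul_eq_zero.1 h2.symm).resolve_left h3
  have h4 : ∀ S : Finset α, ∑ i, ((B i ∩ S).card : ℚ) * z i = 0 := by
    intro S
    have h5 := sum_tot B z 1 S
    simp only [Nat.choose_one_right] at h5
    rw [← h5]
    refine Finset.sum_eq_zero (fun T hT => ?_)
    obtain ⟨p, rfl⟩ := Finset.card_eq_one.1 (Finset.mem_powersetCard.1 hT).2
    exact h1 p
  have h6 : ∀ S : Finset α, ∑ i, ((B i ∩ S).card.choose 2 : ℚ) * z i = 0 := by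
    intro S
    rw [← sum_tot B z 2 S]
    exact Finset.sum_eq_zero (fun T hT => hz T (Finset.mem_powersetCard.1 hT).2)
  have h7 : ∑ i, z i = 0 := by
    have h8 := h4 univ
    simp only [Finset.inter_univ, hB] at h8
    rw [← Finset.mul_sum] at h8
    refine (mul_eq_zero.1 h8).resolve_left ?_
    have : (2 : ℚ) ≤ k := by exact_mod_cast hk
    linarith
  funext j
  have key : ∑ i, (((B i ∩ B j).card : ℚ) - x) * (((B i ∩ B j).card : ℚ) - y) * z i = 0 := by
    have h9 : ∀ i, (((B i ∩ B j).card : ℚ) - x) * (((B i ∩ B j).card : ℚ) - y) * z i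
        = 2 * (((B i ∩ B j).card.choose 2 : ℚ) * z i)
          + (1 - x - y) * (((B i ∩ B j).card : ℚ) * z i) + x * y * z i := by
      intro i
      rw [Nat.cast_choose_two]
      ring
    rw [Finset.sum_congr rfl (fun i _ => h9 i), Finset.sum_add_distrib, Finset.sum_add_distrib,
      ← Finset.mul_sum, ← Finset.mul_sum, ← Finset.mul_sum, h6, h4, h7]
    ring
  rw [Finset.sum_eq_single j] at key
  · rw [Finset.inter_self, hB] at key
    have hx' : ((k : ℚ) - x) ≠ 0 := by
      have : (x : ℚ) < k := by exact_mod_cast hx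
      linarith
    have hy' : ((k : ℚ) - y) ≠ 0 := by
      have : (y : ℚ) < k := by exact_mod_cast hy
      linarith
    exact (mul_eq_zero.1 key).resolve_left (mul_ne_zero hx' hy')
  · intro i _ hij
    rcases hall i j hij with h | h <;> rw [h] <;> ring
  · intro h
    exact absurd (mem_univ j) h

/-- The inequality of Ray-Chaudhuri and Wilson. -/
theorem rw_le (B : ι → Finset α) (k x y : ℕ) (hk : 2 ≤ k)
    (hB : ∀ i, (B i).card = k)
    (hall : ∀ i j, i ≠ j → (B i ∩ B j).card = x ∨ (B i ∩ B j).card = y) (hx : x < k)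
    (hy : y < k) : Fintype.card ι ≤ (Fintype.card α).choose 2 := by
  let f : (ι → ℚ) →ₗ[ℚ] ((powersetCard 2 (univ : Finset α)) → ℚ) :=
    { toFun := fun z T => tot B z T.1
      map_add' := by
        intro z z'
        funext T
        simp only [tot, Pi.add_apply]
        rw [← Finset.sum_add_distrib]
        refine Finset.sum_congr rfl (fun i _ => ?_)
        split_ifs <;> simp
      map_smul' := by
        intro c z
        funext T
        simp only [tot, Pi.smul_apply, smul_eq_mul, RingHom.id_apply]
        rw [Finset.mul_sum]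
        refine Finset.sum_congr rfl (fun i _ => ?_)
        split_ifs <;> simp }
  have hf : Function.Injective f := by
    rw [← LinearMap.ker_eq_bot, LinearMap.ker_eq_bot']
    intro z hz
    apply ker_pairs B z k x y hk hB hall hx hy
    intro T hT
    exact congrFun hz ⟨T, by rw [Finset.mem_powersetCard]; exact ⟨Finset.subset_univ _, hT⟩⟩
  have h1 := LinearMap.finrank_le_finrank_of_injective hf
  rw [Module.finrank_fintype_fun_eq_card, Module.finrank_fintype_fun_eq_card,
    Fintype.card_coe, Finset.card_powersetCard, Finset.card_univ] at h1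
  exact h1

end QS3D
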