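import Pool.Agent.Lib.MP_72d5fb_co.Chk

/-!
# MP_72d5fb_co: soundness of the tests, part 1
-/

namespace QS3D

namespace Chk

theorem beq_true {a b : ℕ} (h : a = b) : Nat.beq a b = true := by
  rw [h]; exact Nat.beq_refl b

theorem beq_false {a b : ℕ} (h : a ≠ b) : Nat.beq a b = false := by
  rw [← Bool.not_eq_true]
  intro h2
  exact h (Nat.eq_of_beq_eq_true h2)

theorem castu (m d : ℕ) (hm : 1 ≤ m) (hd : 1 ≤ d) :
    (((2 * m - 1) * d - 1 : ℕ) : ℤ) = u m d := by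
  have h1 : 1 ≤ 2 * m := by omega
  have h2 : 1 ≤ (2 * m - 1) * d := by
    have : 1 ≤ 2 * m - 1 := by omega
    exact Nat.mul_pos this hd
  unfold u
  rw [Nat.cast_sub h2, Nat.cast_mul, Nat.cast_sub h1]
  push_cast
  ring

theorem castP (m d : ℕ) (hm : 1 ≤ m) : ((m * (m - 1) * d : ℕ) : ℤ) = P m d := by
  unfold P
  rw [Nat.cast_mul, Nat.cast_mul, Nat.cast_sub hm]
  push_cast
  ring

theorem rej_sound (m d V T k : ℕ) (hm : 1 ≤ m) (hd : 1 ≤ d) (hT : 1 ≤ T)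
    (h1 : T ∣ m * (m - 1) * d * V) (hV : V < 2 ^ 30)
    (h2 : ((V : ℤ) + 2 - 2 * k) ^ 2 = (V : ℤ) ^ 2 - 2 * u m d * V + 2 * T)
    (hk : 2 * k ≤ V + 2) (hk1 : 1 ≤ k) (h3 : T ∣ m * (m - 1) * d * (k - 1))
    (h5 : m * d + 1 ≤ k) : rej m d V T = false := by
  obtain ⟨s, hs⟩ : ∃ s, V + 2 = 2 * k + s := ⟨V + 2 - 2 * k, by omega⟩
  have hu := castu m d hm hd
  obtain ⟨U, hU⟩ : ∃ U, (2 * m - 1) * d - 1 = U := ⟨_, rfl⟩
  rw [hU] at hu
  have hsz : ((V : ℤ) + 2 - 2 * k) = s := by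
    have : (V : ℤ) + 2 = 2 * k + s := by exact_mod_cast hs
    linarith
  rw [hsz, ← hu] at h2
  have h2' : s * s + 2 * U * V = V * V + 2 * T := by
    have : (s : ℤ) * s + 2 * U * V = V * V + 2 * T := by linarith
    exact_mod_cast this
  have hS : V * V + 2 * T - 2 * U * V = s * s := by omega
  have hle : 2 * U * V ≤ V * V + 2 * T := by omega
  have hsV : s ≤ V := by omega
  have hroot : root 30 (s * s) = s := by
    apply root_sq
    have h4 : (4 : ℕ) ^ 30 = 2 ^ 30 * 2 ^ 30 := by norm_num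
    rw [h4]
    have hs2 : s < 2 ^ 30 := by omega
    exact Nat.mul_lt_mul'' hs2 hs2
  have hkk : (V + 2 - s) / 2 = k := by omega
  have hpar : (V - s) % 2 = 0 := by omega
  unfold rej rejS
  rw [hU, hS, hroot, hkk]
  have e1 : Nat.beq T 0 = false := beq_false (by omega)
  have e2 : Nat.beq ((m * (m - 1) * d * V) % T) 0 = true := beq_true (Nat.mod_eq_zero_of_dvd h1)
  have e3 : Nat.ble (2 * U * V) (V * V + 2 * T) = true := Nat.ble_eq.mpr hle
  have e4 : Nat.beq (s * s) (s * s) = true := beq_true rfl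
  have e5 : Nat.ble s V = true := Nat.ble_eq.mpr hsV
  have e6 : Nat.beq ((V - s) % 2) 0 = true := beq_true hpar
  have e7 : Nat.beq ((m * (m - 1) * d * (k - 1)) % T) 0 = true :=
    beq_true (Nat.mod_eq_zero_of_dvd h3)
  have e8 : Nat.ble k (m * d) = false := by
    rw [← Bool.not_eq_true, Nat.ble_eq]; omega
  rw [e1, e2, e3, e4, e5, e6, e7, e8]
  rfl

/-- The exceptional cases. -/
theorem rejE_exc {m d V T : ℕ} (h : rejE m d V T = true) (h0 : rej m d V T = false) :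
    m = 3 ∧ d = 2 ∧ (V = 20 ∨ V = 21) := by
  unfold rejE at h
  rw [h0] at h
  simp only [Bool.false_or, Bool.and_eq_true, Bool.or_eq_true] at h
  obtain ⟨h1, h2, h3⟩ := h
  refine ⟨Nat.eq_of_beq_eq_true h1, Nat.eq_of_beq_eq_true h2, ?_⟩
  rcases h3 with h3 | h3
  · exact Or.inl (Nat.eq_of_beq_eq_true h3)
  · exact Or.inr (Nat.eq_of_beq_eq_true h3)

end Chk

end QS3D
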