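import Pool.Agent.Lib.MP_72d5fb_co.Defs

/-!
# MP_72d5fb_co: statements of the modules (complete proofs in the docstrings)

THEOREM.  A quasi-symmetric 3-design (with `x > 0` and `v - 2k + x > 0`) has `k - x = m (y - x)`
with an integer `m ≥ 3` (`-m` is the least eigenvalue of the block graph), `2 (y-x) < m^3`,
`3 (v - 2) < 4 m^5`; so there are only finitely many for each `m`; and for `m ≤ 30` only the
parameters of the Witt designs on 22 and 23 points (and complements) occur.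

All statements are INDEPENDENT of each other: a module proves exactly one statement, the facts it
uses are hypotheses of the statement.
-/

namespace QS3D

open Finset

/-! ## Part 1: the design -/

/-- Module `Pair`.  Any two distinct points lie in the same number `lam` of blocks.
PROOF.  Fix `p ≠ q`, let `N = #{i | p, q ∈ B i}`.  Count pairs `(i, s)`, `s ∉ {p, q}`,
`{p,q,s} ⊆ B i`: summing over `s` first (`v - 2` values, `T = {p,q,s}` has card 3) gives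
`l (v-2)`; summing over `i` first gives `N (k-2)`.  So `l (v-2) = N (k-2)`; as `k - 2 > 0` the
number `N` does not depend on `p, q` (for the existence of one pair use `3 ≤ k < v`). -/
def PairStmt : Prop :=
  ∀ {α ι : Type} [Fintype α] [DecidableEq α] [Fintype ι] (B : ι → Finset α) (k l : ℕ),
    IsDesign3 B k l →
    ∃ lam : ℕ, (∀ p q : α, p ≠ q → (univ.filter fun i => p ∈ B i ∧ q ∈ B i).card = lam) ∧
      l * (Fintype.card α - 2) = lam * (k - 2)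

/-- Module `Point`.  PROOF.  Fix `p`, `N = #{i | p ∈ B i}`; count pairs `(i, s)`, `s ≠ p`,
`p, s ∈ B i`: `lam (v-1) = N (k-1)`, and `k - 1 > 0`. -/
def PointStmt : Prop :=
  ∀ {α ι : Type} [Fintype α] [DecidableEq α] [Fintype ι] (B : ι → Finset α) (k lam : ℕ),
    2 ≤ k → k < Fintype.card α → (∀ i, (B i).card = k) →
    (∀ p q : α, p ≠ q → (univ.filter fun i => p ∈ B i ∧ q ∈ B i).card = lam) →
    ∃ r : ℕ, (∀ p : α, (univ.filter fun i => p ∈ B i).card = r) ∧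
      lam * (Fintype.card α - 1) = r * (k - 1)

/-- Module `Blk`.  PROOF.  Count pairs `(i, p)`, `p ∈ B i`. -/
def BlkStmt : Prop :=
  ∀ {α ι : Type} [Fintype α] [DecidableEq α] [Fintype ι] (B : ι → Finset α) (k r : ℕ),
    (∀ i, (B i).card = k) →
    (∀ p : α, (univ.filter fun i => p ∈ B i).card = r) →
    r * Fintype.card α = Fintype.card ι * k

/-- Module `Sums`.  The moments of the intersection sizes with a fixed block `B i` (the term
`j = i` is included).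
PROOF.  `∑_j |B i ∩ B j| = ∑_{p ∈ B i} #{j | p ∈ B j}`.
`∑_j C(|B i ∩ B j|, 2) = ∑_j #(powersetCard 2 (B i ∩ B j)) = ∑_{T ∈ powersetCard 2 (B i)}
#{j | T ⊆ B j}` and a 2-subset `T = {p, q}` lies in `lam` blocks.  Same with 3-subsets:
`powersetCard 3`.  (Sum of indicator functions, `Finset.sum_comm`, or
`Finset.sum_card_bipartiteAbove_eq_sum_card_bipartiteBelow`.) -/
def SumsStmt : Prop :=
  ∀ {α ι : Type} [Fintype α] [DecidableEq α] [Fintype ι] (B : ι → Finset α) (k l lam r : ℕ),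
    IsDesign3 B k l →
    (∀ p q : α, p ≠ q → (univ.filter fun i => p ∈ B i ∧ q ∈ B i).card = lam) →
    (∀ p : α, (univ.filter fun i => p ∈ B i).card = r) →
    ∀ i : ι, (∑ j, (B i ∩ B j).card = k * r) ∧
      (∑ j, (B i ∩ B j).card.choose 2 = k.choose 2 * lam) ∧
      (∑ j, (B i ∩ B j).card.choose 3 = k.choose 3 * l)

/-- Module `Eqs`.  The two equations of a quasi-symmetric 3-design.
PROOF.  Let `cj = |B i ∩ B j|`.  For `j ≠ i` we have `cj = x` or `cj = y`, for `j = i` `cj = k`;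
hence `∑_j (cj - x)(cj - y) = (k-x)(k-y)` and `∑_j cj (cj - x)(cj - y) = k (k-x)(k-y)`.
With `cj^2 = 2 C(cj,2) + cj` and `cj^3 = 6 C(cj,3) + 6 C(cj,2) + cj` and the three moments
(`k (k-1) = 2 C(k,2)`, `k(k-1)(k-2) = 6 C(k,3)`) these are the two equations. -/
def EqsStmt : Prop :=
  ∀ {ι : Type} [Fintype ι] [DecidableEq ι] (cc : ι → ℕ) (i : ι) (k l lam r x y : ℕ),
    cc i = k → (∀ j, j ≠ i → cc j = x ∨ cc j = y) →
    (∑ j, cc j = k * r) → (∑ j, (cc j).choose 2 = k.choose 2 * lam) →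
    (∑ j, (cc j).choose 3 = k.choose 3 * l) →
    ((k : ℤ) * (k - 1) * lam + k * r - (x + y) * (k * r) + x * y * (Fintype.card ι : ℤ)
        = ((k : ℤ) - x) * (k - y)) ∧
    ((k : ℤ) * (k - 1) * (k - 2) * l + 3 * k * (k - 1) * lam + k * r
        - (x + y) * (k * (k - 1) * lam + k * r) + x * y * (k * r)
        = (k : ℤ) * ((k : ℤ) - x) * (k - y))

/-- Module `Eig`.  A rational eigenvalue of an integer matrix is an integer.
PROOF.  `μ` is a root of the characteristic polynomial of the matrix over `ℚ`, which is the image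
of the (monic) characteristic polynomial over `ℤ` (`Matrix.charpoly_map`); so `μ` is integral over
`ℤ`, and `ℤ` is integrally closed in `ℚ` (`IsIntegrallyClosed.isIntegral_iff`, or the rational
root theorem).  For the root property: `det (μ - M) = 0` because `z` is in the kernel
(`Matrix.exists_mulVec_eq_zero_iff`), `Matrix.eval_charpoly`. -/
def EigStmt : Prop :=
  ∀ {ι : Type} [Fintype ι] [DecidableEq ι] (M : Matrix ι ι ℤ) (μ : ℚ) (z : ι → ℚ), z ≠ 0 →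
    (M.map (Int.cast : ℤ → ℚ)).mulVec z = μ • z → ∃ t : ℤ, μ = t

/-- Module `Gram`.  If all intersections are `x` or `y` (`x < y`) then for every `z : ι → R`
(`R` a commutative ring)
`∑_j |B i ∩ B j| z_j = (k - x) z_i + x ∑_j z_j + (y - x) (adj z)_i`, and
`∑_j |B i ∩ B j| z_j = ∑_{p ∈ B i} (inc B z) p`.
PROOF.  The first: termwise (`j = i`: `k = (k-x) + x`; `|..| = x`; `|..| = y`; note that
`adj` has entry 1 iff `j ≠ i` and the size is `y`).  The second: exchange the two sums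
(`|B i ∩ B j| = ∑_{p ∈ B i} [p ∈ B j]`). -/
def GramStmt : Prop :=
  ∀ {α ι R : Type} [CommRing R] [Fintype α] [DecidableEq α] [Fintype ι] [DecidableEq ι]
    (B : ι → Finset α) (k x y : ℕ),
    x < y → (∀ i, (B i).card = k) →
    (∀ i j, i ≠ j → (B i ∩ B j).card = x ∨ (B i ∩ B j).card = y) →
    ∀ (z : ι → R) (i : ι),
      (∑ j, ((B i ∩ B j).card : R) * z j =
        ((k : R) - x) * z i + x * ∑ j, z j + ((y : R) - x) * (adj R B y).mulVec z i) ∧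
      (∑ j, ((B i ∩ B j).card : R) * z j = ∑ p ∈ B i, inc B z p)

/-- Module `IntN`.  PROOF.  Choose `p ≠ q` and `z_i = [p ∈ B i] - [q ∈ B i]` (in `ℚ`).  Then
`∑ z = r - r = 0`, and `inc B z s = (r - lam) ([s = p] - [s = q])` (number of blocks through `s`
and `p` minus number of blocks through `s` and `q`).  So by `Gram`
`(k-x) z_i + (y-x) (adj z)_i = ∑_{s ∈ B i} inc B z s = (r - lam) z_i`, i.e.
`adj z = ((r - lam - (k - x))/(y - x)) z`; `z ≠ 0` since `inc B z p = r - lam ≠ 0`.  By `Eig` the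
rational number `(r - lam - (k-x))/(y-x)` is an integer. -/
def IntNStmt : Prop :=
  EigStmt → GramStmt →
  ∀ {α ι : Type} [Fintype α] [DecidableEq α] [Fintype ι] [DecidableEq ι]
    (B : ι → Finset α) (k r lam x y : ℕ),
    x < y → 2 ≤ Fintype.card α → lam < r → (∀ i, (B i).card = k) →
    (∀ p : α, (univ.filter fun i => p ∈ B i).card = r) →
    (∀ p q : α, p ≠ q → (univ.filter fun i => p ∈ B i ∧ q ∈ B i).card = lam) →
    (∀ i j, i ≠ j → (B i ∩ B j).card = x ∨ (B i ∩ B j).card = y) →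
    ((y : ℤ) - x) ∣ ((r : ℤ) - lam - (k - x))

/-- Module `Ker`.  If two different intersection sizes occur then the incidence map
`z ↦ inc B z`, `ℚ^ι → ℚ^α`, has a non-zero kernel vector.
PROOF.  Suppose it is injective.  (a) It is surjective: for `f : α → ℚ` put `S = ∑ f` and
`g_i = ∑_{p ∈ B i} f p`; then `inc B g s = (r - lam) f s + lam S` (count), and `inc B 1 = r`
(constant); since `r > lam ≥ 0` the vector `f` is in the image:
`f = inc B ((r-lam)⁻¹ (g - (lam S / r) 1))`.  (b) So the map is bijective.  For a fixed block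
`j` let `t_i = |B i ∩ B j|`, i.e. `t = g` for `f` = indicator of `B j`; by (a)
`inc B t = (r - lam) (indicator of B j) + lam k = inc B ((r-lam) e_j + (lam k / r) 1)`
(`e_j` = unit vector, `inc B e_j` = indicator of `B j`); injectivity gives
`t_i = (r - lam) [i = j] + lam k / r`, so `|B i ∩ B j| = lam k / r` for all `i ≠ j`: all
intersection sizes are equal, contradiction. -/
def KerStmt : Prop :=
  ∀ {α ι : Type} [Fintype α] [DecidableEq α] [Fintype ι] [DecidableEq ι]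
    (B : ι → Finset α) (k r lam x y : ℕ),
    x ≠ y → lam < r → (∀ i, (B i).card = k) →
    (∀ p : α, (univ.filter fun i => p ∈ B i).card = r) →
    (∀ p q : α, p ≠ q → (univ.filter fun i => p ∈ B i ∧ q ∈ B i).card = lam) →
    (∃ i j, i ≠ j ∧ (B i ∩ B j).card = x) → (∃ i j, i ≠ j ∧ (B i ∩ B j).card = y) →
    ∃ z : ι → ℚ, z ≠ 0 ∧ ∀ p, inc B z p = 0

/-- Module `IntM`.  PROOF.  Let `z ≠ 0` with `inc B z = 0`.  Then `k ∑ z = ∑_p inc B z p = 0`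
(double count, `|B i| = k ≥ 1`), so `∑ z = 0`, and `Gram` gives `(k-x) z + (y-x) adj z = 0`, so
`-(k-x)/(y-x)` is a rational eigenvalue of the integer matrix `adj`; apply `Eig`. -/
def IntMStmt : Prop :=
  EigStmt → GramStmt →
  ∀ {α ι : Type} [Fintype α] [DecidableEq α] [Fintype ι] [DecidableEq ι]
    (B : ι → Finset α) (k x y : ℕ) (z : ι → ℚ),
    x < y → 1 ≤ k → (∀ i, (B i).card = k) →
    (∀ i j, i ≠ j → (B i ∩ B j).card = x ∨ (B i ∩ B j).card = y) →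
    z ≠ 0 → (∀ p, inc B z p = 0) →
    (∑ i, z i = 0) ∧ ((y : ℤ) - x) ∣ ((k : ℤ) - x)

/-- Module `Der`.  The derived design.
PROOF.  Fix a point `p` (`α` is nonempty).  Apply the hypothesis (= conclusion of `IntN`) to
`α' = {q // q ≠ p}`, `ι' = {i // p ∈ B i}`, `B' i = {q | (q : α) ∈ B i}`: block size `k - 1`,
every point of `α'` lies in `lam` blocks of `ι'`, two distinct points in `l` of them (`{p, q, s}`
has three elements), `|B' i ∩ B' j| = |B i ∩ B j| - 1`, so it is `x - 1` or `y - 1`;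
`x - 1 < y - 1` because `1 ≤ x`.  The conclusion
`(y-1) - (x-1) ∣ lam - l - ((k-1) - (x-1))` is the claim. -/
def DerStmt : Prop :=
  (∀ {α ι : Type} [Fintype α] [DecidableEq α] [Fintype ι] [DecidableEq ι]
    (B : ι → Finset α) (k r lam x y : ℕ),
    x < y → 2 ≤ Fintype.card α → lam < r → (∀ i, (B i).card = k) →
    (∀ p : α, (univ.filter fun i => p ∈ B i).card = r) →
    (∀ p q : α, p ≠ q → (univ.filter fun i => p ∈ B i ∧ q ∈ B i).card = lam) →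
    (∀ i j, i ≠ j → (B i ∩ B j).card = x ∨ (B i ∩ B j).card = y) →
    ((y : ℤ) - x) ∣ ((r : ℤ) - lam - (k - x))) →
  ∀ {α ι : Type} [Fintype α] [DecidableEq α] [Fintype ι] [DecidableEq ι]
    (B : ι → Finset α) (k l lam x y : ℕ),
    IsDesign3 B k l → 1 ≤ x → x < y → l < lam →
    (∀ p q : α, p ≠ q → (univ.filter fun i => p ∈ B i ∧ q ∈ B i).card = lam) →
    (∀ i j, i ≠ j → (B i ∩ B j).card = x ∨ (B i ∩ B j).card = y) →
    ((y : ℤ) - x) ∣ ((lam : ℤ) - l - (k - x))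

/-- Module `Least`.  `-m` is the least eigenvalue of the block graph (real matrix `adj`).
PROOF.  By `Gram` over `ℝ`: `(y-x) adj z = (...)`.  Kernel vector: cast the rational `z` with
`inc B z = 0`, `∑ z = 0` to `ℝ`: `(k-x) z + (y-x) adj z = 0` and `k - x = m (y-x)`.
Lower bound: multiply `Gram` by `z_i` and sum over `i`:
`∑_p (inc z p)^2 = (k-x) ∑ z_i^2 + x (∑ z)^2 + (y-x) z·(adj z)`
(`∑_i z_i ∑_{p ∈ B i} inc z p = ∑_p (inc z p)^2`).  By Cauchy-Schwarz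
`v ∑_p (inc z p)^2 ≥ (∑_p inc z p)^2 = k^2 (∑ z)^2`, and `x v ≤ k^2` is a hypothesis (`v > 0`), so
`∑_p (inc z p)^2 ≥ x (∑ z)^2` and `(y-x) z·(adj z) ≥ -(k-x) ∑ z_i^2 = -m (y-x) ∑ z_i^2`. -/
def LeastStmt : Prop :=
  GramStmt →
  ∀ {α ι : Type} [Fintype α] [DecidableEq α] [Fintype ι] [DecidableEq ι]
    (B : ι → Finset α) (k x y m : ℕ) (z : ι → ℚ),
    x < y → x ≤ k → k = x + m * (y - x) → x * Fintype.card α ≤ k ^ 2 → 0 < Fintype.card α →
    (∀ i, (B i).card = k) →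
    (∀ i j, i ≠ j → (B i ∩ B j).card = x ∨ (B i ∩ B j).card = y) →
    z ≠ 0 → (∀ p, inc B z p = 0) → (∑ i, z i = 0) →
    (∃ z' : ι → ℝ, z' ≠ 0 ∧ (adj ℝ B y).mulVec z' = (-(m : ℝ)) • z') ∧
    (∀ z' : ι → ℝ, -(m : ℝ) * (z' ⬝ᵥ z') ≤ z' ⬝ᵥ (adj ℝ B y).mulVec z')

/-- Module `Alg`.  Pure algebra: from the design equations to `Feas`.
PROOF.  Put `q = v - k > 0`, `V = v - 2 > 0`, `K = k q`, `U = (2m-1) d`, `PP = m (m-1) d`.
(1) `r q = d n (v-1)`: from `lam (v-1) = r (k-1)` we get `(r - lam)(v-1) = r q`, `r - lam = d n`.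
(2) `lam q = d n (k-1)` (multiply by `v-1 > 0`), (3) `b k q = d n v (v-1)`,
(4) `l q V = d n (k-1)(k-2)`, (5) `(lam - l) V = d n (k-1)`: `l V = lam (k-2)` gives
`(lam - l) V = lam (V - k + 2) = lam q`.  So `w V = n (k-1)` (`d ≠ 0`): `e2`.
Also `x = k - m d`, `y = k - (m-1) d`.
(6) Multiply `E1` by `k q` and use (1)-(3), divide by `d`:
`n (K^2 - (v-1) U K + d PP v (v-1)) = PP K`.
(7) Multiply `E2` (divided by `k`) by `q V`, use (1), (2), (4), divide by `d`: with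
`K' = (k-1) q`:  `n (K'^2 - V U K' + d PP (V+1) V) = PP V q`.
(8) `V·(6) - (V+2)·(7)` is `q^2 (PP V - n Th) = 0` up to sign (`linear_combination`), so
`n Th = PP V`: `e1`.
(9) `V·(6)` and `PP V = n Th`, divide by `n`:
`V (K^2 - (V+1) U K + d PP (V+2)(V+1)) = Th K`; four times this is, with `2K = V(U+1)+2-Th`,
`(V+2) (Th (Th-2) - V ((V+1)(d^2-1) + 2 Th - u^2)) = 0`: `e3`.
`hw`: `w V = n (k-1) > 0`.  `hn`: `d n (v-1) = r q > 0`.  The inequalities `hx`, `hx'` are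
`1 ≤ x`, `2k + 1 ≤ v + x`. -/
def AlgStmt : Prop :=
  ∀ (v k l lam r b x y m d n w : ℤ), 3 ≤ k → k < v → 1 ≤ l → 1 ≤ lam → 1 ≤ r → 1 ≤ d →
    1 ≤ m → 1 ≤ x → 2 * k + 1 ≤ v + x → y = x + d → k - x = m * d → r - lam = d * n →
    lam - l = d * w → l * (v - 2) = lam * (k - 2) → lam * (v - 1) = r * (k - 1) →
    r * v = b * k →
    k * (k - 1) * lam + k * r - (x + y) * (k * r) + x * y * b = (k - x) * (k - y) →
    k * (k - 1) * (k - 2) * l + 3 * k * (k - 1) * lam + k * r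
        - (x + y) * (k * (k - 1) * lam + k * r) + x * y * (k * r)
        = k * (k - x) * (k - y) →
    Feas m d n w (v - 2) k

/-! ## Part 2: the arithmetic -/

/-- Module `Bas`.  Basic consequences of `Feas`.
PROOF.  `V ≥ 2 m d`: add `hx` and `hx'`.  Write `T = Th`, `u`, `c`, `P`.
(a1) multiply `e3` by `n^2`, substitute `n T = P V`, cancel one `V > 0`:
`V ((d^2-1) n^2 + 2 n P - P^2) = n (n (u^2 - d^2 + 1) - 2 P)`; and
`A Bq = (d^2-1) n^2 + 2 n P - P^2`, `c = u^2 - d^2 + 1`.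
(a2) `(V+2-2k)^2 = V^2 - 2 u V + 2 T ≥ 0` (identity `ring`), times `n`, with `n T = P V`:
`V (n (V - 2u) + 2 P) ≥ 0`.
(a3) `(k - m d - 1)(V + 1 - k - m d) ≥ 0` gives `k (V+2-k) ≥ (m d + 1)(V + 1 - m d)`, so
`T + V (d+1) ≤ 2 m^2 d^2`; multiply by `n`.
(a4) `n (w T) = w P V = P n (k-1)`, cancel `n`.
(a5) is `e3` rewritten (`ring`), (a6) the identity of (a2).  (a7) `A > 0`: for `m ≥ 3` we have
`n c - 2P ≥ c - 2P > 0`... (for `n ≥ 1`, `c ≥ 0`); so `V·(A Bq) > 0` and `Bq > 0`. -/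
def BasStmt : Prop :=
  ∀ (m d n w V k : ℤ), Feas m d n w V k →
    2 * m * d ≤ V ∧
    V * (A m d n * Bq m d n) = n * (n * c m d - 2 * P m d) ∧
    0 ≤ n * (V - 2 * u m d) + 2 * P m d ∧
    V * (P m d + n * (d + 1)) ≤ 2 * m ^ 2 * d ^ 2 * n ∧
    w * Th m d V k = P m d * (k - 1) ∧
    (Th m d V k - V - 1) ^ 2 = (V + 1) * (V * d ^ 2 + 1) - V * u m d ^ 2 ∧
    (V + 2 - 2 * k) ^ 2 = V ^ 2 - 2 * u m d * V + 2 * Th m d V k ∧
    (3 ≤ m → 0 < A m d n)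

/-- Module `Small`.  `m = 1` and `m = 2` do not occur.
PROOF.  `V ≥ 2 m d ≥ 2`.
`m = 1`: `P = 0`, so `Th = 0` (`e1`), `e3`: `(V+1)(d^2-1) = (d-1)^2`, i.e. `d = 1` or
`(V+1)(d+1) = d-1` (impossible).  `d = 1`: `Th = 2V - 2k(V+2-k) + 2 = 0`, i.e.
`(k-1)(V+1-k) = 0`; but `k ≥ 3`, `V+2-k ≥ 2`.
`m = 2`: `P = 2d`, `u = 3d-1`, `c = 8d^2-6d+2`, `A = n(d+1)-2d`, `Bq = n(d-1)+2d`, `V ≥ 4d`,
and (a1) `V A Bq = n (n c - 4d)`.
* `n = 1`: `A = 1-d`, `Bq = 3d-1`, right side `2(4d-1)(d-1)`.  If `d ≥ 2` the left side is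
  negative, the right side positive.  If `d = 1`: `e1` gives `Th = 2V`, i.e. `(k-1)(V+1-k) = 0`,
  but `k ≥ 3`, `V+2-k ≥ 3`.
* `n = 2`: `A = 2`, `Bq = 4d-2`, so `V (8d-4) = 8 (2d-1)^2`, `V = 4d-2 < 4d`.
* `n ≥ 3`, `d = 1`: `V (2n-2) 2 = n (4n-4)`, `V = n`, `e1`: `Th = 2`, i.e. `(k-2)(V-k) = 0`, but
  `k ≥ 3`, `V-k ≥ 1`.
* `n ≥ 3`, `d ≥ 2`: `4d A Bq ≤ V A Bq < n^2 c` (`A Bq > 0`), but
  `4 d A Bq - n^2 c = n^2 (4d^3-8d^2+2d-2) + 16 d^2 n - 16 d^3`, and `4d^3-8d^2+2d-2 > 0`, `n ≥ 3`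
  give `≥ 20d^3-24d^2+18d-18 > 0`. -/
def SmallStmt : Prop :=
  ∀ (m d n w V k : ℤ), Feas m d n w V k → 2 * m * d ≤ V →
    V * (A m d n * Bq m d n) = n * (n * c m d - 2 * P m d) → 3 ≤ m

/-- Module `Dn`.  For `m ≥ 3`: `d ≥ 2` and `n > m (m-1)`.
PROOF.  Multiply (a3) by `A Bq > 0` and use (a1), cancel `n`:
(X) `(n c - 2P)(n (d+1) + P) ≤ 2 m^2 d^2 A Bq`.
`d = 1`: `c = 4(m-1)^2`, `P = m(m-1)`, `Bq = P`, `A = 2n - P`; dividing (X) by `2(m-1)`: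
`(2(m-1)n - m)(2n + m(m-1)) ≤ m^3 (2n - m(m-1))`, i.e.
`4(m-1) n^2 - 4 m^2 n + m^2 (m-1)^2 (m+1) ≤ 0`; times `(m-1)`:
`(2(m-1)n - m^2)^2 + m^2 ((m-1)^3 (m+1) - m^2) ≤ 0`, false as `(m-1)^3 (m+1) > m^2` for `m ≥ 3`.
`d ≥ 2` and `n ≤ m(m-1)`: then `n d ≤ P`, so `A ≤ n`, and `Bq < n(d+1) + P`; (X) gives
`n c - 2P < 2 m^2 d^2 n`; with `P < n (d+1)` (`A > 0`): `c - 2(d+1) < 2 m^2 d^2`, i.e.
`4 m d ((m-1) d - 1) < 2 m^2 d^2`, i.e. `(m-2) d < 2`, false. -/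
def DnStmt : Prop :=
  ∀ (m d n V : ℤ), 3 ≤ m → 1 ≤ d → 1 ≤ n → 0 < V → 0 < A m d n →
    V * (A m d n * Bq m d n) = n * (n * c m d - 2 * P m d) →
    V * (P m d + n * (d + 1)) ≤ 2 * m ^ 2 * d ^ 2 * n →
    2 ≤ d ∧ m * (m - 1) + 1 ≤ n

/-- Module `Mono`.  Once `G` is positive it stays positive.
PROOF.  Over `ℝ` (or `ℚ`) let `g(t) = 2 t^3 - 2 (u+2) t^2 + 2 (2u - d^2 + 2) t + (2u(d^2-1) - c)`;
then `G m d n = n^3 g(P/n)` (`ring` after clearing denominators: `A Bq = (d^2-1)n^2 + 2nP - P^2`).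
`g(d) = -4 d^2 (m-1)(m-2) < 0`, `g(0) = 2u(d^2-1) - c > 0`.  Let `t0 = P/n0 ∈ (0, d)`,
`t = P/n ∈ (0, t0]`, `g(t0) > 0`.  If `t = t0` done, otherwise (Lagrange interpolation at
`0, t0, d`, leading coefficient 2)
`g(t) = 2 t (t-t0)(t-d) + g(0) (t-t0)(t-d)/(t0 d) + g(t0) t (t-d)/(t0 (t0-d))
        + g(d) t (t-t0)/(d (d-t0))`,
and all four terms are `≥ 0`, the first is `> 0`. -/
def MonoStmt : Prop :=
  ∀ (m d n0 n : ℤ), 3 ≤ m → 2 ≤ d → m * (m - 1) + 1 ≤ n0 → n0 ≤ n →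
    c m d < 2 * u m d * (d ^ 2 - 1) → 0 < G m d n0 → 0 < G m d n

/-- Module `Gle`.  PROOF.  Multiply (a2) by `A Bq > 0` and by `n`, use (a1):
`n^2 (n c - 2P) = n V A Bq ≥ (2 u n - 2 P) A Bq`... precisely
`(n (V-2u) + 2P) A Bq ≥ 0` and `V A Bq = n (n c - 2P)` give `n^2 (n c - 2P) ≥ 2 (u n - P) A Bq`. -/
def GleStmt : Prop :=
  ∀ (m d n V : ℤ), 3 ≤ m → 2 ≤ d → 1 ≤ n → 0 < A m d n →
    V * (A m d n * Bq m d n) = n * (n * c m d - 2 * P m d) →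
    0 ≤ n * (V - 2 * u m d) + 2 * P m d → G m d n ≤ 0

/-- Module `Bnd`.  For `2d ≥ m^3` (and `m ≥ 3`): `G (m(m-1)+1) > 0`, and `c < 2u(d^2-1)`.
PROOF.  Let `p = m(m-1)`, `N = p+1` (`n = N`), `α = (2m-2) p + 2m - 1`.  Then
`A = d + N`, `Bq = (2p+1) d - N`, `u N - P = α d - N`, `N c - 2P < 4 p d^2 N`, so
`G ≥ 2 (α d - N)(d + N)((2p+1) d - N) - 4 p N^3 d^2`.  `(α d - N)(d+N) = α d^2 + (α-1) N d - N^2
≥ α d^2`.  So `G ≥ 2 d^2 (α ((2p+1) d - N) - 2 p N^3)`, and `2d ≥ m^3`: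
`α ((2p+1) m^3 - 2N) > 4 p N^3` for `m ≥ 3` (put `m = t + 3`; all coefficients positive; for
`m = 3`: 29·337 = 9773 > 8232).
`c < 4 p d^2 ≤ ...`: `2u(d^2-1) ≥ 2((2m-1)d-1)(d^2-1) > 4 p d^2` for `2d ≥ m^3 ≥ 27`. -/
def BndStmt : Prop :=
  ∀ (m d : ℤ), 3 ≤ m → m ^ 3 ≤ 2 * d →
    0 < G m d (m * (m - 1) + 1) ∧ c m d < 2 * u m d * (d ^ 2 - 1)

/-- Module `Vol`.  PROOF.  `A Bq - (2d-1) n^2 = (d^2-2d) n^2 + P (2n - P) ≥ 0`: if `P ≤ 2n` clear,
otherwise, as `P ≤ d n` (`n ≥ m(m-1)`), `P (2n - P) ≥ d n (2n - d n)`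
(`(dn - P)(dn + P - 2n) ≥ 0`).  So `V (2d-1) n^2 ≤ V A Bq = n (n c - 2P) < n^2 c`, i.e.
`V (2d-1) < c ≤ 4 m (m-1) d^2`; `3 d^2 ≤ 2 d (2d-1)`, so `3 V (2d-1) < 8 m (m-1) d (2d-1)`,
`3 V < 8 m (m-1) d < 4 m (m-1) m^3 < 4 m^5` (`2d < m^3`). -/
def VolStmt : Prop :=
  ∀ (m d n V : ℤ), 3 ≤ m → 2 ≤ d → m * (m - 1) + 1 ≤ n → 2 * d < m ^ 3 → 0 < V →
    V * (A m d n * Bq m d n) = n * (n * c m d - 2 * P m d) → 3 * V < 4 * m ^ 5

/-- Module `Reg`.  The range of `V` when `n ≥ 2 m (m-1)`, i.e. `2 P ≤ n d`.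
PROOF.  `A Bq = d^2 n^2 - (n-P)^2 ≤ d^2 n^2`, so `n (n c - 2P) = V A Bq ≤ V d^2 n^2`, hence
`V d^2 ≥ c - 2P/n ≥ c - d` (clear denominators).  (a2): `n (V - 2u) ≥ -2P ≥ -n d`, so
`V ≥ 2u - d = (4m-3) d - 2`.  `4 A Bq - 3 d^2 n^2 = (d^2-4) n^2 + 4P (2n - P) ≥ 0`: if `P ≤ 2n`
clear, otherwise `2P ≤ dn` gives `4P(2n-P) ≥ 2dn(2n - dn/2)`, i.e. `(d^2-4)n^2 + 4dn^2 - d^2n^2 =
(4d-4) n^2 ≥ 0`.  So `3 d^2 n^2 V ≤ 4 V A Bq = 4 n (n c - 2P) ≤ 4 n^2 c`. -/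
def RegStmt : Prop :=
  ∀ (m d n V : ℤ), 3 ≤ m → 2 ≤ d → 1 ≤ n → 2 * m * (m - 1) ≤ n → 0 < V →
    V * (A m d n * Bq m d n) = n * (n * c m d - 2 * P m d) →
    0 ≤ n * (V - 2 * u m d) + 2 * P m d →
    c m d - d ≤ d ^ 2 * V ∧ (4 * m - 3) * d - 2 ≤ V ∧ 3 * d ^ 2 * V ≤ 4 * c m d

end QS3D
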