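import Pool.Agent.Lib.MP_72d5fb_co.Sound1
import Pool.Agent.Lib.MP_72d5fb_co.Spec

/-!
# MP_72d5fb_co: soundness of the tests, part 2 (first region)
-/

namespace QS3D

namespace Chk

theorem castA (m d n : ℕ) (hm : 1 ≤ m) (hn : m * (m - 1) * d ≤ n * (d + 1)) :
    ((n * (d + 1) - m * (m - 1) * d : ℕ) : ℤ) = A m d n := by
  rw [Nat.cast_sub hn, castP m d hm]
  unfold A
  push_cast
  ring

theorem castB (m d n : ℕ) (hm : 1 ≤ m) (hd : 1 ≤ d) :
    ((n * (d - 1) + m * (m - 1) * d : ℕ) : ℤ) = Bq m d n := by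
  rw [Nat.cast_add, castP m d hm, Nat.cast_mul, Nat.cast_sub hd]
  unfold Bq
  push_cast
  ring

theorem rec_and {x y : Bool} (h : (Bool.rec (motive := fun _ => Bool) false x y) = true) :
    y = true ∧ x = true := by
  cases y with
  | false => exact absurd h (by simp)
  | true => exact ⟨rfl, h⟩

theorem rec_or {x y : Bool} (h : (Bool.rec (motive := fun _ => Bool) x true y) = true) :
    y = true ∨ x = true := by
  cases y with
  | false => exact Or.inr h
  | true => exact Or.inl rfl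

theorem rec_imp {x y : Bool} (h : (Bool.rec (motive := fun _ => Bool) true x y) = true)
    (hy : y = true) : x = true := by
  rw [hy] at h
  exact h

theorem chkN_sound (m d n V T c c4 : ℕ) (hc : (c : ℤ) = QS3D.c m d) (hc4 : c4 + 2 * (d + 1) = c)
    (hm : 3 ≤ m) (hd : 1 ≤ d) (hn : 1 ≤ n)
    (ha1 : (V : ℤ) * (A m d n * Bq m d n) = n * (n * QS3D.c m d - 2 * P m d))
    (hA : 0 < A m d n) (hT : n * T = m * (m - 1) * d * V) :
    (chkN m (m * (m - 1) * d) d c n = true → rejE m d V T = true) ∧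
      (n * (d + 1) - m * (m - 1) * d) ∣ (m * (m - 1) * d) * (m * (m - 1) * d) * c4 := by
  have hm1 : 1 ≤ m := by omega
  have hPc := castP m d hm1
  obtain ⟨P', hP'⟩ : ∃ P', m * (m - 1) * d = P' := ⟨_, rfl⟩
  have hPpos : 0 < P' := by
    rw [← hP']
    have : 0 < m - 1 := by omega
    have h1 : 0 < m * (m - 1) := Nat.mul_pos (by omega) this
    exact Nat.mul_pos h1 hd
  have hle : m * (m - 1) * d ≤ n * (d + 1) := by
    have h1 : (P m d : ℤ) ≤ n * (d + 1) := by unfold A at hA; linarith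
    rw [← hPc] at h1
    exact_mod_cast h1
  have hAc := castA m d n hm1 hle
  have hBc := castB m d n hm1 hd
  rw [hP'] at hPc hle hAc hBc hT ⊢
  obtain ⟨A', hA'⟩ : ∃ A', n * (d + 1) - P' = A' := ⟨_, rfl⟩
  obtain ⟨B', hB'⟩ : ∃ B', n * (d - 1) + P' = B' := ⟨_, rfl⟩
  rw [hA'] at hAc
  rw [hB'] at hBc
  have hApos : 0 < A' := by
    have : (0 : ℤ) < A' := by rw [hAc]; exact hA
    exact_mod_cast this
  have hBpos : 0 < B' := by omega
  have hnc : 2 * P' ≤ n * c := by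
    have h1 : (0 : ℤ) ≤ n * (n * QS3D.c m d - 2 * P m d) := by
      rw [← ha1, ← hAc, ← hBc]; positivity
    have h2 : (0 : ℤ) < n := by exact_mod_cast hn
    have h3 : (0 : ℤ) ≤ n * QS3D.c m d - 2 * P m d := nonneg_of_mul_nonneg_right h1 h2
    have h4 : ((2 * P' : ℕ) : ℤ) ≤ ((n * c : ℕ) : ℤ) := by
      push_cast
      rw [hc, hPc]; linarith
    exact_mod_cast h4
  have hN : n * (n * c - 2 * P') = V * (A' * B') := by
    have : ((n * (n * c - 2 * P') : ℕ) : ℤ) = ((V * (A' * B') : ℕ) : ℤ) := by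
      rw [Nat.cast_mul, Nat.cast_sub hnc]
      push_cast
      rw [hAc, hBc, hc, hPc]; linarith
    exact_mod_cast this
  have hAA : A' + P' = n * (d + 1) := by omega
  have hdvd : A' ∣ n * (n * c4) := by
    have h1 : n * (n * c4) + 2 * n * A' = V * (A' * B') := by
      have hcc : n * c = n * c4 + 2 * (n * (d + 1)) := by rw [← hc4]; ring
      have : n * c - 2 * P' = n * c4 + 2 * A' := by omega
      rw [← hN, this]; ring
    have h2 : A' ∣ n * (n * c4) + 2 * n * A' := by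
      rw [h1]; exact ⟨V * B', by ring⟩
    exact (Nat.dvd_add_left (Dvd.intro_left _ rfl)).mp h2
  have hdvd2 : A' ∣ P' * P' * c4 := by
    have h1 : A' ∣ (n * (n * c4)) * ((d + 1) * (d + 1)) := Dvd.dvd.mul_right hdvd _
    have h2 : (n * (n * c4)) * ((d + 1) * (d + 1)) =
        P' * P' * c4 + ((A' + 2 * P') * c4) * A' := by
      have : (n * (n * c4)) * ((d + 1) * (d + 1)) = (n * (d + 1)) * (n * (d + 1)) * c4 := by ring
      rw [this, ← hAA]; ring
    rw [h2] at h1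
    exact (Nat.dvd_add_left (Dvd.intro_left _ rfl)).mp h1
  refine ⟨?_, by rw [hA']; exact hdvd2⟩
  intro h
  have hQ : Nat.mul (Nat.sub (Nat.mul n (Nat.succ d)) P') (Nat.add (Nat.mul n (Nat.pred d)) P')
      = A' * B' := by
    show (n * (d + 1) - P') * (n * (d - 1) + P') = A' * B'
    rw [hA', hB']
  have hN' : Nat.mul n (Nat.sub (Nat.mul n c) (Nat.mul (nat_lit 2) P')) = V * (A' * B') := hN
  have hQpos : 0 < A' * B' := Nat.mul_pos hApos hBpos
  unfold chkN at h
  rw [hQ, hN'] at h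
  simp only [forceB_eq] at h
  have f2 : Nat.beq (Nat.mod (V * (A' * B')) (A' * B')) (nat_lit 0) = true := by
    apply beq_true
    show (V * (A' * B')) % (A' * B') = 0
    exact Nat.mul_mod_left _ _
  have f3 : Nat.div (V * (A' * B')) (A' * B') = V := by
    show (V * (A' * B')) / (A' * B') = V
    exact Nat.mul_div_cancel _ hQpos
  have f4 : Nat.div (Nat.mul P' V) n = T := by
    show (P' * V) / n = T
    rw [← hT]
    exact Nat.mul_div_cancel_left _ hn
  rw [f2, f3, f4] at h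
  exact h

theorem gpos_sound (m d n c : ℕ) (hc : (c : ℤ) = QS3D.c m d) (hm : 1 ≤ m) (hd : 1 ≤ d)
    (hn : m * (m - 1) * d ≤ n * (d + 1))
    (h : gpos d (d * d) (m * (m - 1) * d) ((2 * m - 1) * d - 1) c n = true) :
    0 < G m d n ∧ QS3D.c m d < 2 * u m d * ((d : ℤ) ^ 2 - 1) := by
  unfold gpos at h
  have hu := castu m d hm hd
  have hP := castP m d hm
  have hA := castA m d n hm hn
  have hB := castB m d n hm hd
  rw [forceB_eq] at h
  obtain ⟨h2, h1⟩ := rec_and h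
  obtain ⟨U, hU⟩ : ∃ U, (2 * m - 1) * d - 1 = U := ⟨_, rfl⟩
  obtain ⟨P', hP'⟩ : ∃ P', m * (m - 1) * d = P' := ⟨_, rfl⟩
  obtain ⟨A', hA'⟩ : ∃ A', n * (d + 1) - P' = A' := ⟨_, rfl⟩
  obtain ⟨B', hB'⟩ : ∃ B', n * (d - 1) + P' = B' := ⟨_, rfl⟩
  rw [hU] at h1 h2 hu
  rw [hP'] at h1 hP hA hB
  have h1' : (n * n * (n * c) + 2 * P' * ((n * (d + 1) - P') * (n * (d - 1) + P'))) + 1 ≤
      2 * (U * n) * ((n * (d + 1) - P') * (n * (d - 1) + P')) + n * n * (2 * P') :=
    Nat.le_of_ble_eq_true h1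
  have h2' : (c + 2 * U) + 1 ≤ 2 * U * (d * d) := Nat.le_of_ble_eq_true h2
  rw [hA'] at hA h1'
  rw [hB'] at hB h1'
  constructor
  · unfold G
    rw [← hA, ← hB, ← hc, ← hP, ← hu]
    have : ((n * n * (n * c) + 2 * P' * (A' * B') : ℕ) : ℤ) + 1 ≤
        ((2 * (U * n) * (A' * B') + n * n * (2 * P') : ℕ) : ℤ) := by exact_mod_cast h1'
    push_cast at this
    nlinarith
  · rw [← hc, ← hu]
    have : ((c + 2 * U : ℕ) : ℤ) + 1 ≤ ((2 * U * (d * d) : ℕ) : ℤ) := by exact_mod_cast h2'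
    push_cast at this
    nlinarith

theorem castc (m d : ℕ) (hm : 3 ≤ m) (hd : 1 ≤ d) :
    ((4 * (m * (m - 1)) * (d * d) + 2 - 2 * (2 * m - 1) * d : ℕ) : ℤ) = QS3D.c m d := by
  have h1 : 2 * (2 * m - 1) * d ≤ 4 * (m * (m - 1)) * (d * d) + 2 := by
    have a : 2 * (2 * m - 1) ≤ 4 * m := by omega
    have b : 4 * m ≤ 4 * (m * (m - 1)) * d := by
      have b1 : 1 ≤ (m - 1) * d := Nat.mul_pos (by omega) hd
      calc 4 * m = 4 * m * 1 := by ring
        _ ≤ 4 * m * ((m - 1) * d) := Nat.mul_le_mul_left _ b1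
        _ = 4 * (m * (m - 1)) * d := by ring
    calc 2 * (2 * m - 1) * d ≤ (4 * (m * (m - 1)) * d) * d := Nat.mul_le_mul_right _ (a.trans b)
      _ = 4 * (m * (m - 1)) * (d * d) := by ring
      _ ≤ _ := by omega
  rw [Nat.cast_sub h1]
  have h2 : 1 ≤ m := by omega
  have h3 : 1 ≤ 2 * m := by omega
  push_cast [Nat.cast_sub h2, Nat.cast_sub h3]
  unfold QS3D.c
  ring

theorem castc4 (m d : ℕ) (hm : 3 ≤ m) (hd : 1 ≤ d) :
    4 * (m * (m - 1)) * (d * d) - 4 * m * d + 2 * (d + 1) =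
      4 * (m * (m - 1)) * (d * d) + 2 - 2 * (2 * m - 1) * d := by
  have b : 4 * m * d ≤ 4 * (m * (m - 1)) * (d * d) := by
    have b1 : 1 ≤ (m - 1) * d := Nat.mul_pos (by omega) hd
    calc 4 * m * d = 4 * m * d * 1 := by ring
      _ ≤ 4 * m * d * ((m - 1) * d) := Nat.mul_le_mul_left _ b1
      _ = 4 * (m * (m - 1)) * (d * d) := by ring
  have e : 2 * (2 * m - 1) * d + 2 * d = 4 * m * d := by
    obtain ⟨a, rfl⟩ : ∃ a, m = a + 1 := ⟨m - 1, by omega⟩
    have : 2 * (a + 1) - 1 = 2 * a + 1 := by omega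
    rw [this]; ring
  omega

theorem chkD1_sound (hMono : MonoStmt) (m d n V T : ℕ) (hm : 3 ≤ m) (hd : 2 ≤ d)
    (hn : m * (m - 1) + 1 ≤ n) (hn2 : n + 1 ≤ 2 * (m * (m - 1)))
    (ha1 : (V : ℤ) * (A m d n * Bq m d n) = n * (n * QS3D.c m d - 2 * P m d))
    (hA : 0 < A m d n) (hT : n * T = m * (m - 1) * d * V) (hG : G m d n ≤ 0)
    (h : chkD1 m (2 * m - 1) (m * (m - 1)) d = true) : rejE m d V T = true := by
  have hm1 : 1 ≤ m := by omega
  have hd1 : 1 ≤ d := by omega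
  unfold chkD1 at h
  simp only [forceB_eq] at h
  obtain ⟨h1, h2⟩ := rec_and h
  have h1 := rec_or h1
  have hcc := castc m d hm hd1
  have hc4 := castc4 m d hm hd1
  obtain ⟨J, hJ⟩ : ∃ J, jmax m (m * (m - 1)) d (Nat.mul d d) = J := ⟨_, rfl⟩
  rw [hJ] at h1 h2
  by_cases hcase : n ≤ m * (m - 1) + J
  · obtain ⟨s1, s2⟩ := chkN_sound m d n V T _ _ hcc hc4 hm hd1 (by omega) ha1 hA hT
    have h3 := allUpTo_spec h2 (n - m * (m - 1)) (by omega) (by omega)
    apply s1
    have h4 : Nat.add (m * (m - 1)) (n - m * (m - 1)) = n := by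
      show m * (m - 1) + (n - m * (m - 1)) = n
      omega
    have h5 : Nat.add (m * (m - 1)) (Nat.mul (n - m * (m - 1)) (Nat.succ d)) =
        n * (d + 1) - m * (m - 1) * d := by
      show m * (m - 1) + (n - m * (m - 1)) * (d + 1) = n * (d + 1) - m * (m - 1) * d
      obtain ⟨j, hj⟩ : ∃ j, n = m * (m - 1) + j := ⟨n - m * (m - 1), by omega⟩
      have e1 : n - m * (m - 1) = j := by omega
      rw [e1, hj]
      have e2 : (m * (m - 1) + j) * (d + 1) = m * (m - 1) * d + (m * (m - 1) + j * (d + 1)) := by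
        ring
      rw [e2]
      omega
    rw [h4, h5] at h3
    have h6 := rec_imp h3 (beq_true (Nat.mod_eq_zero_of_dvd s2))
    exact h6
  · have hgp : gpos d (d * d) (m * (m - 1) * d) ((2 * m - 1) * d - 1)
        (4 * (m * (m - 1)) * (d * d) + 2 - 2 * (2 * m - 1) * d) (m * (m - 1) + J + 1) = true := by
      rcases h1 with h1 | h1
      · exfalso
        have h5 : m * (m - 1) - 1 ≤ J := Nat.le_of_ble_eq_true h1
        omega
      · exact h1
    have h6 : m * (m - 1) * d ≤ (m * (m - 1) + J + 1) * (d + 1) := by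
      have : m * (m - 1) ≤ m * (m - 1) + J + 1 := by omega
      exact Nat.mul_le_mul this (by omega)
    obtain ⟨h7, h8⟩ := gpos_sound m d (m * (m - 1) + J + 1) _ hcc hm1 hd1 h6 hgp
    have hmz : (3 : ℤ) ≤ (m : ℤ) := by exact_mod_cast hm
    have hdz : (2 : ℤ) ≤ (d : ℤ) := by exact_mod_cast hd
    have hcast : ((m * (m - 1) : ℕ) : ℤ) = (m : ℤ) * (m - 1) := by
      rw [Nat.cast_mul, Nat.cast_sub hm1]; push_cast; ring
    have hlast := hMono m d ((m * (m - 1) + J + 1 : ℕ) : ℤ) n hmz hdz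
      (by rw [← hcast]; push_cast; linarith [Int.natCast_nonneg J])
      (by exact_mod_cast (by omega : m * (m - 1) + J + 1 ≤ n)) h8 h7
    linarith

theorem chk1_d {m : ℕ} (h : chk1 m = true) (d : ℕ) (hd : 2 ≤ d) (hd2 : 2 * d < m * m * m) :
    chkD1 m (2 * m - 1) (m * (m - 1)) d = true := by
  unfold chk1 at h
  simp only [forceB_eq] at h
  have h3 := allUpTo_spec h (d - 1) (by omega) (by omega)
  have h4 : Nat.succ (d - 1) = d := by omega
  rw [h4] at h3
  exact h3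

end Chk

end QS3D
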