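import Pool.Agent.Lib.MP_72d5fb_co.Bas
import Pool.Agent.Lib.MP_72d5fb_co.Small
import Pool.Agent.Lib.MP_72d5fb_co.Dn

/-!
# MP_72d5fb_co: a divisibility condition for the parameters
-/

set_option autoImplicit false

namespace QS3D

theorem Th_eq (m d V k : ℤ) :
    Th m d V k = 2 * (k - 1) ^ 2 - V * (2 * (k - 1) - u m d) := by
  unfold Th u; ring

/-- `S = V / G` divides `Th - 2`. -/
theorem S_dvd {m d n w V k g S a : ℤ} (hF : Feas m d n w V k) (hg : g ≠ 0) (hV : V = g * S)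
    (ha : (k - 1) ^ 2 = g * a) (hc : IsCoprime S a) :
    S ∣ Th m d V k - 2 := by
  have hT := Th_eq m d V k
  obtain ⟨c0, hc0⟩ : ∃ c0, c0 = 2 * (k - 1) - u m d := ⟨_, rfl⟩
  obtain ⟨J, hJ⟩ : ∃ J, J = (V + 1) * (d ^ 2 - 1) + 2 * Th m d V k - u m d ^ 2 := ⟨_, rfl⟩
  have e3 := hF.e3
  rw [← hJ] at e3
  have hM : Th m d V k = g * (2 * a - S * c0) := by
    rw [hT, ha, hc0, hV]; ring
  have h1 : S * J = (2 * a - S * c0) * (Th m d V k - 2) := by
    apply mul_left_cancel₀ hg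
    calc g * (S * J) = V * J := by rw [hV]; ring
      _ = Th m d V k * (Th m d V k - 2) := e3
      _ = g * ((2 * a - S * c0) * (Th m d V k - 2)) := by
          rw [← mul_assoc, ← hM]
  rcases Int.even_or_odd S with hS | hS
  · -- even case
    obtain ⟨S1, hS1⟩ := hS
    have hS2 : S = 2 * S1 := by rw [hS1]; ring
    have hVe : V = 2 * (g * S1) := by rw [hV, hS2]; ring
    obtain ⟨t0, ht0⟩ : ∃ t0, Th m d V k = 2 * t0 := by
      refine ⟨(k - 1) ^ 2 - g * S1 * (2 * (k - 1) - u m d), ?_⟩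
      rw [hT, hVe]; ring
    have hJe : ∃ J1, J = 2 * J1 := by
      have hp : (d ^ 2 - 1 - ((2 * m - 1) * d - 1) ^ 2) % 2 = 0 := by
        rcases Int.even_or_odd' d with ⟨e, rfl | rfl⟩
        · have : (2 * e) ^ 2 - 1 - ((2 * m - 1) * (2 * e) - 1) ^ 2
              = 2 * (2 * e ^ 2 - 1 - 2 * ((2 * m - 1) * e) ^ 2 + 2 * ((2 * m - 1) * e)) := by ring
          rw [this]; exact Int.mul_emod_right _ _
        · have : (2 * e + 1) ^ 2 - 1 - ((2 * m - 1) * (2 * e + 1) - 1) ^ 2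
              = 2 * (2 * e ^ 2 + 2 * e - 2 * (m * (2 * e + 1) - e - 1) ^ 2) := by ring
          rw [this]; exact Int.mul_emod_right _ _
      obtain ⟨q, hq⟩ := Int.dvd_of_emod_eq_zero hp
      refine ⟨g * S1 * (d ^ 2 - 1) + q + Th m d V k, ?_⟩
      rw [hJ]
      have hu : u m d = (2 * m - 1) * d - 1 := rfl
      rw [hu]
      linear_combination hq + (d ^ 2 - 1) * hVe
    obtain ⟨J1, hJ1⟩ := hJe
    have h2 : S1 * J1 = (a - S1 * c0) * (t0 - 1) := by
      have h3 : 4 * (S1 * J1) = 4 * ((a - S1 * c0) * (t0 - 1)) := by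
        rw [hS2, hJ1, ht0] at h1
        linear_combination h1
      exact mul_left_cancel₀ (by norm_num) h3
    have hcop : IsCoprime S1 a := by
      rw [hS2] at hc
      exact hc.of_mul_left_right
    have h3 : S1 ∣ a * (t0 - 1) := by
      refine ⟨J1 + c0 * (t0 - 1), ?_⟩
      linear_combination -h2
    obtain ⟨q, hq⟩ := hcop.dvd_of_dvd_mul_left h3
    refine ⟨q, ?_⟩
    rw [ht0, hS2]
    linear_combination 2 * hq
  · have h3 : S ∣ a * (2 * (Th m d V k - 2)) := by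
      refine ⟨J + c0 * (Th m d V k - 2), ?_⟩
      linear_combination -h1
    have h4 := hc.dvd_of_dvd_mul_left h3
    obtain ⟨e, he⟩ := hS
    have hc2 : IsCoprime S 2 := ⟨1, -e, by rw [he]; ring⟩
    exact hc2.dvd_of_dvd_mul_left h4

/-- The integer `T`. -/
theorem T_int {m d n w V k g S a : ℤ} (hF : Feas m d n w V k) (hg : g ≠ 0) (hS : S ≠ 0)
    (hV : V = g * S) (ha : (k - 1) ^ 2 = g * a) (hc : IsCoprime S a) :
    ∃ i : ℤ, Th m d V k - 2 = S * i ∧
      S ^ 2 * ((i - g) ^ 2 + 2 * d * i * (P m d * g - n * i) - g ^ 2 * d ^ 2)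
        = 4 * (k * (V + 2 - k) - 2 * d * n) := by
  obtain ⟨i, hi⟩ := S_dvd hF hg hV ha hc
  refine ⟨i, hi, ?_⟩
  have e1 := hF.e1
  have e3 := hF.e3
  have h1 : S * (P m d * g - n * i) = 2 * n := by
    have : S * (P m d * g - n * i) = P m d * (g * S) - n * (S * i) := by ring
    rw [this, ← hV, ← hi, ← e1]; ring
  have h2 : (Th m d V k - 2 - V) ^ 2 + 4 * d * n * (Th m d V k - 2) - V ^ 2 * d ^ 2
      = 4 * (k * (V + 2 - k) - 2 * d * n) := by
    have hK : 2 * (k * (V + 2 - k)) = V * (u m d + 2) - Th m d V k + 2 := by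
      unfold Th u; ring
    have hP : 4 * d * P m d = (u m d + 1) ^ 2 - d ^ 2 := by
      unfold P u; ring
    linear_combination 4 * d * e1 - 2 * hK + V * hP - e3
  rw [← h2]
  have h3 : S ^ 2 * ((i - g) ^ 2 + 2 * d * i * (P m d * g - n * i) - g ^ 2 * d ^ 2)
      = (S * i - g * S) ^ 2 + 2 * d * (S * i) * (S * (P m d * g - n * i)) - (g * S) ^ 2 * d ^ 2 := by
    ring
  rw [h3, ← hV, ← hi, h1]
  ring

end QS3D
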